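import Mathlib

/-! Rosenfeld's counting version of the local lemma. -/

set_option autoImplicit false

namespace Pool.Agent.H839Z.CE

open Finset

theorem rosenfeld {Λ R B : Type} [DecidableEq Λ] [Fintype R] [Nonempty R] (X : Finset Λ)
    (r0 : Λ → R) (ev : Finset B) (supp Z : B → Finset Λ) (bad : B → (Λ → R) → Prop)
    (hdep : ∀ b ∈ ev, ∀ r r' : Λ → R, (∀ x ∈ supp b, r x = r' x) → bad b r → bad b r')
    (hZX : ∀ b ∈ ev, Z b ⊆ X) (hZs : ∀ b ∈ ev, Z b ⊆ supp b) (hne : ∀ b ∈ ev, (Z b).Nonempty)
    (hdet : ∀ b ∈ ev, ∀ r r' : Λ → R, (∀ x, x ∉ Z b → r x = r' x) → bad b r → bad b r' → r = r')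
    (hsum : ∀ x ∈ X, ∑ b ∈ ev with x ∈ supp b, ((2 : ℝ) / Fintype.card R) ^ #(Z b) ≤ 1 / 2) :
    ∃ r : Λ → R, (∀ x, x ∉ X → r x = r0 x) ∧ ∀ b ∈ ev, ¬ bad b r := by
  classical
  let ex : (X → R) → Λ → R := fun g x => if h : x ∈ X then g ⟨x, h⟩ else r0 x
  have ex_inj : Function.Injective ex := by
    intro g g' h
    funext ⟨x, hx⟩
    have := congrFun h x
    simpa [ex, hx] using this
  let valid : Finset Λ → (X → R) → Prop := fun Y g =>
    ∀ b ∈ ev, supp b ∩ X ⊆ Y → ¬ bad b (ex g)
  let V : Finset Λ → Finset (X → R) := fun Y => univ.filter (valid Y)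
  have hm : (0 : ℝ) < Fintype.card R := by exact_mod_cast Fintype.card_pos
  have key : ∀ b ∈ ev, ∀ Y : Finset Λ, Disjoint Y (Z b) →
      #((V Y).filter fun g => bad b (ex g)) * Fintype.card R ^ #(Z b) ≤ #(V Y) := by
    intro b hb Y hY
    let ov : (X → R) × (Z b → R) → (X → R) := fun p x =>
      if h : x.1 ∈ Z b then p.2 ⟨x.1, h⟩ else p.1 x
    have hov : ∀ p x, x ∉ Z b → ex (ov p) x = ex p.1 x := by
      intro p x hx
      by_cases h : x ∈ X <;> simp [ex, ov, h, hx]
    have h1 : #(((V Y).filter fun g => bad b (ex g)) ×ˢ (univ : Finset (Z b → R))) ≤ #(V Y) := by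
      refine card_le_card_of_injOn ov ?_ ?_
      · rintro ⟨g, h⟩ hp
        simp only [coe_product, Set.mem_prod, mem_coe, mem_filter, mem_univ, true_and, and_true,
          V] at hp ⊢
        intro b' hb' hs hbad
        refine hp.1 b' hb' hs (hdep b' hb' _ _ (fun x hx => hov (g, h) x fun hz => ?_) hbad)
        exact disjoint_left.1 hY (hs (mem_inter.2 ⟨hx, hZX b hb hz⟩)) hz
      · rintro ⟨g, h⟩ hp ⟨g', h'⟩ hp' e
        simp only [coe_product, Set.mem_prod, mem_coe, mem_filter, mem_univ, and_true] at hp hp'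
        have e1 : g = g' := ex_inj (hdet b hb _ _ (fun x hx => by
          rw [← hov (g, h) x hx, ← hov (g', h') x hx, e]) hp.2 hp'.2)
        have e2 : h = h' := by
          funext ⟨x, hx⟩
          have := congrFun e ⟨x, hZX b hb hx⟩
          simpa [ov, hx] using this
        rw [e1, e2]
    simpa [card_product] using h1
  have sub : ∀ Y : Finset Λ, Y ⊆ X →
      (∀ Y' ⊂ Y, ∀ e ∈ X, (#(V Y') : ℝ) ≤ 2 * #(V (insert e Y'))) →
      ∀ S : Finset Λ, (#(V (Y \ S)) : ℝ) ≤ 2 ^ #S * #(V Y) := by
    intro Y hY ih S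
    induction S using Finset.induction_on with
    | empty => simp
    | insert a S ha hS =>
      rw [card_insert_of_notMem ha, pow_succ, sdiff_insert]
      by_cases h : a ∈ Y \ S
      · have h1 := ih ((Y \ S).erase a) (lt_of_lt_of_le (erase_ssubset h) sdiff_subset) a
          (hY (mem_sdiff.1 h).1)
        rw [insert_erase h] at h1
        linarith
      · rw [erase_eq_of_notMem h]
        have : (0 : ℝ) ≤ 2 ^ #S * #(V Y) := by positivity
        linarith
  have main : ∀ Y : Finset Λ, Y ⊆ X → ∀ e ∈ X, (#(V Y) : ℝ) ≤ 2 * #(V (insert e Y)) := by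
    intro Y
    induction Y using Finset.strongInduction with
    | H Y ih =>
      intro hY e he
      have hs := sub Y hY fun Y' h => ih Y' h (h.subset.trans hY)
      have h1 : V Y ⊆ V (insert e Y) ∪
          (ev.filter fun b => e ∈ supp b).biUnion fun b => (V Y).filter fun g => bad b (ex g) := by
        intro g hg
        by_cases h : g ∈ V (insert e Y)
        · exact mem_union_left _ h
        · refine mem_union_right _ ?_
          simp only [V, mem_filter, mem_univ, true_and, valid, not_forall, not_not] at h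
          obtain ⟨b, hb, h2, h3⟩ := h
          refine mem_biUnion.2 ⟨b, mem_filter.2 ⟨hb, ?_⟩, mem_filter.2 ⟨hg, h3⟩⟩
          by_contra h4
          refine (mem_filter.1 hg).2 b hb (fun x hx => ?_) h3
          rcases mem_insert.1 (h2 hx) with rfl | h5
          · exact absurd (mem_inter.1 hx).1 h4
          · exact h5
      have h2 : (#(V Y) : ℝ) ≤ #(V (insert e Y)) +
          ∑ b ∈ ev with e ∈ supp b, (#((V Y).filter fun g => bad b (ex g)) : ℝ) := by
        have := (card_le_card h1).trans ((card_union_le _ _).trans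
          (Nat.add_le_add_left card_biUnion_le _))
        exact_mod_cast this
      have h3 : ∀ b ∈ ev.filter (fun b => e ∈ supp b),
          (#((V Y).filter fun g => bad b (ex g)) : ℝ) ≤
            ((2 : ℝ) / Fintype.card R) ^ #(Z b) * #(V Y) := by
        intro b hb
        have hb := (mem_filter.1 hb).1
        have a1 : #((V Y).filter fun g => bad b (ex g)) ≤
            #((V (Y \ Z b)).filter fun g => bad b (ex g)) := by
          refine card_le_card (filter_subset_filter _ fun g hg => ?_)
          simp only [V, mem_filter, mem_univ, true_and] at hg ⊢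
          exact fun b' hb' h => hg b' hb' (h.trans sdiff_subset)
        have a2 := key b hb (Y \ Z b) sdiff_disjoint
        have a3 : (#((V Y).filter fun g => bad b (ex g)) : ℝ) * (Fintype.card R : ℝ) ^ #(Z b) ≤
            #(V (Y \ Z b)) := by
          exact_mod_cast (Nat.mul_le_mul_right _ a1).trans a2
        rw [div_pow, div_mul_eq_mul_div, le_div_iff₀ (by positivity)]
        exact a3.trans (hs _)
      have h4 := sum_le_sum h3
      rw [← sum_mul] at h4
      have h5 := mul_le_mul_of_nonneg_right (hsum e he) (Nat.cast_nonneg (α := ℝ) #(V Y))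
      linarith
  have h0 : V ∅ = univ := by
    refine filter_true_of_mem fun g _ b hb h => ?_
    obtain ⟨x, hx⟩ := hne b hb
    exact absurd (h (mem_inter.2 ⟨hZs b hb hx, hZX b hb hx⟩)) (notMem_empty x)
  have h1 := sub X subset_rfl (fun Y' h => main Y' h.subset) X
  rw [sdiff_self, bot_eq_empty, h0] at h1
  have h2 : (0 : ℝ) < #(univ : Finset (X → R)) := by exact_mod_cast card_pos.2 univ_nonempty
  have h3 : (V X).Nonempty := by
    rw [nonempty_iff_ne_empty]
    intro h
    rw [h] at h1
    simp only [card_empty, Nat.cast_zero, mul_zero] at h1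
    linarith
  obtain ⟨g, hg⟩ := h3
  exact ⟨ex g, fun x hx => by simp [ex, hx],
    fun b hb => (mem_filter.1 hg).2 b hb inter_subset_right⟩

end Pool.Agent.H839Z.CE
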