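import Pool.Agent.H839Z.CE.Graph

/-! Chains along geodesics, girth, and the comparison of the wall metric with the path metric. -/

set_option autoImplicit false

namespace Pool.Agent.H839Z.CE

open Finset FreeGroup

lemma zmod2_cases (x : ZMod 2) : x = 0 ∨ x = 1 := by revert x; decide

lemma neg_fs {X : Type} (c : X →₀ ZMod 2) : -c = c := by
  ext x; exact ZMod.neg_eq_self_mod_two _

lemma add_self_fs {X : Type} (c : X →₀ ZMod 2) : c + c = 0 := by
  nth_rewrite 1 [← neg_fs c]; exact neg_add_cancel c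

lemma fs_eq_of_support {X : Type} {c c' : X →₀ ZMod 2} (h : c.support = c'.support) : c = c' := by
  ext x
  have : x ∈ c.support ↔ x ∈ c'.support := by rw [h]
  simp only [Finsupp.mem_support_iff] at this
  rcases zmod2_cases (c x) with h1 | h1 <;> rcases zmod2_cases (c' x) with h2 | h2 <;> simp_all

lemma bdry_single {Λ W : Type} (o t : Λ → W) (e : Λ) :
    bdry o t (Finsupp.single e 1) = Finsupp.single (o e) 1 + Finsupp.single (t e) 1 := by
  simp [bdry, Finsupp.mapDomain_single]

lemma bdry_ne_zero {Λ W : Type} (o t : Λ → W) (c : Λ →₀ ZMod 2) (u : W) (h : bdry o t c u ≠ 0) :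
    ∃ e ∈ c.support, o e = u ∨ t e = u := by
  classical
  by_contra hcon
  push Not at hcon
  apply h
  have h1 : Finsupp.mapDomain o c u = 0 := by
    by_contra h2
    have := Finsupp.mapDomain_support (Finsupp.mem_support_iff.2 h2)
    obtain ⟨e, he, h3⟩ := mem_image.1 this
    exact (hcon e he).1 h3
  have h2 : Finsupp.mapDomain t c u = 0 := by
    by_contra h2
    have := Finsupp.mapDomain_support (Finsupp.mem_support_iff.2 h2)
    obtain ⟨e, he, h3⟩ := mem_image.1 this
    exact (hcon e he).2 h3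
  simp [bdry, h1, h2]

lemma support_add_single {X : Type} [DecidableEq X] (c : X →₀ ZMod 2) (e : X) :
    (c + Finsupp.single e 1).support = if e ∈ c.support then c.support.erase e
      else insert e c.support := by
  ext x
  by_cases hx : x = e
  · subst hx
    rcases zmod2_cases (c x) with h | h
    · simp [h]
    · have : (1 : ZMod 2) + 1 = 0 := by decide
      simp [h, this]
  · split_ifs <;> simp [hx]

namespace LG

variable {S : Type} {G : LG S}

open Classical in
/-- The edge of the graph below a tree edge. -/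
noncomputable def cl (φ : G.Chart) (ε : Edg S) : Option G.Λ :=
  if h : ∃ e, Over φ ε e then some h.choose else none

lemma cl_eq_some {φ : G.Chart} {ε : Edg S} {e : G.Λ} : cl φ ε = some e ↔ Over φ ε e := by
  unfold cl
  split_ifs with h
  · constructor
    · intro h2; rw [← Option.some.inj h2]; exact h.choose_spec
    · intro h2; rw [h.choose_spec.unique h2]
  · simp only [false_iff]
    exact fun h2 => h ⟨e, h2⟩

lemma cl_smul (g : FreeGroup S) (φ : G.Chart) (ε : Edg S) : cl (g • φ) (tr g ε) = cl φ ε := by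
  ext e; simp only [cl_eq_some, over_smul]

section weights

variable {A : Type*} [AddCommGroup A]

/-- Weights on tree edges pulled back from the graph. -/
noncomputable def wt (f : G.Λ → A) (φ : G.Chart) (ε : Edg S) : A := (cl φ ε).elim 0 f

lemma wt_over (f : G.Λ → A) {φ : G.Chart} {ε : Edg S} {e : G.Λ} (h : Over φ ε e) :
    wt f φ ε = f e := by
  rw [wt, cl_eq_some.2 h]; rfl

lemma wt_not (f : G.Λ → A) {φ : G.Chart} {ε : Edg S} (h : ¬ Ed φ ε) : wt f φ ε = 0 := by
  have h' : ¬ ∃ e, Over φ ε e := h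
  rw [wt, cl, dif_neg h']; rfl

variable [DecidableEq S]

/-- Signed sum of the weights along a geodesic. -/
noncomputable def P (f : G.Λ → A) (φ : G.Chart) (x y : FreeGroup S) : A := pot (wt f φ) x y

lemma P_smul (f : G.Λ → A) (g : FreeGroup S) (φ : G.Chart) (x y : FreeGroup S) :
    P f (g • φ) (g * x) (g * y) = P f φ x y :=
  pot_mul _ _ g x y fun ε => by rw [wt, wt, cl_smul]

lemma P_add (f : G.Λ → A) (φ : G.Chart) (x y z : FreeGroup S) :
    P f φ x y + P f φ y z = P f φ x z := pot_add _ _ _ _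

@[simp] lemma P_self (f : G.Λ → A) (φ : G.Chart) (x : FreeGroup S) : P f φ x x = 0 := pot_self _ _

lemma P_swap (f : G.Λ → A) (φ : G.Chart) (x y : FreeGroup S) : P f φ y x = -P f φ x y :=
  pot_swap _ _ _

lemma P_edge (f : G.Λ → A) {φ : G.Chart} {ε : Edg S} {e : G.Λ} (h : Over φ ε e) :
    P f φ ε.1 (tE ε) = f e := by rw [P, pot_edge, wt_over f h]

lemma P_fix (f : G.Λ → A) {φ : G.Chart} {p : FreeGroup S} (hp : p • φ = φ) (x y : FreeGroup S) :
    P f φ (p * x) (p * y) = P f φ x y := by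
  conv_lhs => rw [← hp]
  exact P_smul f p φ x y

lemma P_stab (f : G.Λ → A) {φ : G.Chart} {p : FreeGroup S} (hp : p • φ = φ) (x : FreeGroup S) :
    P f φ x (p * x) = P f φ 1 p := by
  have h1 := P_fix f hp 1 x
  rw [mul_one] at h1
  rw [← P_add f φ x 1 (p * x), ← P_add f φ 1 p (p * x), h1, P_swap f φ 1 x]
  abel

lemma P_mul (f : G.Λ → A) {φ : G.Chart} {p : FreeGroup S} (hp : p • φ = φ) (q : FreeGroup S) :
    P f φ 1 (p * q) = P f φ 1 p + P f φ 1 q := by
  rw [← P_add f φ 1 p (p * q), ← P_fix f hp 1 q, mul_one]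

lemma P_inv (f : G.Λ → A) {φ : G.Chart} {p : FreeGroup S} (hp : p • φ = φ) :
    P f φ 1 p⁻¹ = -P f φ 1 p := by
  rw [← P_fix f hp 1 p⁻¹, mul_one, mul_inv_cancel, P_swap]

lemma P_conj (f : G.Λ → A) {φ : G.Chart} {p : FreeGroup S} (hp : p • φ = φ) (g : FreeGroup S) :
    P f (g • φ) 1 (g * p * g⁻¹) = P f φ 1 p := by
  have := P_smul f g φ g⁻¹ (p * g⁻¹)
  rw [mul_inv_cancel, ← mul_assoc] at this
  rw [this, P_stab f hp]

end weights

variable [DecidableEq S]

/-- The mod two chain of a geodesic. -/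
noncomputable def O (φ : G.Chart) (x y : FreeGroup S) : G.Λ →₀ ZMod 2 :=
  P (fun e => Finsupp.single e 1) φ x y

lemma O_add (φ : G.Chart) (x y z : FreeGroup S) : O φ x y + O φ y z = O φ x z := P_add _ _ _ _ _

lemma O_comm (φ : G.Chart) (x y : FreeGroup S) : O φ y x = O φ x y := by
  rw [O, P_swap, neg_fs]; rfl

lemma O_edge {φ : G.Chart} {ε : Edg S} {e : G.Λ} (h : Over φ ε e) :
    O φ ε.1 (tE ε) = Finsupp.single e 1 := P_edge _ h

open Classical in
lemma O_apply (φ : G.Chart) (x y : FreeGroup S) (e : G.Λ) :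
    O φ x y e = (#((E x y).filter fun ε => Over φ ε e) : ZMod 2) := by
  rw [O, P, pot_two _ neg_fs, Finsupp.finsetSum_apply, card_filter]
  push_cast
  refine sum_congr rfl fun ε _ => ?_
  by_cases h : Ed φ ε
  · obtain ⟨e', he'⟩ := h
    rw [wt_over _ he']
    by_cases h2 : e' = e
    · subst h2; simp [he']
    · have : ¬ Over φ ε e := fun h3 => h2 (he'.unique h3)
      simp [this, h2]
  · have : ¬ Over φ ε e := fun h3 => h ⟨e, h3⟩
    simp [wt_not _ h, this]

lemma mem_O {φ : G.Chart} {x y : FreeGroup S} {e : G.Λ} (h : e ∈ (O φ x y).support) :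
    ∃ ε ∈ E x y, Over φ ε e := by
  classical
  by_contra hcon
  push Not at hcon
  rw [Finsupp.mem_support_iff, O_apply, filter_eq_empty_iff.2 hcon] at h
  simp at h

lemma bd_O {φ : G.Chart} {x y : FreeGroup S} {u v : G.W} (hx : φ.1 x = some u)
    (hy : φ.1 y = some v) :
    bdry G.o G.t (O φ x y) = Finsupp.single u 1 + Finsupp.single v 1 := by
  refine chart_ind (φ := φ) ⟨u, hx⟩ (fun y => ∀ v, φ.1 y = some v →
    bdry G.o G.t (O φ x y) = Finsupp.single u 1 + Finsupp.single v 1) ?_ ?_ y ⟨v, hy⟩ v hy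
  · intro v hv
    rw [Option.some.inj (hv.symm.trans hx), add_self_fs, O, P_self, map_zero]
  · intro ε e he
    have h1 := O_add φ x ε.1 (tE ε)
    rw [O_edge he] at h1
    have h2 := congrArg (bdry G.o G.t) h1
    rw [map_add, bdry_single] at h2
    constructor
    · intro h v hv
      rw [Option.some.inj (hv.symm.trans he.val_t), ← h2, h _ he.1, add_assoc,
        ← add_assoc (Finsupp.single (G.o e) 1), add_self_fs, zero_add]
    · intro h v hv
      rw [Option.some.inj (hv.symm.trans he.1)]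
      rw [h _ he.val_t] at h2
      rw [← add_assoc] at h2
      have h3 := add_right_cancel h2
      rw [← h3, add_assoc, add_self_fs, add_zero]

lemma E_sub_of_ends {x y p q : FreeGroup S} {ε ε' : Edg S} (hε : ε ∈ E x y) (hε' : ε' ∈ E x y)
    (hp : IsEnd ε p) (hq : IsEnd ε' q) : E p q ⊆ E x y := by
  intro z hz
  rcases mem_union.1 (E_tri p x q hz) with h | h
  · rw [E_comm] at h; exact between hε hp h
  · exact between hε' hq h

/-- Distinct points over the same vertex are far apart. -/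
lemma girth_d {φ : G.Chart} {x y : FreeGroup S} {v : G.W} (hx : φ.1 x = some v)
    (hy : φ.1 y = some v) (hne : x ≠ y) : G.L (lv φ) ≤ d x y := by
  classical
  induction hn : d x y using Nat.strong_induction_on generalizing x y v with
  | _ n ih =>
    by_cases hinj : ∀ ε ∈ E x y, ∀ ε' ∈ E x y, ∀ e, Over φ ε e → Over φ ε' e → ε = ε'
    · obtain ⟨ε, hε, -⟩ := step hne
      obtain ⟨e, he⟩ := convex ⟨v, hx⟩ ⟨v, hy⟩ ε hε
      have h1 : O φ x y ≠ 0 := by
        intro h0
        have h2 := O_apply φ x y e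
        have h3 : (E x y).filter (fun ε => Over φ ε e) = {ε} := by
          ext ε'
          simp only [mem_filter, mem_singleton]
          exact ⟨fun h => hinj _ h.1 _ hε e h.2 he, fun h => h ▸ ⟨hε, he⟩⟩
        rw [h0, h3] at h2
        simp at h2
      have h2 := G.girth (lv φ) _ h1 (fun e he => by
        obtain ⟨ε, -, h⟩ := mem_O he
        exact h.lev) (by rw [bd_O hx hy, add_self_fs])
      refine h2.trans ?_
      rw [← hn, d]
      refine card_le_card_of_surjOn (fun ε => (cl φ ε).getD e) ?_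
      intro e' he'
      obtain ⟨ε', h3, h4⟩ := mem_O he'
      exact ⟨ε', h3, by simp [cl_eq_some.2 h4]⟩
    · push Not at hinj
      obtain ⟨ε, hε, ε', hε', e, he, he', hne'⟩ := hinj
      have h2 : ε.2 = ε'.2 := he.2.symm.trans he'.2
      have h1 : ε.1 ≠ ε'.1 := fun h => hne' (Prod.ext h h2)
      have h3 : tE ε ≠ tE ε' := by
        intro h
        rw [tE, tE, h2] at h
        exact h1 (mul_right_cancel h)
      have s1 := E_sub_of_ends hε hε' (Or.inl rfl) (Or.inl rfl)
      have s2 := E_sub_of_ends hε hε' (Or.inr rfl) (Or.inr rfl)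
      have a1 := not_side_o ε
      have a2 := side_t ε
      have a3 := side_ends hne'
      by_cases hc : ε ∈ E ε.1 ε'.1
      · have : ε ∉ E (tE ε) (tE ε') := by
          rw [mem_E] at hc ⊢; tauto
        have hlt : d (tE ε) (tE ε') < n := by
          rw [← hn]; exact card_lt_card ⟨s2, fun h => this (h hε)⟩
        exact (ih _ hlt he.val_t he'.val_t h3 rfl).trans hlt.le
      · have hlt : d ε.1 ε'.1 < n := by
          rw [← hn]; exact card_lt_card ⟨s1, fun h => hc (h hε)⟩
        exact (ih _ hlt he.1 he'.1 h1 rfl).trans hlt.le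

open Classical in
/-- The number of edges of the subtree on the geodesic. -/
noncomputable def rho (φ : G.Chart) (x y : FreeGroup S) : ℕ := #((E x y).filter (Ed φ))

lemma rho_le (φ : G.Chart) (x y : FreeGroup S) : rho φ x y ≤ d x y := by
  classical
  exact card_filter_le _ _

@[simp] lemma rho_self (φ : G.Chart) (x : FreeGroup S) : rho φ x x = 0 := by simp [rho]

lemma rho_comm (φ : G.Chart) (x y : FreeGroup S) : rho φ x y = rho φ y x := by
  rw [rho, rho, E_comm]

lemma rho_mono (φ : G.Chart) {x y x' y' : FreeGroup S} (h : E x y ⊆ E x' y') :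
    rho φ x y ≤ rho φ x' y' := by
  classical
  exact card_le_card (filter_subset_filter _ h)

lemma rho_tri (φ : G.Chart) (x y z : FreeGroup S) : rho φ x z ≤ rho φ x y + rho φ y z := by
  classical
  refine le_trans (card_le_card ?_) (card_union_le _ _)
  rw [← filter_union]
  exact filter_subset_filter _ (E_tri x y z)

lemma rho_smul (g : FreeGroup S) (φ : G.Chart) (x y : FreeGroup S) :
    rho (g • φ) (g * x) (g * y) = rho φ x y := by
  classical
  rw [rho, rho, E_mul, filter_map, card_map]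
  congr 1
  refine filter_congr fun ε _ => ?_
  exact ed_smul g φ ε

lemma rho_fix {φ : G.Chart} {p : FreeGroup S} (hp : p • φ = φ) (x y : FreeGroup S) :
    rho φ (p * x) (p * y) = rho φ x y := by
  conv_lhs => rw [← hp]
  exact rho_smul p φ x y

lemma rho_vx {φ : G.Chart} {x y : FreeGroup S} (hx : Vx φ x) (hy : Vx φ y) :
    rho φ x y = d x y := by
  classical
  rw [rho, d, filter_true_of_mem (convex hx hy)]

lemma gate (φ : G.Chart) (p : FreeGroup S) : ∃ x, Vx φ x ∧ rho φ p x = 0 := by
  classical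
  have hex : ∃ n, ∃ x, Vx φ x ∧ d p x = n := by
    obtain ⟨x, v, h⟩ := exists_pt φ
    exact ⟨_, x, ⟨v, h⟩, rfl⟩
  obtain ⟨x, hx, hn⟩ := Nat.find_spec hex
  refine ⟨x, hx, ?_⟩
  rw [rho, card_eq_zero, filter_eq_empty_iff]
  intro ε hε hEd
  obtain ⟨y, hy, hy'⟩ := exists_near ε p
  have h1 : Vx φ y := by
    rcases hy with rfl | rfl
    · exact hEd.vx_o
    · exact hEd.vx_t
  have h2 : d p y < d p x := card_lt_card ⟨between hε hy, fun h => hy' (h hε)⟩
  have := Nat.find_min' hex ⟨y, h1, rfl⟩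
  omega

omit [DecidableEq S] in
lemma vx_stab {φ : G.Chart} {p x : FreeGroup S} (hp : p • φ = φ) (hx : Vx φ x) : Vx φ (p * x) := by
  obtain ⟨v, h⟩ := hx
  exact ⟨v, by rw [val_stab hp, h]⟩

lemma disp {φ : G.Chart} {p : FreeGroup S} (hp : p • φ = φ) (h1 : p ≠ 1) (x : FreeGroup S) :
    G.L (lv φ) ≤ rho φ x (p * x) := by
  obtain ⟨y, ⟨v, hy⟩, h0⟩ := gate φ x
  have h2 : G.L (lv φ) ≤ d y (p * y) :=
    girth_d hy (by rw [val_stab hp, hy]) (by simpa using h1)
  rw [← rho_vx ⟨v, hy⟩ (vx_stab hp ⟨v, hy⟩)] at h2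
  have h3 := rho_tri φ y x (p * y)
  have h4 := rho_tri φ x (p * x) (p * y)
  rw [rho_fix hp, h0] at h4
  rw [rho_comm φ y x, h0] at h3
  omega

lemma O_of_rho {φ : G.Chart} {x y : FreeGroup S} (h : rho φ x y = 0) : O φ x y = 0 := by
  classical
  rw [← Finsupp.support_eq_empty, eq_empty_iff_forall_notMem]
  intro e he
  obtain ⟨ε, h1, h2⟩ := mem_O he
  rw [rho, card_eq_zero, filter_eq_empty_iff] at h
  exact h h1 ⟨e, h2⟩

/-- The elements of the stabiliser with trivial mod two chain. -/
def H (φ : G.Chart) : Subgroup (FreeGroup S) where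
  carrier := {p | p • φ = φ ∧ O φ 1 p = 0}
  one_mem' := ⟨one_smul _ _, P_self _ _ _⟩
  mul_mem' := by
    rintro p q ⟨h1, h2⟩ ⟨h3, h4⟩
    refine ⟨by rw [mul_smul, h3, h1], ?_⟩
    rw [O] at h2 h4 ⊢
    rw [P_mul _ h1, h2, h4, add_zero]
  inv_mem' := by
    rintro p ⟨h1, h2⟩
    refine ⟨by rw [inv_smul_eq_iff, h1], ?_⟩
    rw [O] at h2 ⊢
    rw [P_inv _ h1, h2, neg_zero]

lemma mem_H {φ : G.Chart} {p : FreeGroup S} : p ∈ H φ ↔ p • φ = φ ∧ O φ 1 p = 0 := Iff.rfl

lemma H_conj {φ : G.Chart} {p : FreeGroup S} (hp : p ∈ H φ) (g : FreeGroup S) :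
    g * p * g⁻¹ ∈ H (g • φ) := by
  refine ⟨by rw [mul_smul, inv_smul_smul, mul_smul, hp.1], ?_⟩
  rw [O, P_conj _ hp.1]
  exact hp.2

lemma trail {φ : G.Chart} (v : G.W) : ∀ (k : ℕ) (c : G.Λ →₀ ZMod 2), #c.support = k →
    ∀ x u, φ.1 x = some u → bdry G.o G.t c = Finsupp.single u 1 + Finsupp.single v 1 →
    ∃ y, φ.1 y = some v ∧ (O φ x y).support ⊆ c.support ∧ d x y ≤ #(O φ x y).support := by
  classical
  intro k
  induction k using Nat.strong_induction_on with
  | _ k ih =>
    intro c hk x u hx hb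
    by_cases huv : u = v
    · exact ⟨x, huv ▸ hx, by simp [O], by simp⟩
    obtain ⟨e, he, hou⟩ := bdry_ne_zero G.o G.t c u (by
      rw [hb]; simp [Ne.symm huv])
    obtain ⟨x', u', hx', h1, h2, h3⟩ : ∃ x' u', φ.1 x' = some u' ∧ d x x' = 1 ∧
        O φ x x' = Finsupp.single e 1 ∧ bdry G.o G.t (Finsupp.single e 1) =
          Finsupp.single u 1 + Finsupp.single u' 1 := by
      rcases hou with h | h
      · have hov : Over φ (x, G.lab e) e := ⟨by rw [h]; exact hx, rfl⟩
        exact ⟨_, _, hov.val_t, d_edge (x, G.lab e), O_edge hov, by rw [bdry_single, h]⟩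
      · have hov := over_of_t (φ := φ) (x := x) (e := e) (by rw [h]; exact hx)
        have e1 : tE (x * (of (G.lab e))⁻¹, G.lab e) = x := by simp [tE]
        refine ⟨_, _, hov.1, ?_, ?_, by rw [bdry_single, h, add_comm]⟩
        · have := d_edge (x * (of (G.lab e))⁻¹, G.lab e)
          rwa [e1, d_comm] at this
        · have := O_edge hov
          rwa [e1, O_comm] at this
    have hs : (c + Finsupp.single e 1).support = c.support.erase e := by
      rw [support_add_single, if_pos he]
    obtain ⟨y, hy, a1, a2⟩ := ih _ (by rw [← hk]; exact card_erase_lt_of_mem he)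
      (c + Finsupp.single e 1) (by rw [hs]) x' u' hx' (by
        rw [map_add, hb, h3]
        have := add_self_fs (Finsupp.single u (1 : ZMod 2))
        calc _ = (Finsupp.single u 1 + Finsupp.single u 1) +
            (Finsupp.single u' 1 + Finsupp.single v (1 : ZMod 2)) := by abel
          _ = _ := by rw [this, zero_add])
    rw [hs] at a1
    have he' : e ∉ (O φ x' y).support := fun h => by simpa using a1 h
    have hO : (O φ x y).support = insert e (O φ x' y).support := by
      rw [← O_add φ x x' y, h2, add_comm, support_add_single, if_neg he']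
    refine ⟨y, hy, ?_, ?_⟩
    · rw [hO]
      exact insert_subset he (a1.trans (erase_subset _ _))
    · rw [hO, card_insert_of_notMem he']
      have := d_tri x x' y
      omega

/-- Comparison of the wall metric and the path metric. -/
lemma ags {φ : G.Chart} (s t : FreeGroup S) (h : #(O φ s t).support < G.L (lv φ)) :
    ∃ p ∈ H φ, rho φ s (p * t) ≤ #(O φ s t).support := by
  classical
  obtain ⟨x, ⟨u, hx⟩, h1⟩ := gate φ s
  obtain ⟨y, ⟨v, hy⟩, h2⟩ := gate φ t
  have e1 : O φ s t = O φ x y := by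
    rw [← O_add φ s x t, ← O_add φ x y t, O_of_rho h1, O_comm φ t y, O_of_rho h2]; simp
  rw [e1] at h ⊢
  obtain ⟨y', hy', a1, a2⟩ := trail (φ := φ) v _ (O φ x y) rfl x u hx (bd_O hx hy)
  have hp := stab_of_eq hy hy'
  have e2 : O φ y y' = O φ x y + O φ x y' := by rw [← O_add φ y x y', O_comm φ x y]
  have a3 : (O φ y y').support ⊆ (O φ x y).support := by
    rw [e2]
    exact Finsupp.support_add.trans (union_subset subset_rfl a1)
  have a4 : O φ y y' = 0 := by
    by_contra h0
    have := G.girth (lv φ) _ h0 (fun e he => by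
        obtain ⟨ε, -, h⟩ := mem_O he
        exact h.lev) (by rw [bd_O hy hy', add_self_fs])
    have := card_le_card a3
    omega
  refine ⟨y' * y⁻¹, ⟨hp, ?_⟩, ?_⟩
  · rw [O, ← P_stab _ hp y]
    simpa [O] using a4
  · have b1 := rho_tri φ s x (y' * y⁻¹ * t)
    have b2 := rho_tri φ x y' (y' * y⁻¹ * t)
    have b3 := rho_fix hp y t
    rw [inv_mul_cancel_right, rho_comm φ y t, h2] at b3
    have b4 := rho_le φ x y'
    have := card_le_card a1
    omega

lemma diam (n : ℕ) : ∃ D : ℕ, ∀ φ : G.Chart, lv φ = n → ∀ s t : FreeGroup S,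
    ∃ p ∈ H φ, rho φ s (p * t) ≤ D := by
  classical
  let Q : G.W × G.W × Finset G.Λ → FreeGroup S → Prop := fun z y =>
    (G.ch 1 z.1).1 y = some z.2.1 ∧ (O (G.ch 1 z.1) 1 y).support = z.2.2
  let rep : G.W × G.W × Finset G.Λ → FreeGroup S := fun z => if h : ∃ y, Q z y then h.choose else 1
  let X : Finset (G.W × G.W × Finset G.Λ) :=
    (G.finW n).toFinset ×ˢ (G.finW n).toFinset ×ˢ (G.finΛ n).toFinset.powerset
  refine ⟨X.sup fun z => d 1 (rep z), ?_⟩
  intro φ hφ s t
  obtain ⟨x, ⟨u, hx⟩, h1⟩ := gate φ s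
  obtain ⟨y, ⟨v, hy⟩, h2⟩ := gate φ t
  have e0 : φ = x • G.ch 1 u := by rw [smul_ch, mul_one]; exact eq_ch hx
  let z : G.W × G.W × Finset G.Λ := (u, v, (O φ x y).support)
  have eO : ∀ w, O φ x (x * w) = O (G.ch 1 u) 1 w := by
    intro w
    conv_lhs => rw [e0]
    have := P_smul (fun e => Finsupp.single e (1 : ZMod 2)) x (G.ch 1 u) 1 w
    rw [mul_one] at this
    exact this
  have eV : ∀ w, φ.1 (x * w) = (G.ch 1 u).1 w := by
    intro w
    conv_lhs => rw [e0]
    exact smul_val' _ _ _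
  have hz : ∃ w, Q z w := ⟨x⁻¹ * y, by rw [← eV]; simpa using hy, by rw [← eO]; simp [z]⟩
  have hzX : z ∈ X := by
    simp only [X, z, mem_product, Set.Finite.mem_toFinset, Set.mem_ofPred_eq, mem_powerset]
    refine ⟨by rw [← lv_eq hx, hφ], by rw [← lv_eq hy, hφ], fun e he => ?_⟩
    obtain ⟨ε, -, h⟩ := mem_O he
    simpa using h.lev.trans hφ
  have hrep : Q z (rep z) := by
    simp only [rep, dif_pos hz]
    exact hz.choose_spec
  have hy' : φ.1 (x * rep z) = some v := by rw [eV]; exact hrep.1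
  have hO : O φ x (x * rep z) = O φ x y := by
    apply fs_eq_of_support
    rw [eO]; exact hrep.2
  have hp := stab_of_eq hy hy'
  refine ⟨x * rep z * y⁻¹, ⟨hp, ?_⟩, ?_⟩
  · rw [O, ← P_stab _ hp y, inv_mul_cancel_right]
    change O φ y (x * rep z) = 0
    rw [← O_add φ y x, hO, O_comm φ x y, add_self_fs]
  · have b1 := rho_tri φ s x (x * rep z * y⁻¹ * t)
    have b2 := rho_tri φ x (x * rep z) (x * rep z * y⁻¹ * t)
    have b3 := rho_fix hp y t
    rw [inv_mul_cancel_right, rho_comm φ y t, h2] at b3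
    have b4 := rho_le φ x (x * rep z)
    have b5 := d_mul x 1 (rep z)
    rw [mul_one] at b5
    have b6 : d 1 (rep z) ≤ X.sup fun z => d 1 (rep z) := le_sup (f := fun z => d 1 (rep z)) hzX
    omega

end LG

end Pool.Agent.H839Z.CE
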