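import Pool.Agent.H839Z.CE.Walk2

/-! Counting pairs of equally coloured walks through a given edge. -/

set_option autoImplicit false

namespace Pool.Agent.H839Z.CE

open Finset

/-- The colours and directions of the steps of a pair of walks. -/
def steps {Λ C : Type} (col : Λ → C) (l : List (Λ × Λ × Bool)) : List (C × Bool) :=
  l.map (fun x => (col x.1, x.2.2))

theorem walk2_det {W Λ C : Type} (o t : Λ → W) (col : Λ → C)
    (ho : ∀ e e', col e = col e' → o e = o e' → e = e')
    (ht : ∀ e e', col e = col e' → t e = t e' → e = e')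
    {u u' : W} {l : List (Λ × Λ × Bool)} (h : Walk2 o t col u u' l) :
    ∀ {v v' : W} {m : List (Λ × Λ × Bool)}, Walk2 o t col v v' m → steps col l = steps col m →
      u = v → u' = v' → l = m := by
  induction h with
  | nil u u' =>
    intro v v' m hm hs _ _
    cases m with
    | nil => rfl
    | cons a m => simp [steps] at hs
  | fwd e e' l hc _ ih =>
    intro v v' m hm hs h1 h2
    cases hm with
    | nil => simp [steps] at hs
    | fwd f f' m hc' hw =>
      simp only [steps, List.map_cons, List.cons.injEq, Prod.mk.injEq, and_true] at hs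
      have e1 : e = f := ho _ _ hs.1 h1
      have e2 : e' = f' := ho _ _ (by rw [← hc, ← hc', hs.1]) h2
      subst e1 e2
      rw [ih hw hs.2 rfl rfl]
    | bwd f f' m hc' hw => simp [steps] at hs
  | bwd e e' l hc _ ih =>
    intro v v' m hm hs h1 h2
    cases hm with
    | nil => simp [steps] at hs
    | fwd f f' m hc' hw => simp [steps] at hs
    | bwd f f' m hc' hw =>
      simp only [steps, List.map_cons, List.cons.injEq, Prod.mk.injEq, and_true] at hs
      have e1 : e = f := ht _ _ hs.1 h1
      have e2 : e' = f' := ht _ _ (by rw [← hc, ← hc', hs.1]) h2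
      subst e1 e2
      rw [ih hw hs.2 rfl rfl]

theorem walk2_back {W Λ C : Type} (o t : Λ → W) (col : Λ → C)
    (ho : ∀ e e', col e = col e' → o e = o e' → e = e')
    (ht : ∀ e e', col e = col e' → t e = t e' → e = e')
    {u u' : W} {l : List (Λ × Λ × Bool)} (h : Walk2 o t col u u' l) :
    ∀ {v v' : W} {m : List (Λ × Λ × Bool)} {p : ℕ} {x y : Λ × Λ × Bool},
      Walk2 o t col v v' m → steps col l = steps col m → l[p]? = some x → m[p]? = some y →
      (x.1 = y.1 → u = v) ∧ (x.2.1 = y.2.1 → u' = v') := by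
  induction h with
  | nil u u' =>
    intro v v' m p x y hm hs hx hy
    simp at hx
  | fwd e e' l hc _ ih =>
    intro v v' m p x y hm hs hx hy
    cases hm with
    | nil => simp [steps] at hs
    | fwd f f' m hc' hw =>
      simp only [steps, List.map_cons, List.cons.injEq, Prod.mk.injEq, and_true] at hs
      cases p with
      | zero =>
        simp only [List.getElem?_cons_zero, Option.some.injEq] at hx hy
        subst hx hy
        exact ⟨fun h => congrArg o h, fun h => congrArg o h⟩
      | succ p =>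
        simp only [List.getElem?_cons_succ] at hx hy
        obtain ⟨h1, h2⟩ := ih hw hs.2 hx hy
        exact ⟨fun h => congrArg o (ht _ _ hs.1 (h1 h)),
          fun h => congrArg o (ht _ _ (by rw [← hc, ← hc', hs.1]) (h2 h))⟩
    | bwd f f' m hc' hw => simp [steps] at hs
  | bwd e e' l hc _ ih =>
    intro v v' m p x y hm hs hx hy
    cases hm with
    | nil => simp [steps] at hs
    | fwd f f' m hc' hw => simp [steps] at hs
    | bwd f f' m hc' hw =>
      simp only [steps, List.map_cons, List.cons.injEq, Prod.mk.injEq, and_true] at hs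
      cases p with
      | zero =>
        simp only [List.getElem?_cons_zero, Option.some.injEq] at hx hy
        subst hx hy
        exact ⟨fun h => congrArg t h, fun h => congrArg t h⟩
      | succ p =>
        simp only [List.getElem?_cons_succ] at hx hy
        obtain ⟨h1, h2⟩ := ih hw hs.2 hx hy
        exact ⟨fun h => congrArg t (ho _ _ hs.1 (h1 h)),
          fun h => congrArg t (ho _ _ (by rw [← hc, ← hc', hs.1]) (h2 h))⟩

theorem exists_words (C : Type) [Fintype C] (n : ℕ) :
    ∃ S : Finset (List (C × Bool)), #S ≤ (2 * Fintype.card C) ^ n ∧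
      ∀ w : List (C × Bool), w.length = n → w ∈ S := by
  classical
  refine ⟨(univ : Finset (List.Vector (C × Bool) n)).image (fun v => v.toList), ?_, ?_⟩
  · refine card_image_le.trans ?_
    rw [card_univ, card_vector, Fintype.card_prod, Fintype.card_bool, mul_comm]
  · intro w hw
    exact mem_image.2 ⟨⟨w, hw⟩, mem_univ _, rfl⟩

theorem count_fst {W Λ C : Type} [Fintype C] (o t : Λ → W) (col : Λ → C)
    (ho : ∀ e e', col e = col e' → o e = o e' → e = e')
    (ht : ∀ e e', col e = col e' → t e = t e' → e = e') (U' : Finset W) (n : ℕ) (e : Λ)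
    (ev : Finset (W × W × List (Λ × Λ × Bool)))
    (hev : ∀ b ∈ ev, b.2.1 ∈ U' ∧ Walk2 o t col b.1 b.2.1 b.2.2 ∧ b.2.2.length = n ∧
      ∃ x ∈ b.2.2, x.1 = e) :
    ev.card ≤ n * (2 * Fintype.card C) ^ n * #U' := by
  classical
  obtain ⟨S, hS, hS'⟩ := exists_words C n
  have key : ∀ b : W × W × List (Λ × Λ × Bool), ∃ p : ℕ, b ∈ ev →
      p < n ∧ ∃ x, b.2.2[p]? = some x ∧ x.1 = e := by
    intro b
    by_cases hb : b ∈ ev
    · obtain ⟨_, _, hl, x, hx, hxe⟩ := hev b hb
      obtain ⟨p, hp, rfl⟩ := List.getElem_of_mem hx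
      exact ⟨p, fun _ => ⟨hl ▸ hp, _, List.getElem?_eq_getElem hp, hxe⟩⟩
    · exact ⟨0, fun h => absurd h hb⟩
  choose P hP using key
  have hle : ev.card ≤ #((range n ×ˢ S) ×ˢ U') := by
    refine card_le_card_of_injOn (fun b => ((P b, steps col b.2.2), b.2.1)) ?_ ?_
    · intro b hb
      have hb' : b ∈ ev := hb
      obtain ⟨h1, _, h3, _⟩ := hev b hb'
      simp only [coe_product, Set.mem_prod, mem_coe, mem_range]
      exact ⟨⟨(hP b hb').1, hS' _ (by simp [steps, h3])⟩, h1⟩
    · rintro ⟨u, u', l⟩ hb ⟨v, v', m⟩ hc hbc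
      have hb' : (u, u', l) ∈ ev := hb
      have hc' : (v, v', m) ∈ ev := hc
      simp only [Prod.mk.injEq] at hbc
      obtain ⟨⟨hp, hs⟩, hu'⟩ := hbc
      obtain ⟨_, x, hx, hxe⟩ := hP _ hb'
      obtain ⟨_, y, hy, hye⟩ := hP _ hc'
      have w1 := (hev _ hb').2.1
      have w2 := (hev _ hc').2.1
      rw [hp] at hx
      have hu : u = v := (walk2_back o t col ho ht w1 w2 hs hx hy).1 (hxe.trans hye.symm)
      have hl : l = m := walk2_det o t col ho ht w1 w2 hs hu hu'
      rw [hu, hu', hl]
  refine hle.trans ?_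
  rw [card_product, card_product, card_range]
  gcongr

theorem count_snd {W Λ C : Type} [Fintype C] (o t : Λ → W) (col : Λ → C)
    (ho : ∀ e e', col e = col e' → o e = o e' → e = e')
    (ht : ∀ e e', col e = col e' → t e = t e' → e = e') (U : Finset W) (n : ℕ) (e : Λ)
    (ev : Finset (W × W × List (Λ × Λ × Bool)))
    (hev : ∀ b ∈ ev, b.1 ∈ U ∧ Walk2 o t col b.1 b.2.1 b.2.2 ∧ b.2.2.length = n ∧
      ∃ x ∈ b.2.2, x.2.1 = e) :
    ev.card ≤ n * (2 * Fintype.card C) ^ n * #U := by
  classical
  obtain ⟨S, hS, hS'⟩ := exists_words C n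
  have key : ∀ b : W × W × List (Λ × Λ × Bool), ∃ p : ℕ, b ∈ ev →
      p < n ∧ ∃ x, b.2.2[p]? = some x ∧ x.2.1 = e := by
    intro b
    by_cases hb : b ∈ ev
    · obtain ⟨_, _, hl, x, hx, hxe⟩ := hev b hb
      obtain ⟨p, hp, rfl⟩ := List.getElem_of_mem hx
      exact ⟨p, fun _ => ⟨hl ▸ hp, _, List.getElem?_eq_getElem hp, hxe⟩⟩
    · exact ⟨0, fun h => absurd h hb⟩
  choose P hP using key
  have hle : ev.card ≤ #((range n ×ˢ S) ×ˢ U) := by
    refine card_le_card_of_injOn (fun b => ((P b, steps col b.2.2), b.1)) ?_ ?_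
    · intro b hb
      have hb' : b ∈ ev := hb
      obtain ⟨h1, _, h3, _⟩ := hev b hb'
      simp only [coe_product, Set.mem_prod, mem_coe, mem_range]
      exact ⟨⟨(hP b hb').1, hS' _ (by simp [steps, h3])⟩, h1⟩
    · rintro ⟨u, u', l⟩ hb ⟨v, v', m⟩ hc hbc
      have hb' : (u, u', l) ∈ ev := hb
      have hc' : (v, v', m) ∈ ev := hc
      simp only [Prod.mk.injEq] at hbc
      obtain ⟨⟨hp, hs⟩, hu⟩ := hbc
      obtain ⟨_, x, hx, hxe⟩ := hP _ hb'
      obtain ⟨_, y, hy, hye⟩ := hP _ hc'
      have w1 := (hev _ hb').2.1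
      have w2 := (hev _ hc').2.1
      rw [hp] at hx
      have hu' : u' = v' := (walk2_back o t col ho ht w1 w2 hs hx hy).2 (hxe.trans hye.symm)
      have hl : l = m := walk2_det o t col ho ht w1 w2 hs hu hu'
      rw [hu, hu', hl]
  refine hle.trans ?_
  rw [card_product, card_product, card_range]
  gcongr

theorem finite_walk2 {W Λ C : Type} [Fintype C] (o t : Λ → W) (col : Λ → C)
    (ho : ∀ e e', col e = col e' → o e = o e' → e = e')
    (ht : ∀ e e', col e = col e' → t e = t e' → e = e') (u u' : W) (n : ℕ) :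
    {l | Walk2 o t col u u' l ∧ l.length = n}.Finite := by
  obtain ⟨S, _, hS'⟩ := exists_words C n
  refine Set.Finite.of_finite_image (f := steps col) (S.finite_toSet.subset ?_) ?_
  · rintro _ ⟨l, hl, rfl⟩
    exact hS' _ (by simp [steps, hl.2])
  · intro l hl m hm hs
    exact walk2_det o t col ho ht hl.1 hm.1 hs rfl rfl

end Pool.Agent.H839Z.CE
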