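import Pool.Agent.H839Z.CE.Proper

/-! The quotient group embeds coarsely in Hilbert space. -/

set_option autoImplicit false

namespace Pool.Agent.H839Z.CE

open Finset FreeGroup

/-- The indicator vector of the support. -/
noncomputable def ind (c : ℕ →₀ ZMod 2) : lp (fun _ : ℕ => ℝ) 2 :=
  ∑ i ∈ c.support, lp.single 2 i (1 : ℝ)

lemma ind_apply (c : ℕ →₀ ZMod 2) (i : ℕ) : ind c i = if i ∈ c.support then 1 else 0 := by
  simp only [ind, lp.coeFn_sum, Finset.sum_apply, lp.single_apply, Pi.single_apply, sum_ite_eq]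

lemma ind_norm (c c' : ℕ →₀ ZMod 2) : ‖ind c - ind c'‖ ^ 2 = #(c + c').support := by
  have h2 : (1 : ZMod 2) + 1 = 0 := by decide
  have h : ind c - ind c' = ∑ i ∈ (c + c').support, lp.single 2 i (ind c i - ind c' i) := by
    ext i
    simp only [lp.coeFn_sum, Finset.sum_apply, lp.single_apply, lp.coeFn_sub, Pi.sub_apply,
      Pi.single_apply, sum_ite_eq]
    split_ifs with hi
    · rfl
    · rw [ind_apply, ind_apply]
      rcases zmod2_cases (c i) with h | h <;> rcases zmod2_cases (c' i) with h' | h' <;>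
        simp_all
  have h1 := lp.norm_sum_single (E := fun _ : ℕ => ℝ) (p := 2) (by norm_num)
    (fun i => ind c i - ind c' i) (c + c').support
  rw [← h] at h1
  simp only [ENNReal.toReal_ofNat, Real.rpow_ofNat] at h1
  rw [h1, card_eq_sum_ones]
  push_cast
  refine sum_congr rfl fun i hi => ?_
  rw [ind_apply, ind_apply]
  rcases zmod2_cases (c i) with h | h <;> rcases zmod2_cases (c' i) with h' | h' <;>
    simp_all

namespace LG

variable {S : Type} [DecidableEq S] {G : LG S}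

lemma C_quot {x y : FreeGroup S} (h : (x : FreeGroup S ⧸ N G) = y) : C G 1 x = C G 1 y := by
  have h1 : y * x⁻¹ ∈ N G := by
    have := N_normal.conj_mem _ (QuotientGroup.eq.1 h) x
    simpa [mul_assoc] using this
  have h2 := C_N h1 1 x
  rw [mul_one, inv_mul_cancel_right] at h2
  rw [← C_add 1 (y * x⁻¹) y, C_one_N h1, zero_add, h2]

theorem embed [Finite S] (hSC : G.SC) (hL : ∀ n, 40 ≤ G.L n)
    (hfin : ∀ R, {n | G.L n ≤ R}.Finite) :
    ∃ f : FreeGroup S ⧸ N G → lp (fun _ : ℕ => ℝ) 2,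
      (∀ g, ∃ C : ℝ, ∀ x, ‖f (x * g) - f x‖ ≤ C) ∧
      (∀ R : ℝ, {g | ∃ x, ‖f (x * g) - f x‖ ≤ R}.Finite) := by
  classical
  have : Countable (Wall G) := inferInstanceAs (Countable (Quotient (wallSetoid G)))
  obtain ⟨enc, henc⟩ := exists_injective_nat (Wall G)
  let f : FreeGroup S ⧸ N G → lp (fun _ : ℕ => ℝ) 2 := fun q =>
    ind (Finsupp.mapDomain enc (C G 1 q.out))
  have hf : ∀ x : FreeGroup S, f x = ind (Finsupp.mapDomain enc (C G 1 x)) := by
    intro x
    simp only [f]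
    rw [C_quot (QuotientGroup.out_eq' (x : FreeGroup S ⧸ N G))]
  have key : ∀ (x : FreeGroup S ⧸ N G) (g : FreeGroup S),
      ‖f (x * g) - f x‖ ^ 2 = #(C G 1 g).support := by
    intro x g
    obtain ⟨x, rfl⟩ := QuotientGroup.mk_surjective x
    rw [← QuotientGroup.mk_mul, hf, hf, ind_norm, ← Finsupp.mapDomain_add,
      Finsupp.mapDomain_support_of_injective henc, card_image_of_injective _ henc, add_comm,
      ← C_comm 1 x, C_add, ← card_C_mul x 1 g, mul_one]
  refine ⟨f, fun g => ?_, fun R => ?_⟩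
  · obtain ⟨g, rfl⟩ := QuotientGroup.mk_surjective g
    refine ⟨√(#(C G 1 g).support), fun x => ?_⟩
    rw [← key x g, Real.sqrt_sq (norm_nonneg _)]
  · obtain ⟨M, hM⟩ := proper hSC hL hfin ⌈R ^ 2⌉₊
    refine ((finite_ball (S := S) M).image QuotientGroup.mk).subset ?_
    rintro q ⟨x, hx⟩
    have hex : ∃ k, ∃ t : FreeGroup S, (t : FreeGroup S ⧸ N G) = q ∧ d 1 t = k := by
      obtain ⟨t, ht⟩ := QuotientGroup.mk_surjective q
      exact ⟨_, t, ht, rfl⟩
    obtain ⟨t, ht, hk⟩ := Nat.find_spec hex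
    refine ⟨t, hM 1 t (fun n hn => ?_) ?_, ht⟩
    · rw [hk]
      refine Nat.find_min' hex ⟨n * t, ?_, rfl⟩
      rw [QuotientGroup.mk_mul, (QuotientGroup.eq_one_iff n).2 hn, one_mul, ht]
    · have h1 := key x t
      rw [ht] at h1
      have h2 : ‖f (x * q) - f x‖ ^ 2 ≤ R ^ 2 := pow_le_pow_left₀ (norm_nonneg _) hx 2
      have h3 := Nat.le_ceil (R ^ 2)
      have h4 : (#(C G 1 t).support : ℝ) ≤ (⌈R ^ 2⌉₊ : ℕ) := by linarith
      exact_mod_cast h4

end LG

end Pool.Agent.H839Z.CE
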