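import Mathlib

/-! Finite graphs of large girth with linear size expansion. -/

set_option autoImplicit false

namespace Pool.Agent.H839Z.CE

open Finset

/-- The properties of the base graphs: `a e`, `b e` are the two ends of the edge `e`, and `t`
splits the edges in two classes. -/
structure Good {V E : Type} [Fintype V] [Fintype E] (a b : E → V) (t : E → Bool) (g : ℕ) :
    Prop where
  pos : 0 < Fintype.card V
  edges : Fintype.card E ≤ 60 * Fintype.card V
  deg : ∀ (v : V) (S : Finset E), (∀ e ∈ S, a e = v ∨ b e = v) → #S ≤ 200000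
  girth : ∀ (F : Finset E) (U : Finset V), F.Nonempty → #F ≤ g → (∀ e ∈ F, a e ∈ U ∧ b e ∈ U) →
    #F < #U
  expand : ∀ (W : Finset V) (S : Finset E), Fintype.card V ≤ 10 * #W →
    10 * #W ≤ 9 * Fintype.card V → (∀ e, t e = false → ¬(a e ∈ W ↔ b e ∈ W) → e ∈ S) →
    Fintype.card V ≤ #S
  inside : ∀ (W : Finset V) (S : Finset E), 9 * Fintype.card V ≤ 10 * #W →
    (∀ e, t e = true → a e ∈ W → b e ∈ W → e ∈ S) → Fintype.card V ≤ #S
  size : Fintype.card V ≤ 100000 ^ g

end Pool.Agent.H839Z.CE
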