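import Pool.Agent.H839Z.CE.Tree

/-! Folded labelled graphs and the subtrees of the Cayley tree which cover their components. -/

set_option autoImplicit false

namespace Pool.Agent.H839Z.CE

open Finset FreeGroup

/-- Boundary of a mod two chain. -/
noncomputable def bdry {Λ W : Type} (o t : Λ → W) : (Λ →₀ ZMod 2) →+ (W →₀ ZMod 2) :=
  Finsupp.mapDomain.addMonoidHom o + Finsupp.mapDomain.addMonoidHom t

/-- A folded labelled graph which is a disjoint union of finite levels of large girth. -/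
structure LG (S : Type) where
  W : Type
  Λ : Type
  o : Λ → W
  t : Λ → W
  lab : Λ → S
  tb : Λ → Bool
  π : S → Equiv.Perm W
  hπ : ∀ e, π (lab e) (o e) = t e
  fold : ∀ e e', lab e = lab e' → o e = o e' → e = e'
  lev : W → ℕ
  lev_t : ∀ e, lev (t e) = lev (o e)
  L : ℕ → ℕ
  finW : ∀ n, {v | lev v = n}.Finite
  finΛ : ∀ n, {e | lev (o e) = n}.Finite
  girth : ∀ (n : ℕ) (c : Λ →₀ ZMod 2), c ≠ 0 → (∀ e ∈ c.support, lev (o e) = n) →
    bdry o t c = 0 → L n ≤ #c.support

namespace LG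

variable {S : Type} (G : LG S)

/-- The right action of the free group on the vertices. -/
def act (x : FreeGroup S) (v : G.W) : G.W :=
  (FreeGroup.lift (fun s => (G.π s)⁻¹) x⁻¹ : Equiv.Perm G.W) v

@[simp] lemma act_one (v : G.W) : G.act 1 v = v := by simp [act]

lemma act_mul (x y : FreeGroup S) (v : G.W) : G.act (x * y) v = G.act y (G.act x v) := by
  simp [act]

lemma act_of (s : S) (v : G.W) : G.act (of s) v = G.π s v := by simp [act]

lemma act_inv (x : FreeGroup S) (v : G.W) : G.act x⁻¹ (G.act x v) = v := by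
  rw [← act_mul]; simp

lemma act_o (e : G.Λ) : G.act (of (G.lab e)) (G.o e) = G.t e := by rw [act_of, G.hπ]

lemma act_t (e : G.Λ) : G.act (of (G.lab e))⁻¹ (G.t e) = G.o e := by
  rw [← G.act_o, act_inv]

/-- `x` is the label of a path starting at `u`. -/
inductive Reach (u : G.W) : FreeGroup S → Prop
  | one : Reach u 1
  | fwd (x : FreeGroup S) (e : G.Λ) : Reach u x → G.act x u = G.o e → Reach u (x * of (G.lab e))
  | bwd (x : FreeGroup S) (e : G.Λ) : Reach u x → G.act x u = G.t e → Reach u (x * (of (G.lab e))⁻¹)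

variable {G}

lemma Reach.trans {u : G.W} {x y : FreeGroup S} (hx : G.Reach u x) (hy : G.Reach (G.act x u) y) :
    G.Reach u (x * y) := by
  induction hy with
  | one => simpa using hx
  | fwd y e _ h ih => rw [← mul_assoc]; exact Reach.fwd _ e ih (by rw [act_mul, h])
  | bwd y e _ h ih => rw [← mul_assoc]; exact Reach.bwd _ e ih (by rw [act_mul, h])

lemma Reach.symm {u : G.W} {x : FreeGroup S} (hx : G.Reach u x) : G.Reach (G.act x u) x⁻¹ := by
  induction hx with
  | one => simpa using Reach.one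
  | fwd x e _ h ih =>
    rw [mul_inv_rev, act_mul, h, act_o]
    have h1 : G.Reach (G.t e) (1 * (of (G.lab e))⁻¹) := Reach.bwd 1 e Reach.one (by simp)
    rw [one_mul] at h1
    exact h1.trans (by rw [act_t, ← h]; exact ih)
  | bwd x e _ h ih =>
    rw [mul_inv_rev, inv_inv, act_mul, h, act_t]
    have h1 : G.Reach (G.o e) (1 * of (G.lab e)) := Reach.fwd 1 e Reach.one (by simp)
    rw [one_mul] at h1
    exact h1.trans (by rw [act_o, ← h]; exact ih)

lemma Reach.iff {u : G.W} {x : FreeGroup S} (hx : G.Reach u x) (y : FreeGroup S) :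
    G.Reach u (x * y) ↔ G.Reach (G.act x u) y := by
  refine ⟨fun h => ?_, hx.trans⟩
  have := hx.symm.trans (y := x * y) (by rwa [act_inv])
  simpa using this

lemma Reach.lev {u : G.W} {x : FreeGroup S} (hx : G.Reach u x) : G.lev (G.act x u) = G.lev u := by
  induction hx with
  | one => simp
  | fwd x e _ h ih => rw [act_mul, h, act_o, G.lev_t, ← h, ih]
  | bwd x e _ h ih => rw [act_mul, h, act_t, ← G.lev_t, ← h, ih]

variable (G)

open Classical in
/-- The covering map of the subtree based at `g` over the vertex `u`. -/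
noncomputable def psi (g : FreeGroup S) (u : G.W) : FreeGroup S → Option G.W :=
  fun x => if G.Reach u (g⁻¹ * x) then some (G.act (g⁻¹ * x) u) else none

lemma psi_eq_some {g x : FreeGroup S} {u v : G.W} :
    G.psi g u x = some v ↔ G.Reach u (g⁻¹ * x) ∧ G.act (g⁻¹ * x) u = v := by
  unfold psi
  split_ifs with h <;> simp [h]

/-- The subtrees, with their covering maps. -/
def Chart : Type := {φ : FreeGroup S → Option G.W // ∃ g u, φ = G.psi g u}

/-- The subtree based at `g` over `u`. -/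
noncomputable def ch (g : FreeGroup S) (u : G.W) : G.Chart := ⟨G.psi g u, g, u, rfl⟩

instance : MulAction (FreeGroup S) G.Chart where
  smul g φ := ⟨fun x => φ.1 (g⁻¹ * x), by
    obtain ⟨h, u, hφ⟩ := φ.2
    refine ⟨g * h, u, ?_⟩
    funext x
    rw [hφ]
    have e : (g * h)⁻¹ * x = h⁻¹ * (g⁻¹ * x) := by group
    unfold psi
    rw [e]⟩
  one_smul φ := Subtype.ext (by funext x; change φ.1 (1⁻¹ * x) = φ.1 x; simp)
  mul_smul g h φ := Subtype.ext (by
    funext x
    change φ.1 ((g * h)⁻¹ * x) = φ.1 (h⁻¹ * (g⁻¹ * x))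
    rw [mul_inv_rev, mul_assoc])

variable {G}

lemma smul_val (g : FreeGroup S) (φ : G.Chart) (x : FreeGroup S) :
    (g • φ).1 x = φ.1 (g⁻¹ * x) := rfl

lemma smul_val' (g : FreeGroup S) (φ : G.Chart) (x : FreeGroup S) :
    (g • φ).1 (g * x) = φ.1 x := by rw [smul_val]; simp

lemma smul_ch (g h : FreeGroup S) (u : G.W) : g • G.ch h u = G.ch (g * h) u := by
  apply Subtype.ext
  funext x
  rw [smul_val]
  have e : (g * h)⁻¹ * x = h⁻¹ * (g⁻¹ * x) := by group
  simp only [ch]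
  unfold psi
  rw [e]

lemma ch_self (g : FreeGroup S) (u : G.W) : (G.ch g u).1 g = some u := by
  simp [ch, psi_eq_some, Reach.one]

lemma eq_ch {φ : G.Chart} {x : FreeGroup S} {v : G.W} (h : φ.1 x = some v) : φ = G.ch x v := by
  obtain ⟨g, u, hφ⟩ := φ.2
  apply Subtype.ext
  rw [hφ] at h ⊢
  obtain ⟨h1, h2⟩ := G.psi_eq_some.1 h
  funext y
  have e : g⁻¹ * y = (g⁻¹ * x) * (x⁻¹ * y) := by group
  simp only [ch]
  ext w
  rw [psi_eq_some, psi_eq_some, e, h1.iff, G.act_mul (g⁻¹ * x), h2]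

lemma exists_pt (φ : G.Chart) : ∃ x v, φ.1 x = some v := by
  obtain ⟨g, u, hφ⟩ := φ.2
  exact ⟨g, u, by rw [hφ]; exact ch_self g u⟩

lemma stab_of_eq {φ : G.Chart} {x y : FreeGroup S} {v : G.W} (hx : φ.1 x = some v)
    (hy : φ.1 y = some v) : (y * x⁻¹) • φ = φ := by
  conv_lhs => rw [eq_ch hx]
  rw [smul_ch, eq_ch hy]
  simp

lemma val_stab {φ : G.Chart} {p : FreeGroup S} (hp : p • φ = φ) (x : FreeGroup S) :
    φ.1 (p * x) = φ.1 x := by
  conv_lhs => rw [← hp]
  exact smul_val' p φ x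

/-- The level of a subtree. -/
noncomputable def lv (φ : G.Chart) : ℕ := G.lev (exists_pt φ).choose_spec.choose

lemma lev_eq {φ : G.Chart} {x y : FreeGroup S} {u v : G.W} (hx : φ.1 x = some u)
    (hy : φ.1 y = some v) : G.lev v = G.lev u := by
  rw [eq_ch hx] at hy
  obtain ⟨h1, h2⟩ := G.psi_eq_some.1 hy
  rw [← h2, h1.lev]

lemma lv_eq {φ : G.Chart} {x : FreeGroup S} {v : G.W} (h : φ.1 x = some v) : lv φ = G.lev v :=
  lev_eq h (exists_pt φ).choose_spec.choose_spec

lemma lv_smul (g : FreeGroup S) (φ : G.Chart) : lv (g • φ) = lv φ := by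
  obtain ⟨x, v, h⟩ := exists_pt φ
  rw [lv_eq h, lv_eq ((smul_val' g φ x).trans h)]

/-- The tree edge `ε` lies over the edge `e` of the graph. -/
def Over (φ : G.Chart) (ε : Edg S) (e : G.Λ) : Prop := φ.1 ε.1 = some (G.o e) ∧ G.lab e = ε.2

lemma Over.unique {φ : G.Chart} {ε : Edg S} {e e' : G.Λ} (h : Over φ ε e) (h' : Over φ ε e') :
    e = e' :=
  G.fold e e' (h.2.trans h'.2.symm) (Option.some.inj (h.1.symm.trans h'.1))

lemma Over.val_t {φ : G.Chart} {ε : Edg S} {e : G.Λ} (h : Over φ ε e) :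
    φ.1 (tE ε) = some (G.t e) := by
  rw [eq_ch h.1]
  refine G.psi_eq_some.2 ?_
  have e1 : ε.1⁻¹ * tE ε = 1 * of (G.lab e) := by rw [tE, h.2]; group
  rw [e1]
  exact ⟨Reach.fwd 1 e Reach.one (by simp), by rw [one_mul, act_o]⟩

lemma over_of_t {φ : G.Chart} {x : FreeGroup S} {e : G.Λ} (h : φ.1 x = some (G.t e)) :
    Over φ (x * (of (G.lab e))⁻¹, G.lab e) e := by
  refine ⟨?_, rfl⟩
  rw [eq_ch h]
  refine G.psi_eq_some.2 ?_
  have e1 : x⁻¹ * (x * (of (G.lab e))⁻¹) = 1 * (of (G.lab e))⁻¹ := by group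
  rw [e1]
  exact ⟨Reach.bwd 1 e Reach.one (by simp), by rw [one_mul, act_t]⟩

lemma over_smul (g : FreeGroup S) (φ : G.Chart) (ε : Edg S) (e : G.Λ) :
    Over (g • φ) (tr g ε) e ↔ Over φ ε e := by
  simp only [Over, tr_fst, tr_snd, smul_val']

lemma Over.lev {φ : G.Chart} {ε : Edg S} {e : G.Λ} (h : Over φ ε e) : G.lev (G.o e) = lv φ :=
  (lv_eq h.1).symm

/-- The edges of the subtree. -/
def Ed (φ : G.Chart) (ε : Edg S) : Prop := ∃ e, Over φ ε e

/-- The vertices of the subtree. -/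
def Vx (φ : G.Chart) (x : FreeGroup S) : Prop := ∃ v, φ.1 x = some v

lemma ed_smul (g : FreeGroup S) (φ : G.Chart) (ε : Edg S) : Ed (g • φ) (tr g ε) ↔ Ed φ ε := by
  simp only [Ed, over_smul]

lemma vx_smul (g : FreeGroup S) (φ : G.Chart) (x : FreeGroup S) : Vx (g • φ) (g * x) ↔ Vx φ x := by
  simp only [Vx, smul_val']

lemma Ed.vx_o {φ : G.Chart} {ε : Edg S} (h : Ed φ ε) : Vx φ ε.1 := by
  obtain ⟨e, he⟩ := h; exact ⟨_, he.1⟩

lemma Ed.vx_t {φ : G.Chart} {ε : Edg S} (h : Ed φ ε) : Vx φ (tE ε) := by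
  obtain ⟨e, he⟩ := h; exact ⟨_, he.val_t⟩

/-- Induction along the subtree. -/
lemma chart_ind {φ : G.Chart} {x : FreeGroup S} (hx : Vx φ x) (Q : FreeGroup S → Prop) (h0 : Q x)
    (h1 : ∀ ε e, Over φ ε e → (Q ε.1 ↔ Q (tE ε))) : ∀ y, Vx φ y → Q y := by
  obtain ⟨u, hx⟩ := hx
  have key : ∀ z, G.Reach u z → Q (x * z) := by
    intro z hz
    induction hz with
    | one => simpa using h0
    | fwd z e hz h ih =>
      have : Over φ (x * z, G.lab e) e := by
        refine ⟨?_, rfl⟩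
        rw [eq_ch hx]
        exact G.psi_eq_some.2 (by simpa using ⟨hz, h⟩)
      have h2 := (h1 _ _ this).1 ih
      simpa [tE, mul_assoc] using h2
    | bwd z e hz h ih =>
      have h3 : φ.1 (x * z) = some (G.t e) := by
        rw [eq_ch hx]
        exact G.psi_eq_some.2 (by simpa using ⟨hz, h⟩)
      have h2 := (h1 _ _ (over_of_t h3)).2 (by simpa [tE] using ih)
      simpa [mul_assoc] using h2
  rintro y ⟨v, hy⟩
  rw [eq_ch hx] at hy
  have := key _ (G.psi_eq_some.1 hy).1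
  simpa using this

variable [DecidableEq S]

/-- The small cancellation condition: common subtrees have few edges. -/
def SC (G : LG S) : Prop := ∀ u u' : G.W, u ≠ u' → ∀ D : Finset (Edg S),
  (∀ ε ∈ D, Ed (G.ch 1 u) ε ∧ Ed (G.ch 1 u') ε) → 40 * #D < G.L (G.lev u)

lemma convex {φ : G.Chart} {x y : FreeGroup S} (hx : Vx φ x) (hy : Vx φ y) :
    ∀ ε ∈ E x y, Ed φ ε := by
  refine chart_ind hx (fun y => ∀ ε ∈ E x y, Ed φ ε) (by simp) ?_ y hy
  intro ε e he
  constructor
  · intro h ε' hε'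
    rcases mem_union.1 (E_tri x ε.1 (tE ε) hε') with h2 | h2
    · exact h _ h2
    · rw [E_edge, mem_singleton] at h2
      exact ⟨e, h2 ▸ he⟩
  · intro h ε' hε'
    rcases mem_union.1 (E_tri x (tE ε) ε.1 hε') with h2 | h2
    · exact h _ h2
    · rw [E_comm, E_edge, mem_singleton] at h2
      exact ⟨e, h2 ▸ he⟩

end LG

end Pool.Agent.H839Z.CE
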