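import Pool.Agent.H839Z.CE.Chain
import Pool.Agent.H839Z.CE.Wind

/-! The normal subgroup generated by the mod two homology kernels, its central lift, and
Greendlinger's lemma. -/

set_option autoImplicit false

namespace Pool.Agent.H839Z.CE

open Finset FreeGroup

namespace LG

variable {S : Type} [DecidableEq S] {G : LG S}

lemma piece (hSC : G.SC) (hL : ∀ n, 40 ≤ G.L n) {φ ψ : G.Chart} (hne : φ ≠ ψ) (D : Finset (Edg S))
    (hD : ∀ ε ∈ D, Ed φ ε ∧ Ed ψ ε) : 40 * #D < G.L (lv φ) := by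
  rcases D.eq_empty_or_nonempty with rfl | ⟨ε0, hε0⟩
  · have := hL (lv φ)
    simp only [card_empty]; omega
  obtain ⟨u, hu⟩ := (hD ε0 hε0).1.vx_o
  obtain ⟨u', hu'⟩ := (hD ε0 hε0).2.vx_o
  have huu : u ≠ u' := by
    rintro rfl
    exact hne ((eq_ch hu).trans (eq_ch hu').symm)
  have e1 : G.ch 1 u = ε0.1⁻¹ • φ := by rw [eq_ch hu, smul_ch, inv_mul_cancel]
  have e2 : G.ch 1 u' = ε0.1⁻¹ • ψ := by rw [eq_ch hu', smul_ch, inv_mul_cancel]
  have := hSC u u' huu (D.map ⟨tr ε0.1⁻¹, tr_injective _⟩) (by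
    intro ε hε
    obtain ⟨a, ha, rfl⟩ := mem_map.1 hε
    rw [e1, e2]
    exact ⟨(ed_smul _ _ _).2 (hD a ha).1, (ed_smul _ _ _).2 (hD a ha).2⟩)
  rwa [card_map, ← lv_eq hu] at this

/-- The part of the geodesic in `φ` lies in `ψ`. -/
def Small (φ ψ : G.Chart) (p q : FreeGroup S) : Prop := ∀ ε ∈ E p q, Ed φ ε → Ed ψ ε

lemma Small.lt (hSC : G.SC) (hL : ∀ n, 40 ≤ G.L n) {φ ψ : G.Chart} (hne : φ ≠ ψ)
    {p q : FreeGroup S} (h : Small φ ψ p q) : 40 * rho φ p q < G.L (lv φ) := by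
  classical
  refine piece hSC hL hne _ fun ε hε => ?_
  rw [mem_filter] at hε
  exact ⟨hε.2, h ε hε.1 hε.2⟩

lemma Small.glue {φ ψ : G.Chart} {p q r : FreeGroup S} (h : Small φ ψ p r) (h' : Small φ ψ q r) :
    Small φ ψ p q := by
  intro ε hε
  rcases mem_union.1 (E_tri p r q hε) with h2 | h2
  · exact h ε h2
  · rw [E_comm] at h2; exact h' ε h2

lemma dich0 {φ ψ : G.Chart} {a b : FreeGroup S} (ha : Vx φ a) (hb : Vx ψ b) (p : FreeGroup S) :
    Small φ ψ p b ∨ Small ψ φ p a := by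
  by_contra hcon
  simp only [Small, not_or, not_forall] at hcon
  obtain ⟨⟨ε, h1, h2, h3⟩, ⟨ε', h4, h5, h6⟩⟩ := hcon
  have hne : ε ≠ ε' := by rintro rfl; exact h3 h5
  have k1 : ∀ b', Vx ψ b' → ε ∈ E p b' := by
    intro b' hb'
    rcases mem_union.1 (E_tri p b' b h1) with h | h
    · exact h
    · exact absurd (convex hb' hb ε h) h3
  have k2 : ε' ∈ E p ε.1 := by
    rcases mem_union.1 (E_tri p ε.1 a h4) with h | h
    · exact h
    · exact absurd (convex h2.vx_o ha ε' h) h6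
  have a1 := not_side_o ε'
  have a2 := side_t ε'
  by_cases hs : side ε' ε.1
  · exact nest hne (Or.inl rfl) k2 (q := ε'.1) (by rw [mem_E]; tauto) (k1 _ h5.vx_o)
  · exact nest hne (Or.inl rfl) k2 (q := tE ε') (by rw [mem_E]; tauto) (k1 _ h5.vx_t)

/-- The product of the free group and the integers. -/
abbrev Gam (S : Type) : Type := FreeGroup S × Multiplicative ℤ

/-- Action on the tree through the first factor. -/
@[reducible] def actV (S : Type) : MulAction (Gam S) (FreeGroup S) :=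
  MulAction.compHom _ (MonoidHom.fst (FreeGroup S) (Multiplicative ℤ))

/-- Action on the subtrees through the first factor. -/
@[reducible] def actI (G : LG S) : MulAction (Gam S) G.Chart :=
  MulAction.compHom _ (MonoidHom.fst (FreeGroup S) (Multiplicative ℤ))

/-- The integer valued twisting. -/
noncomputable def T (φ : G.Chart) (x y : FreeGroup S) : ℤ :=
  P (fun e => if G.tb e then (G.lev (G.o e) : ℤ) else 0) φ x y

/-- The graph of the twisting over `H φ`. -/
def Ht (φ : G.Chart) : Subgroup (Gam S) where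
  carrier := {γ | γ.1 ∈ H φ ∧ γ.2 = Multiplicative.ofAdd (T φ 1 γ.1)}
  one_mem' := ⟨(H φ).one_mem, by simp [T]⟩
  mul_mem' := by
    rintro p q ⟨h1, h2⟩ ⟨h3, h4⟩
    refine ⟨(H φ).mul_mem h1 h3, ?_⟩
    rw [Prod.snd_mul, Prod.fst_mul, h2, h4, T, T, T, P_mul _ h1.1, ofAdd_add]
  inv_mem' := by
    rintro p ⟨h1, h2⟩
    refine ⟨(H φ).inv_mem h1, ?_⟩
    rw [Prod.snd_inv, Prod.fst_inv, h2, T, T, P_inv _ h1.1, ofAdd_neg]

lemma Ht_conj {φ : G.Chart} {γ : Gam S} (h : γ ∈ Ht φ) (g : Gam S) :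
    g * γ * g⁻¹ ∈ Ht (g.1 • φ) := by
  refine ⟨H_conj h.1 g.1, ?_⟩
  have e : (g * γ * g⁻¹).2 = γ.2 := by simp
  have e1 : (g * γ * g⁻¹).1 = g.1 * γ.1 * g.1⁻¹ := rfl
  rw [e, e1, h.2, T, T, P_conj _ h.1.1]

lemma Ht_ne {φ : G.Chart} {γ : Gam S} (h : γ ∈ Ht φ) (h1 : γ ≠ 1) : γ.1 ≠ 1 := by
  intro h2
  apply h1
  refine Prod.ext h2 ?_
  rw [h.2, h2]; simp [T]

variable (G) in
/-- The kernel of the central extension. -/
def Nt : Subgroup (Gam S) := ⨆ φ : G.Chart, Ht φ

variable (G) in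
/-- The kernel of the base group. -/
def N : Subgroup (FreeGroup S) := (Nt G).map (MonoidHom.fst _ _)

instance Nt_normal : (Nt G).Normal := by
  constructor
  intro n hn g
  induction hn using Subgroup.iSup_induction' with
  | hp φ x hx => exact Subgroup.mem_iSup_of_mem _ (Ht_conj hx g)
  | h1 => simp
  | hmul x y _ _ h1 h2 =>
    have e : g * (x * y) * g⁻¹ = (g * x * g⁻¹) * (g * y * g⁻¹) := by group
    rw [e]; exact (Nt G).mul_mem h1 h2

instance N_normal : (N G).Normal :=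
  Subgroup.Normal.map Nt_normal _ fun x => ⟨(x, 1), rfl⟩

lemma H_le_N {φ : G.Chart} {p : FreeGroup S} (h : p ∈ H φ) : p ∈ N G :=
  ⟨(p, Multiplicative.ofAdd (T φ 1 p)), Subgroup.mem_iSup_of_mem φ ⟨h, rfl⟩, rfl⟩

/-- The family of projections. -/
noncomputable def fam (hSC : G.SC) (hL : ∀ n, 40 ≤ G.L n) :
    @Fam (Gam S) (FreeGroup S) G.Chart _ (actV S) (actI G) :=
  letI := actV S
  letI := actI G
  { d := fun p q => d p q
    r := fun φ p q => rho φ p q
    L := fun φ => G.L (lv φ)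
    H := Ht
    K := 40
    v0 := 1
    hK := by norm_num
    d_self := by simp
    d_smul := fun g p q => congrArg _ (d_mul g.1 p q)
    d_zero := fun q hq => (eq_of_d (by omega)).symm
    d_step := fun n q hq => by
      by_cases h : q = 1
      · exact ⟨1, by simp, by simp [h]⟩
      · obtain ⟨ε, -, y, -, -, h3, h4⟩ := step' h
        refine ⟨y, ?_, ?_⟩
        · rw [d_comm] at hq ⊢; omega
        · rw [d_comm]; omega
    r_smul := fun g φ p q => congrArg _ (rho_smul g.1 φ p q)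
    r_lip := fun φ p q => by exact_mod_cast rho_le φ p q
    r_self := by simp
    r_comm := fun φ p q => by rw [rho_comm]
    r_tri := fun φ p q s => by exact_mod_cast rho_tri φ p q s
    L_smul := fun g φ => congrArg _ (congrArg _ (lv_smul g.1 φ))
    H_smul := fun g φ h hh => Ht_conj hh g
    hKL := fun φ => by exact_mod_cast hL _
    H_fix := fun φ h hh => hh.1.1
    hdisp := fun φ h hh h1 p => by exact_mod_cast disp hh.1.1 (Ht_ne hh h1) p
    dich := fun φ ψ => by
      by_cases hne : φ = ψ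
      · exact Or.inl hne
      right
      obtain ⟨a, u, ha⟩ := exists_pt φ
      obtain ⟨b, v, hb⟩ := exists_pt ψ
      refine ⟨{p | Small φ ψ p b}, {p | Small ψ φ p a}, dich0 ⟨u, ha⟩ ⟨v, hb⟩, ?_, ?_⟩
      · intro p hp q hq
        exact_mod_cast (Small.glue hp hq).lt hSC hL hne
      · intro p hp q hq
        exact_mod_cast (Small.glue hp hq).lt hSC hL (Ne.symm hne) }

lemma green0 (hSC : G.SC) (hL : ∀ n, 40 ≤ G.L n) {γ : Gam S} (h : γ ∈ Nt G) (h1 : γ ≠ 1) :
    ∃ φ : G.Chart, ∃ k ∈ H φ, k ≠ 1 ∧ 40 * rho φ k γ.1 ≤ 6 * G.L (lv φ) := by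
  obtain ⟨φ, k, hk, hk1, h2⟩ := @Fam.windmill _ _ _ _ (actV S) (actI G) (fam hSC hL) γ h h1
  refine ⟨φ, k.1, hk.1, Ht_ne hk hk1, ?_⟩
  change (40 : ℤ) * (rho φ (k.1 * 1) (γ.1 * 1) : ℕ) ≤ 6 * (G.L (lv φ) : ℕ) at h2
  rw [mul_one, mul_one] at h2
  exact_mod_cast h2

/-- The central subgroup survives. -/
theorem center_inj (hSC : G.SC) (hL : ∀ n, 40 ≤ G.L n) {k : Multiplicative ℤ}
    (h : ((1, k) : Gam S) ∈ Nt G) : k = 1 := by
  by_contra hk
  obtain ⟨φ, p, hp, hp1, h2⟩ := green0 hSC hL h (fun h0 => hk (congrArg Prod.snd h0))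
  have h3 := disp hp.1 hp1 1
  rw [mul_one, rho_comm] at h3
  have := hL (lv φ)
  simp only at h2
  omega

/-- Greendlinger's lemma. -/
theorem green (hSC : G.SC) (hL : ∀ n, 40 ≤ G.L n) {n : FreeGroup S} (h : n ∈ N G) (h1 : n ≠ 1)
    (v : FreeGroup S) :
    ∃ φ : G.Chart, ∃ k ∈ H φ, k ≠ 1 ∧ 40 * rho φ (k * v) (n * v) ≤ 6 * G.L (lv φ) := by
  have h2 : v⁻¹ * n * v⁻¹⁻¹ ∈ N G := N_normal.conj_mem n h v⁻¹
  obtain ⟨γ, hγ, e⟩ := h2
  have e' : γ.1 = v⁻¹ * n * v := by simpa using e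
  have hγ1 : γ ≠ 1 := by
    intro h0
    apply h1
    rw [h0] at e'
    have := congrArg (fun z => v * z * v⁻¹) e'
    simpa [mul_assoc] using this.symm
  obtain ⟨φ, k, hk, hk1, h3⟩ := green0 hSC hL hγ hγ1
  refine ⟨v • φ, v * k * v⁻¹, H_conj hk v, ?_, ?_⟩
  · intro h0
    apply hk1
    have := congrArg (fun z => v⁻¹ * z * v) h0
    simpa [mul_assoc] using this
  · rw [← rho_smul v, e'] at h3
    rw [lv_smul, inv_mul_cancel_right]
    simpa [mul_assoc] using h3

open Classical in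
/-- The number of edges of the geodesic outside the subtree. -/
noncomputable def outs (φ : G.Chart) (x y : FreeGroup S) : ℕ := #((E x y).filter fun ε => ¬ Ed φ ε)

lemma rho_add_outs (φ : G.Chart) (x y : FreeGroup S) : rho φ x y + outs φ x y = d x y := by
  classical
  exact card_filter_add_card_filter_not _

lemma outs_comm (φ : G.Chart) (x y : FreeGroup S) : outs φ x y = outs φ y x := by
  rw [outs, outs, E_comm]

lemma outs_le {φ : G.Chart} {p : FreeGroup S} (hp : p • φ = φ) {s t : FreeGroup S}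
    (h : rho φ s t ≠ 0) : outs φ s (p * t) ≤ outs φ s t := by
  classical
  obtain ⟨ε, hε⟩ := card_ne_zero.1 h
  rw [mem_filter] at hε
  have hx := hε.2.vx_o
  have h1 : outs φ s ε.1 + outs φ ε.1 t ≤ outs φ s t := by
    rw [outs, outs, ← card_union_of_disjoint]
    · refine card_le_card ?_
      rw [← filter_union]
      refine filter_subset_filter _ (union_subset (between hε.1 (Or.inl rfl)) ?_)
      rw [E_comm, E_comm s t]
      exact between (E_comm s t ▸ hε.1) (Or.inl rfl)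
    · rw [disjoint_left]
      intro ε' a1 a2
      rw [mem_filter] at a1 a2
      have hne : ε ≠ ε' := by rintro rfl; exact a1.2 hε.2
      exact nest hne (Or.inl rfl) a1.1 (E_comm ε.1 t ▸ a2.1) hε.1
  have h2 : outs φ (p * ε.1) (p * t) = outs φ ε.1 t := by
    have a1 := rho_add_outs φ (p * ε.1) (p * t)
    have a2 := rho_add_outs φ ε.1 t
    rw [rho_fix hp, d_mul] at a1
    omega
  have h3 : outs φ s (p * t) ≤ outs φ s ε.1 + outs φ (p * ε.1) (p * t) := by
    refine le_trans (card_le_card ?_) (card_union_le _ _)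
    intro ε' a1
    rw [mem_filter] at a1
    rw [mem_union, mem_filter, mem_filter]
    rcases mem_union.1 (E_tri s ε.1 (p * t) a1.1) with a2 | a2
    · exact Or.inl ⟨a2, a1.2⟩
    · rcases mem_union.1 (E_tri ε.1 (p * ε.1) (p * t) a2) with a3 | a3
      · exact absurd (convex hx (vx_stab hp hx) _ a3) a1.2
      · exact Or.inr ⟨a3, a1.2⟩
  omega

lemma shortcut {φ : G.Chart} {p : FreeGroup S} (hp : p • φ = φ) (h1 : p ≠ 1) {u w : FreeGroup S}
    (h : 2 * rho φ (p * u) w < G.L (lv φ)) : d (p * u) w < d u w := by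
  have a1 := disp hp h1 u
  have a2 := rho_tri φ u w (p * u)
  rw [rho_comm φ w (p * u)] at a2
  have a3 := outs_le hp (s := w) (t := u) (by rw [rho_comm]; omega)
  have a4 := rho_add_outs φ (p * u) w
  have a5 := rho_add_outs φ u w
  rw [outs_comm φ w, outs_comm φ w] at a3
  omega

variable (G) in
/-- The tree geodesic from `s` to `t` is a geodesic in the quotient. -/
def Geo (s t : FreeGroup S) : Prop := ∀ n ∈ N G, d s t ≤ d s (n * t)

lemma Geo.rho_le {s t : FreeGroup S} (h : Geo G s t) {φ : G.Chart} {p : FreeGroup S}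
    (hp : p ∈ H φ) : rho φ s t ≤ rho φ s (p * t) := by
  by_cases h0 : rho φ s t = 0
  · omega
  have a1 := outs_le hp.1 h0
  have a2 := h p (H_le_N hp)
  have a4 := rho_add_outs φ s (p * t)
  have a5 := rho_add_outs φ s t
  omega

lemma Geo.sub {s t u w : FreeGroup S} (h : Geo G s t) (hu : E s u ⊆ E s t) (hw : E s w ⊆ E s t)
    {n : FreeGroup S} (hn : n ∈ N G) : d u w ≤ d (n * u) w := by
  rcases ordered hu hw with h1 | h1
  · have a1 := d_add_of_sub h1
    have a2 := d_add_of_sub hw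
    have a3 := h n⁻¹ ((N G).inv_mem hn)
    have a4 := d_mul n s (n⁻¹ * t)
    rw [mul_inv_cancel_left] at a4
    have a5 := d_tri (n * s) (n * u) t
    have a6 := d_tri (n * u) w t
    rw [d_mul] at a5
    omega
  · have a1 := d_add_of_sub h1
    have a2 := d_add_of_sub hu
    have a3 := h n hn
    have a5 := d_tri s w (n * t)
    have a6 := d_tri w (n * u) (n * t)
    rw [d_mul, d_comm w (n * u)] at a6
    rw [d_comm w u] at a1
    omega

end LG

end Pool.Agent.H839Z.CE
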