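import Pool.Agent.H839Z.CE.Good
import Pool.Agent.H616Z.Coarse.Random

/-! Existence of the base graphs, by the probabilistic method with deletion. -/

set_option autoImplicit false

namespace Pool.Agent.H839Z.CE

open Finset
open Classical
open Pool.Agent.H616Z.Coarse (ind ind_pos ind_neg sum_prod_eq sum_all_in T card_T inc card_box
  bad1 bad2 sum_bad1 card_bad2)

variable {N : ℕ}

lemma rand_pow_le (k : ℕ) : (k : ℝ) ^ k / (k.factorial : ℝ) ≤ 3 ^ k := by
  refine (Real.pow_div_factorial_le_exp (k : ℝ) (Nat.cast_nonneg k) k).trans ?_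
  have h : Real.exp (k : ℝ) = Real.exp 1 ^ k := by
    rw [← Real.exp_nat_mul, mul_one]
  rw [h]
  exact pow_le_pow_left₀ (Real.exp_pos 1).le (by have := Real.exp_one_lt_d9; linarith) k

lemma rand_sum_bad2 (hN : 0 < N) (g : ℕ) :
    ∑ ω : Fin (60 * N) → T N, (#(bad2 g ω) : ℝ) ≤
      (∑ k ∈ range (g + 1), (k : ℝ) * 540 ^ k) * (Fintype.card (T N) : ℝ) ^ (60 * N) := by
  have hT : 0 < Fintype.card (T N) := by rw [card_T]; positivity
  have hN' : (0 : ℝ) < N := by exact_mod_cast hN
  have hM : (Fintype.card (T N) : ℝ) = 3 * N ^ 2 := by rw [card_T]; push_cast; ring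
  refine (Finset.sum_le_sum fun ω _ => card_bad2 g ω).trans ?_
  rw [Finset.sum_comm, Finset.sum_mul]
  refine Finset.sum_le_sum fun k _ => ?_
  rw [Finset.sum_comm]
  have hf : (0 : ℝ) < k.factorial := by exact_mod_cast k.factorial_pos
  have h1 : ∀ F ∈ powersetCard k (univ : Finset (Fin (60 * N))),
      ∑ ω : Fin (60 * N) → T N, ∑ U ∈ powersetCard k (univ : Finset (Fin N)),
        k * ind (∀ e' ∈ F, ω e' ∈ H616Z.Coarse.box U) ≤
      ((N : ℝ) ^ k / k.factorial) *
        (k * ((k : ℝ) ^ 2 / N ^ 2) ^ k * (Fintype.card (T N) : ℝ) ^ (60 * N)) := by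
    intro F hF
    rw [Finset.sum_comm]
    have h2 : ∀ U ∈ powersetCard k (univ : Finset (Fin N)),
        ∑ ω : Fin (60 * N) → T N, k * ind (∀ e' ∈ F, ω e' ∈ H616Z.Coarse.box U) =
        k * ((k : ℝ) ^ 2 / N ^ 2) ^ k * (Fintype.card (T N) : ℝ) ^ (60 * N) := by
      intro U hU
      rw [← Finset.mul_sum, sum_all_in hT, Fintype.card_fin, card_box, (mem_powersetCard.1 hF).2,
        (mem_powersetCard.1 hU).2, mul_assoc]
      congr 3
      rw [hM]
      push_cast
      field_simp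
    rw [Finset.sum_congr rfl h2, Finset.sum_const, card_powersetCard, card_univ, Fintype.card_fin,
      nsmul_eq_mul]
    refine mul_le_mul_of_nonneg_right ?_ (by positivity)
    exact_mod_cast Nat.choose_le_pow_div (α := ℝ) k N
  refine (Finset.sum_le_sum h1).trans ?_
  rw [Finset.sum_const, card_powersetCard, card_univ, Fintype.card_fin, nsmul_eq_mul]
  have h3 : (((60 * N).choose k : ℕ) : ℝ) ≤ (60 * N : ℝ) ^ k / k.factorial := by
    have := Nat.choose_le_pow_div (α := ℝ) k (60 * N)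
    push_cast at this
    exact this
  refine (mul_le_mul_of_nonneg_right h3 (by positivity)).trans ?_
  have h4 : (60 * N : ℝ) ^ k / k.factorial * ((N : ℝ) ^ k / k.factorial *
      (k * ((k : ℝ) ^ 2 / N ^ 2) ^ k * (Fintype.card (T N) : ℝ) ^ (60 * N))) =
      k * (60 ^ k * (((k : ℝ) ^ k / k.factorial) * ((k : ℝ) ^ k / k.factorial))) *
        (Fintype.card (T N) : ℝ) ^ (60 * N) := by
    rw [mul_pow, div_pow, ← pow_mul, ← pow_mul, mul_comm 2 k, pow_mul, pow_mul]
    field_simp
  rw [h4]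
  refine mul_le_mul_of_nonneg_right (mul_le_mul_of_nonneg_left ?_ (by positivity)) (by positivity)
  have h5 := rand_pow_le k
  have h6 : (540 : ℝ) ^ k = 60 ^ k * (3 ^ k * 3 ^ k) := by
    rw [← mul_pow, ← mul_pow]; norm_num
  rw [h6]
  refine mul_le_mul_of_nonneg_left ?_ (by positivity)
  exact mul_le_mul h5 h5 (by positivity) (by positivity)

lemma rand_num (g : ℕ) : 8 * ∑ k ∈ range (g + 1), k * 540 ^ k ≤ 100000 ^ g := by
  induction g with
  | zero => simp
  | succ g ih =>
    rw [Finset.sum_range_succ, mul_add]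
    have h1 : g + 1 ≤ 2 ^ g := Nat.lt_two_pow_self
    have h2 : (g + 1) * 540 ^ g ≤ 100000 ^ g := by
      calc (g + 1) * 540 ^ g ≤ 2 ^ g * 540 ^ g := Nat.mul_le_mul_right _ h1
        _ = 1080 ^ g := by rw [← mul_pow]; norm_num
        _ ≤ 100000 ^ g := Nat.pow_le_pow_left (by norm_num) g
    have h3 : 8 * ((g + 1) * 540 ^ (g + 1)) = 4320 * ((g + 1) * 540 ^ g) := by ring
    rw [h3, pow_succ]
    omega

lemma rand_sum_hit (I : Finset (Fin (60 * N))) (hI : #I = 30 * N) (A : Finset (T N))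
    (hA : 18 * (Fintype.card (T N) : ℝ) ≤ 100 * #A) :
    ∑ ω : Fin (60 * N) → T N, ∏ e, (if e ∈ I ∧ ω e ∈ A then (1 / 2 : ℝ) else 1) ≤
      (1 / 2) ^ (4 * N) * (Fintype.card (T N) : ℝ) ^ (60 * N) := by
  rw [sum_prod_eq (fun e θ => if e ∈ I ∧ θ ∈ A then (1 / 2 : ℝ) else 1)]
  have h3 : ∀ e : Fin (60 * N), ∑ θ : T N, (if e ∈ I ∧ θ ∈ A then (1 / 2 : ℝ) else 1) ≤
      (if e ∈ I then (91 / 100 : ℝ) else 1) * Fintype.card (T N) := by
    intro e
    by_cases he : e ∈ I
    · have : ∀ θ : T N, (if e ∈ I ∧ θ ∈ A then (1 / 2 : ℝ) else 1) =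
          1 - (if θ ∈ A then (1 : ℝ) else 0) / 2 := by
        intro θ
        by_cases h : θ ∈ A
        · simp only [he, h, and_self, if_true]; norm_num
        · simp [h]
      simp only [this]
      rw [Finset.sum_sub_distrib, ← Finset.sum_div, Finset.sum_boole, if_pos he]
      simp only [sum_const, card_univ, nsmul_eq_mul, mul_one, filter_mem_eq_inter, univ_inter]
      linarith
    · simp [he]
  refine (Finset.prod_le_prod (fun e _ => Finset.sum_nonneg fun θ _ => by
    split_ifs <;> norm_num) (fun e _ => h3 e)).trans ?_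
  rw [Finset.prod_mul_distrib, Finset.prod_const, Finset.prod_ite_mem, univ_inter,
    Finset.prod_const, card_univ, Fintype.card_fin, hI]
  refine mul_le_mul_of_nonneg_right ?_ (by positivity)
  rw [pow_mul, pow_mul]
  exact pow_le_pow_left₀ (by positivity) (by norm_num) _

/-- the class of an edge -/
def cls (e : Fin (60 * N)) : Bool := decide (30 * N ≤ e.val)

/-- the edges of one class -/
noncomputable def idx (N : ℕ) (s : Bool) : Finset (Fin (60 * N)) := {e | cls e = s}

lemma card_idx (s : Bool) : #(idx N s) = 30 * N := by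
  have h1 : #(idx N false) = 30 * N := by
    have : idx N false = univ.filter (fun e : Fin (60 * N) => e.val < 30 * N) := by
      ext e; simp [idx, cls]
    rw [this, Fin.card_filter_val_lt]
    omega
  cases s
  · exact h1
  · have : idx N true = (idx N false)ᶜ := by
      ext e; simp [idx]
    rw [this, card_compl, h1, Fintype.card_fin]
    omega

/-- the target set of one event -/
noncomputable def tgt (W : Finset (Fin N)) (s : Bool) : Finset (T N) :=
  if s then univ.filter (fun θ : T N => θ.1 ∈ W ∧ θ.2.1 ∈ W)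
  else univ.filter (fun θ : T N => ¬(θ.1 ∈ W ↔ θ.2.1 ∈ W))

/-- the size condition of one event -/
def cond (W : Finset (Fin N)) (s : Bool) : Prop :=
  if s then 9 * N ≤ 10 * #W else N ≤ 10 * #W ∧ 10 * #W ≤ 9 * N

lemma card_tgt (W : Finset (Fin N)) (s : Bool) (h : cond W s) :
    18 * (Fintype.card (T N) : ℝ) ≤ 100 * #(tgt W s) := by
  have hM : (Fintype.card (T N) : ℝ) = 3 * N ^ 2 := by rw [card_T]; push_cast; ring
  rw [hM]
  cases s
  · simp only [cond, Bool.false_eq_true, if_false] at h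
    have e : tgt W false = (W ×ˢ Wᶜ ×ˢ univ) ∪ (Wᶜ ×ˢ W ×ˢ univ) := by
      ext θ
      simp only [tgt, Bool.false_eq_true, if_false, mem_filter, mem_univ, true_and, mem_union,
        mem_product, mem_compl, and_true]
      tauto
    have hd : Disjoint (W ×ˢ Wᶜ ×ˢ (univ : Finset (ZMod 3))) (Wᶜ ×ˢ W ×ˢ univ) := by
      rw [Finset.disjoint_left]
      intro θ h1 h2
      simp only [mem_product, mem_compl] at h1 h2
      exact h2.1 h1.1
    have hW : #W ≤ N := by simpa using card_le_univ W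
    rw [e, card_union_of_disjoint hd]
    simp only [card_product, card_compl, card_univ, ZMod.card, Fintype.card_fin]
    push_cast [Nat.cast_sub hW]
    have h1 : (N : ℝ) ≤ 10 * #W := by exact_mod_cast h.1
    have h2 : 10 * (#W : ℝ) ≤ 9 * N := by exact_mod_cast h.2
    nlinarith
  · simp only [cond, if_true] at h
    have e : tgt W true = W ×ˢ W ×ˢ univ := by
      ext θ
      simp [tgt]
    rw [e]
    simp only [card_product, card_univ, ZMod.card]
    push_cast
    have h1 : 9 * (N : ℝ) ≤ 10 * #W := by exact_mod_cast h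
    have h0 : (0 : ℝ) ≤ N := Nat.cast_nonneg N
    nlinarith

lemma rand_exists_omega (g : ℕ) (hN2 : 2 ≤ N)
    (hg : 8 * ∑ k ∈ range (g + 1), k * 540 ^ k ≤ N) :
    ∃ ω : Fin (60 * N) → T N, #(bad1 ω) + #(bad2 g ω) ≤ N ∧
      ∀ (W : Finset (Fin N)) (s : Bool), cond W s →
        2 * N ≤ #{e | e ∈ idx N s ∧ ω e ∈ tgt W s} := by
  have hN : 0 < N := by omega
  have hN' : (0 : ℝ) < N := by exact_mod_cast hN
  have hT : 0 < Fintype.card (T N) := by rw [card_T]; positivity
  set P : ℝ := (Fintype.card (T N) : ℝ) ^ (60 * N) with hP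
  have hP0 : 0 < P := by positivity
  set 𝒲 : Finset (Finset (Fin N) × Bool) := {p | cond p.1 p.2} with h𝒲
  have h1 : ∑ ω : Fin (60 * N) → T N, (((#(bad1 ω) : ℝ) + #(bad2 g ω)) / N +
      ∑ p ∈ 𝒲, 2 ^ (2 * N) *
        ∏ e, (if e ∈ idx N p.2 ∧ ω e ∈ tgt p.1 p.2 then (1 / 2 : ℝ) else 1)) <
      ∑ _ω : Fin (60 * N) → T N, (1 : ℝ) := by
    rw [Finset.sum_add_distrib, ← Finset.sum_div, Finset.sum_add_distrib, Finset.sum_comm,
      Finset.sum_const, card_univ, Fintype.card_fun, Fintype.card_fin, nsmul_eq_mul, mul_one]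
    push_cast
    rw [← hP]
    have a1 := sum_bad1 hN2
    have a2 := rand_sum_bad2 hN g
    rw [← hP] at a1 a2
    have a3 : (∑ k ∈ range (g + 1), (k : ℝ) * 540 ^ k) ≤ (N : ℝ) / 8 := by
      have : (8 : ℝ) * ∑ k ∈ range (g + 1), (k : ℝ) * 540 ^ k ≤ N := by exact_mod_cast hg
      linarith
    have a4 : ((∑ ω : Fin (60 * N) → T N, (#(bad1 ω) : ℝ)) +
        ∑ ω : Fin (60 * N) → T N, (#(bad2 g ω) : ℝ)) / N ≤ P / 4 := by
      rw [div_le_iff₀ hN']
      have := mul_le_mul_of_nonneg_right a3 hP0.le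
      linarith
    have a5 : ∀ p ∈ 𝒲, ∑ ω : Fin (60 * N) → T N, 2 ^ (2 * N) *
        ∏ e, (if e ∈ idx N p.2 ∧ ω e ∈ tgt p.1 p.2 then (1 / 2 : ℝ) else 1) ≤
        2 ^ (2 * N) * ((1 / 2) ^ (4 * N) * P) := by
      intro p hp
      simp only [h𝒲, mem_filter, mem_univ, true_and] at hp
      rw [← Finset.mul_sum]
      exact mul_le_mul_of_nonneg_left
        (rand_sum_hit _ (card_idx p.2) _ (card_tgt p.1 p.2 hp)) (by positivity)
    have a6 := Finset.sum_le_sum a5
    rw [Finset.sum_const, nsmul_eq_mul] at a6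
    have a7 : (#𝒲 : ℝ) ≤ 2 ^ N * 2 := by
      have := card_le_univ 𝒲
      rw [Fintype.card_prod, Fintype.card_finset, Fintype.card_fin, Fintype.card_bool] at this
      exact_mod_cast this
    have a8 : (#𝒲 : ℝ) * (2 ^ (2 * N) * ((1 / 2) ^ (4 * N) * P)) ≤ P / 2 := by
      refine (mul_le_mul_of_nonneg_right a7 (by positivity)).trans ?_
      have e1 : (2 : ℝ) ^ N * 2 * (2 ^ (2 * N) * ((1 / 2) ^ (4 * N) * P)) =
          (1 / 2) ^ N * (2 * P) := by
        rw [show 4 * N = N + 2 * N + N by ring, pow_add, pow_add]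
        simp only [one_div, inv_pow]
        field_simp
      rw [e1]
      have e2 : (1 / 2 : ℝ) ^ N ≤ (1 / 2) ^ 2 :=
        pow_le_pow_of_le_one (by norm_num) (by norm_num) hN2
      nlinarith
    linarith
  obtain ⟨ω, -, hω⟩ := Finset.exists_lt_of_sum_lt h1
  have hnn : ∀ p ∈ 𝒲, 0 ≤ 2 ^ (2 * N) *
      ∏ e, (if e ∈ idx N p.2 ∧ ω e ∈ tgt p.1 p.2 then (1 / 2 : ℝ) else 1) :=
    fun W _ => mul_nonneg (by positivity)
      (Finset.prod_nonneg fun e _ => by split_ifs <;> norm_num)
  refine ⟨ω, ?_, fun W s hW1 => ?_⟩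
  · have b1 := Finset.sum_nonneg hnn
    have b2 : ((#(bad1 ω) : ℝ) + #(bad2 g ω)) / N < 1 := by linarith
    rw [div_lt_one hN'] at b2
    exact_mod_cast b2.le
  · have hW : (W, s) ∈ 𝒲 := by simp [h𝒲, hW1]
    have b1 := Finset.single_le_sum hnn hW
    have b2 : 0 ≤ ((#(bad1 ω) : ℝ) + #(bad2 g ω)) / N := by positivity
    have b3 : 2 ^ (2 * N) *
        ∏ e, (if e ∈ idx N s ∧ ω e ∈ tgt W s then (1 / 2 : ℝ) else 1) < 1 := by linarith
    rw [Finset.prod_ite, Finset.prod_const, Finset.prod_const_one, mul_one, one_div, inv_pow,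
      ← div_eq_mul_inv, div_lt_one (by positivity)] at b3
    exact ((pow_lt_pow_iff_right₀ (by norm_num : (1 : ℝ) < 2)).1 b3).le

theorem exists_good (g : ℕ) (hg : 1 ≤ g) : ∃ (N : ℕ) (E : Type) (_ : Fintype E)
    (_ : DecidableEq E) (a b : E → Fin N) (t : E → Bool), Good a b t g := by
  obtain ⟨N, hNdef⟩ : ∃ N, N = 100000 ^ g := ⟨_, rfl⟩
  have hgN : g < N := hNdef ▸ Nat.lt_pow_self (by norm_num)
  have hN2 : 2 ≤ N := by omega
  have hN : 0 < N := by omega
  obtain ⟨ω, h1, h2⟩ := rand_exists_omega g hN2 (hNdef ▸ rand_num g)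
  set D : Finset (Fin (60 * N)) := (bad1 ω ∪ bad2 g ω)ᶜ with hD
  have hcov : ∀ (W : Finset (Fin N)) (s : Bool) (S : Finset D), cond W s →
      (∀ e : D, cls e.1 = s → ω e ∈ tgt W s → e ∈ S) → N ≤ #S := by
    intro W s S hc hS
    have h3 := h2 W s hc
    have h4 : ({e | e ∈ idx N s ∧ ω e ∈ tgt W s} : Finset (Fin (60 * N))) ⊆
        (S.map (Function.Embedding.subtype _)) ∪ (bad1 ω ∪ bad2 g ω) := by
      intro e he
      by_cases h : e ∈ D
      · refine mem_union_left _ (mem_map.2 ⟨⟨e, h⟩, ?_, rfl⟩)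
        obtain ⟨h5, h6⟩ := (mem_filter.1 he).2
        exact hS ⟨e, h⟩ (mem_filter.1 h5).2 h6
      · rw [hD, mem_compl, not_not] at h
        exact mem_union_right _ h
    have h5 := (card_le_card h4).trans (card_union_le _ _)
    have h6 := card_union_le (bad1 ω) (bad2 g ω)
    rw [card_map] at h5
    omega
  refine ⟨N, D, inferInstance, inferInstance, fun e => (ω e).1, fun e => (ω e).2.1,
    fun e => cls e.1, ?_, ?_, ?_, ?_, ?_, ?_, ?_⟩
  · simpa using hN
  · simpa using card_le_univ D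
  · intro v S hS
    by_contra hcon
    push Not at hcon
    have h3 : #S ≤ #{e' | ω e' ∈ inc v} := by
      refine card_le_card_of_injOn (fun e => e.1) ?_ (Subtype.val_injective.injOn)
      intro e he
      simpa [inc] using hS e he
    obtain ⟨e, he⟩ : S.Nonempty := by
      rw [← card_pos]; omega
    have h4 : (e : Fin (60 * N)) ∈ bad1 ω := by
      simp only [bad1, mem_filter, mem_univ, true_and]
      exact ⟨v, by simpa [inc] using hS e he, by omega⟩
    exact mem_compl.1 e.2 (mem_union_left _ h4)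
  · intro F U₀ hF hFg hU₀
    by_contra hcon
    push Not at hcon
    obtain ⟨U, hU1, hU2⟩ := Finset.exists_superset_card_eq hcon
      (by rw [Fintype.card_fin]; omega)
    obtain ⟨e, he⟩ := hF
    have h4 : (e : Fin (60 * N)) ∈ bad2 g ω := by
      simp only [bad2, mem_filter, mem_univ, true_and]
      refine ⟨#F, mem_range.2 (by omega), F.map (Function.Embedding.subtype _), by simp, U,
        by simp [hU2], mem_map.2 ⟨e, he, rfl⟩, ?_⟩
      intro e' he'
      obtain ⟨x, hx, rfl⟩ := mem_map.1 he'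
      simp only [H616Z.Coarse.box, mem_product, mem_univ, and_true,
        Function.Embedding.subtype_apply]
      exact ⟨hU1 (hU₀ x hx).1, hU1 (hU₀ x hx).2⟩
    exact mem_compl.1 e.2 (mem_union_right _ h4)
  · intro W S hW1 hW2 hS
    rw [Fintype.card_fin] at hW1 hW2 ⊢
    refine hcov W false S (by simp [cond, hW1, hW2]) fun e he h => hS e he ?_
    simpa [tgt] using h
  · intro W S hW1 hS
    rw [Fintype.card_fin] at hW1 ⊢
    refine hcov W true S (by simp [cond, hW1]) fun e he h => ?_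
    have h' : (ω e).1 ∈ W ∧ (ω e).2.1 ∈ W := by simpa [tgt] using h
    exact hS e he h'.1 h'.2
  · rw [Fintype.card_fin, hNdef]

end Pool.Agent.H839Z.CE
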