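import Mathlib

/-! Pairs of walks with the same colours in a directed graph. -/

set_option autoImplicit false

namespace Pool.Agent.H839Z.CE

/-- Two walks, starting at the two given vertices, whose steps have the same colours and the same
directions. -/
inductive Walk2 {W Λ C : Type} (o t : Λ → W) (col : Λ → C) : W → W → List (Λ × Λ × Bool) → Prop
  | nil (u u' : W) : Walk2 o t col u u' []
  | fwd (e e' : Λ) (l : List (Λ × Λ × Bool)) : col e = col e' → Walk2 o t col (t e) (t e') l →
      Walk2 o t col (o e) (o e') ((e, e', true) :: l)
  | bwd (e e' : Λ) (l : List (Λ × Λ × Bool)) : col e = col e' → Walk2 o t col (o e) (o e') l →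
      Walk2 o t col (t e) (t e') ((e, e', false) :: l)

end Pool.Agent.H839Z.CE
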