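import Pool.Agent.H839Z.CE.Chain
import Pool.Agent.H839Z.CE.Walk2

/-! A common subtree of two charts with at least `k` edges gives a pair of walks of length `2 k`
with the same labels, in which a third of the edges are matched with edges outside a set `Z`. -/

set_option autoImplicit false

namespace Pool.Agent.H839Z.CE

open Finset

/-- Walks in the Cayley tree. -/
inductive TW {S : Type} : FreeGroup S → List (Edg S × Bool) → Prop
  | nil (x : FreeGroup S) : TW x []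
  | fwd (ε : Edg S) (l : List (Edg S × Bool)) : TW (tE ε) l → TW ε.1 ((ε, true) :: l)
  | bwd (ε : Edg S) (l : List (Edg S × Bool)) : TW ε.1 l → TW (tE ε) ((ε, false) :: l)

lemma TW.prepend {S : Type} {x : FreeGroup S} {l : List (Edg S × Bool)} (h : TW x l)
    {ε : Edg S} (hε : IsEnd ε x) : ∃ b c, TW x ((ε, b) :: (ε, c) :: l) := by
  rcases hε with rfl | rfl
  · exact ⟨true, false, TW.fwd _ _ (TW.bwd _ _ h)⟩
  · exact ⟨false, true, TW.bwd _ _ (TW.fwd _ _ h)⟩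

lemma TW.ins {S : Type} {x : FreeGroup S} {l : List (Edg S × Bool)} (h : TW x l)
    {ε₀ : Edg S} {y : FreeGroup S} (hε : IsEnd ε₀ y)
    (hy : y = x ∨ ∃ p ∈ l, IsEnd p.1 y) :
    ∃ l', TW x l' ∧ l'.length = l.length + 2 ∧
      ∀ ε, (∃ b, (ε, b) ∈ l') ↔ ε = ε₀ ∨ ∃ b, (ε, b) ∈ l := by
  have base : ∀ {x : FreeGroup S} {l : List (Edg S × Bool)}, TW x l → y = x →
      ∃ l', TW x l' ∧ l'.length = l.length + 2 ∧
        ∀ ε, (∃ b, (ε, b) ∈ l') ↔ ε = ε₀ ∨ ∃ b, (ε, b) ∈ l := by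
    intro x l h hyx
    obtain ⟨b, c, h2⟩ := h.prepend (hyx ▸ hε)
    refine ⟨_, h2, by simp, fun ε => ?_⟩
    constructor
    · rintro ⟨b', hb'⟩
      rcases List.mem_cons.1 hb' with h3 | h3
      · exact Or.inl (congrArg Prod.fst h3)
      rcases List.mem_cons.1 h3 with h3 | h3
      · exact Or.inl (congrArg Prod.fst h3)
      · exact Or.inr ⟨b', h3⟩
    · rintro (rfl | ⟨b', hb'⟩)
      · exact ⟨b, List.mem_cons_self⟩
      · exact ⟨b', List.mem_cons_of_mem _ (List.mem_cons_of_mem _ hb')⟩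
  have cons : ∀ (p : Edg S × Bool) (l l' : List (Edg S × Bool)),
      (∀ ε, (∃ b, (ε, b) ∈ l') ↔ ε = ε₀ ∨ ∃ b, (ε, b) ∈ l) →
      ∀ ε, (∃ b, (ε, b) ∈ p :: l') ↔ ε = ε₀ ∨ ∃ b, (ε, b) ∈ p :: l := by
    intro p l l' h ε
    constructor
    · rintro ⟨b, hb⟩
      rcases List.mem_cons.1 hb with h3 | h3
      · exact Or.inr ⟨b, h3 ▸ List.mem_cons_self⟩
      · rcases (h ε).1 ⟨b, h3⟩ with h4 | ⟨b', h4⟩
        · exact Or.inl h4
        · exact Or.inr ⟨b', List.mem_cons_of_mem _ h4⟩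
    · rintro (h3 | ⟨b, hb⟩)
      · obtain ⟨b, hb⟩ := (h ε).2 (Or.inl h3)
        exact ⟨b, List.mem_cons_of_mem _ hb⟩
      · rcases List.mem_cons.1 hb with h3 | h3
        · exact ⟨b, h3 ▸ List.mem_cons_self⟩
        · obtain ⟨b', hb'⟩ := (h ε).2 (Or.inr ⟨b, h3⟩)
          exact ⟨b', List.mem_cons_of_mem _ hb'⟩
  induction h with
  | nil x =>
    refine base (TW.nil x) ?_
    rcases hy with hy | ⟨p, hp, -⟩
    · exact hy
    · simp at hp
  | fwd ε l h ih =>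
    by_cases hyx : y = ε.1
    · exact base (TW.fwd ε l h) hyx
    obtain ⟨l', h1, h2, h3⟩ := ih (by
      rcases hy with hy | ⟨p, hp, hp'⟩
      · exact absurd hy hyx
      · rcases List.mem_cons.1 hp with rfl | hp
        · rcases hp' with h4 | h4
          · exact absurd h4 hyx
          · exact Or.inl h4
        · exact Or.inr ⟨p, hp, hp'⟩)
    exact ⟨_, TW.fwd ε l' h1, by simp [h2], cons _ _ _ h3⟩
  | bwd ε l h ih =>
    by_cases hyx : y = tE ε
    · exact base (TW.bwd ε l h) hyx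
    obtain ⟨l', h1, h2, h3⟩ := ih (by
      rcases hy with hy | ⟨p, hp, hp'⟩
      · exact absurd hy hyx
      · rcases List.mem_cons.1 hp with rfl | hp
        · rcases hp' with h4 | h4
          · exact Or.inl h4
          · exact absurd h4 hyx
        · exact Or.inr ⟨p, hp, hp'⟩)
    exact ⟨_, TW.bwd ε l' h1, by simp [h2], cons _ _ _ h3⟩

lemma E_ends_sub {S : Type} [DecidableEq S] {ε : Edg S} {y z : FreeGroup S} (hy : IsEnd ε y)
    (hz : IsEnd ε z) : E y z ⊆ {ε} := by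
  rcases hy with rfl | rfl <;> rcases hz with rfl | rfl
  · simp
  · rw [E_edge]
  · rw [E_comm, E_edge]
  · simp

lemma exists_tour {S : Type} [DecidableEq S] (P : Edg S → Prop)
    (hP : ∀ ε, P ε → ∀ y, IsEnd ε y → ∀ ε' ∈ E 1 y, P ε') (D : Finset (Edg S))
    (hD : ∀ ε ∈ D, P ε) (j : ℕ) (hj : j ≤ #D) :
    ∃ (l : List (Edg S × Bool)) (A : Finset (Edg S)), TW 1 l ∧ l.length = 2 * j ∧ #A = j ∧
      (∀ ε, ε ∈ A ↔ ∃ b, (ε, b) ∈ l) ∧ (∀ ε ∈ A, P ε) ∧
      ∀ ε ∈ A, ∀ y, IsEnd ε y → E 1 y ⊆ A := by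
  classical
  induction j with
  | zero => exact ⟨[], ∅, TW.nil _, rfl, rfl, by simp, by simp, by simp⟩
  | succ j ih =>
    obtain ⟨l, A, h1, h2, h3, h4, h5, h6⟩ := ih (by omega)
    have hex : ∃ n, ∃ ε y, P ε ∧ ε ∉ A ∧ IsEnd ε y ∧ d 1 y = n := by
      obtain ⟨ε, hε, hε'⟩ := exists_mem_notMem_of_card_lt_card (s := A) (t := D) (by omega)
      exact ⟨_, ε, ε.1, hD ε hε, hε', Or.inl rfl, rfl⟩
    obtain ⟨ε₀, y, a1, a2, a3, a4⟩ := Nat.find_spec hex
    have hsub : E 1 y ⊆ A := by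
      intro ε' hε'
      by_contra hcon
      obtain ⟨y', b1, b2⟩ := exists_near ε' 1
      have b3 : d 1 y' < d 1 y := card_lt_card ⟨between hε' b1, fun h => b2 (h hε')⟩
      have := Nat.find_min' hex ⟨ε', y', hP ε₀ a1 y a3 ε' hε', hcon, b1, rfl⟩
      omega
    have hvis : y = 1 ∨ ∃ p ∈ l, IsEnd p.1 y := by
      by_cases hy : y = 1
      · exact Or.inl hy
      obtain ⟨ε', b1, b2⟩ := step hy
      rw [E_comm] at b1
      obtain ⟨b, hb⟩ := (h4 ε').1 (hsub b1)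
      exact Or.inr ⟨_, hb, b2⟩
    obtain ⟨l', c1, c2, c3⟩ := h1.ins a3 hvis
    refine ⟨l', insert ε₀ A, c1, by omega, by rw [card_insert_of_notMem a2, h3], ?_, ?_, ?_⟩
    · intro ε
      rw [c3, mem_insert, h4]
    · intro ε hε
      rcases mem_insert.1 hε with rfl | hε
      · exact a1
      · exact h5 ε hε
    · intro ε hε z hz
      rcases mem_insert.1 hε with rfl | hε
      · intro ε' hε'
        rcases mem_union.1 (E_tri 1 y z hε') with h | h
        · exact mem_insert_of_mem (hsub h)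
        · rw [mem_singleton.1 (E_ends_sub a3 hz h)]
          exact mem_insert_self _ _
      · exact (h6 ε hε z hz).trans (subset_insert _ _)

lemma TW.project {S : Type} {G : LG S} (φ φ' : G.Chart) {x : FreeGroup S}
    {l : List (Edg S × Bool)} (h : TW x l) (hl : ∀ p ∈ l, LG.Ed φ p.1 ∧ LG.Ed φ' p.1)
    {v v' : G.W} (hv : φ.1 x = some v) (hv' : φ'.1 x = some v') :
    ∃ l₂ : List (G.Λ × G.Λ × Bool), Walk2 G.o G.t G.lab v v' l₂ ∧ l₂.length = l.length ∧
      ∀ p ∈ l, ∃ e e', LG.Over φ p.1 e ∧ LG.Over φ' p.1 e' ∧ (e, e', p.2) ∈ l₂ := by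
  induction h generalizing v v' with
  | nil x => exact ⟨[], Walk2.nil _ _, rfl, by simp⟩
  | fwd ε l h ih =>
    obtain ⟨⟨e, he⟩, ⟨e', he'⟩⟩ := hl _ List.mem_cons_self
    obtain ⟨l₂, h1, h2, h3⟩ := ih (fun p hp => hl p (List.mem_cons_of_mem _ hp)) he.val_t he'.val_t
    obtain rfl : v = G.o e := Option.some.inj (hv.symm.trans he.1)
    obtain rfl : v' = G.o e' := Option.some.inj (hv'.symm.trans he'.1)
    refine ⟨(e, e', true) :: l₂, Walk2.fwd e e' l₂ (he.2.trans he'.2.symm) h1, by simp [h2], ?_⟩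
    intro p hp
    rcases List.mem_cons.1 hp with rfl | hp
    · exact ⟨e, e', he, he', List.mem_cons_self⟩
    · obtain ⟨a, a', b1, b2, b3⟩ := h3 p hp
      exact ⟨a, a', b1, b2, List.mem_cons_of_mem _ b3⟩
  | bwd ε l h ih =>
    obtain ⟨⟨e, he⟩, ⟨e', he'⟩⟩ := hl _ List.mem_cons_self
    obtain ⟨l₂, h1, h2, h3⟩ := ih (fun p hp => hl p (List.mem_cons_of_mem _ hp)) he.1 he'.1
    obtain rfl : v = G.t e := Option.some.inj (hv.symm.trans he.val_t)
    obtain rfl : v' = G.t e' := Option.some.inj (hv'.symm.trans he'.val_t)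
    refine ⟨(e, e', false) :: l₂, Walk2.bwd e e' l₂ (he.2.trans he'.2.symm) h1, by simp [h2], ?_⟩
    intro p hp
    rcases List.mem_cons.1 hp with rfl | hp
    · exact ⟨e, e', he, he', List.mem_cons_self⟩
    · obtain ⟨a, a', b1, b2, b3⟩ := h3 p hp
      exact ⟨a, a', b1, b2, List.mem_cons_of_mem _ b3⟩

lemma greedy_third {α β : Type} (f g : α → β) (hf : Function.Injective f)
    (hg : Function.Injective g) (hfg : ∀ a, f a ≠ g a) (A : Finset α) :
    ∃ B : Finset α, B ⊆ A ∧ #A ≤ 3 * #B ∧ ∀ a ∈ B, ∀ b ∈ B, g a ≠ f b := by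
  classical
  induction hn : #A using Nat.strong_induction_on generalizing A with
  | _ n ih =>
    rcases A.eq_empty_or_nonempty with rfl | ⟨a, ha⟩
    · exact ⟨∅, subset_rfl, by simp [← hn], by simp⟩
    set A' := A.filter (fun b => b ≠ a ∧ g b ≠ f a ∧ f b ≠ g a) with hA'
    have hsub : A' ⊆ A := filter_subset _ _
    have haA' : a ∉ A' := by simp [hA']
    have hlt : #A' < n := by
      rw [← hn]
      exact card_lt_card ⟨hsub, fun h => haA' (h ha)⟩
    obtain ⟨B, h1, h2, h3⟩ := ih _ hlt A' rfl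
    have haB : a ∉ B := fun h => haA' (h1 h)
    have c1 : #(A.filter fun b => g b = f a) ≤ 1 := by
      rw [card_le_one]
      intro x hx y hy
      exact hg ((mem_filter.1 hx).2.trans (mem_filter.1 hy).2.symm)
    have c2 : #(A.filter fun b => f b = g a) ≤ 1 := by
      rw [card_le_one]
      intro x hx y hy
      exact hf ((mem_filter.1 hx).2.trans (mem_filter.1 hy).2.symm)
    have c3 : A ⊆ A' ∪ ({a} ∪ ((A.filter fun b => g b = f a) ∪ (A.filter fun b => f b = g a))) := by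
      intro b hb
      simp only [hA', mem_union, mem_filter, mem_singleton]
      tauto
    have c4 := card_le_card c3
    have c5 := card_union_le A' ({a} ∪ ((A.filter fun b => g b = f a) ∪
      (A.filter fun b => f b = g a)))
    have c6 := card_union_le {a} ((A.filter fun b => g b = f a) ∪ (A.filter fun b => f b = g a))
    have c7 := card_union_le (A.filter fun b => g b = f a) (A.filter fun b => f b = g a)
    rw [card_singleton] at c6
    refine ⟨insert a B, insert_subset ha (h1.trans hsub), ?_, ?_⟩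
    · rw [card_insert_of_notMem haB]; omega
    · intro x hx y hy
      rcases mem_insert.1 hx with rfl | hx' <;> rcases mem_insert.1 hy with hy' | hy'
      · rw [hy']; exact (hfg _).symm
      · exact ((mem_filter.1 (h1 hy')).2.2.2).symm
      · rw [hy']; exact (mem_filter.1 (h1 hx')).2.2.1
      · exact h3 x hx' y hy'

lemma over_inj {S : Type} [DecidableEq S] {G : LG S} {u : G.W} {A : Finset (Edg S)}
    (hA : ∀ ε ∈ A, ∀ y, IsEnd ε y → E 1 y ⊆ A) (hL : 2 * #A < G.L (G.lev u))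
    {ε ε' : Edg S} (hε : ε ∈ A) (hε' : ε' ∈ A) {e : G.Λ} (he : LG.Over (G.ch 1 u) ε e)
    (he' : LG.Over (G.ch 1 u) ε' e) : ε = ε' := by
  refine Prod.ext ?_ (he.2.symm.trans he'.2)
  by_contra hne
  have h1 := LG.girth_d he.1 he'.1 hne
  rw [LG.lv_eq (LG.ch_self 1 u)] at h1
  have h2 := d_tri ε.1 1 ε'.1
  have h3 : d 1 ε.1 ≤ #A := card_le_card (hA ε hε _ (Or.inl rfl))
  have h4 : d 1 ε'.1 ≤ #A := card_le_card (hA ε' hε' _ (Or.inl rfl))
  rw [d_comm ε.1 1] at h2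
  omega

theorem walk_of_piece {S : Type} [DecidableEq S] (G : LG S) (u u' : G.W) (hne : u ≠ u')
    (D : Finset (Edg S)) (hD : ∀ ε ∈ D, LG.Ed (G.ch 1 u) ε ∧ LG.Ed (G.ch 1 u') ε) (k : ℕ)
    (hk : k ≤ #D) (hL : 2 * k < G.L (G.lev u)) (hL' : 2 * k < G.L (G.lev u')) :
    ∃ l : List (G.Λ × G.Λ × Bool), Walk2 G.o G.t G.lab u u' l ∧ l.length = 2 * k ∧
      ∃ Z : Finset G.Λ, k ≤ 3 * #Z ∧ ∀ e ∈ Z, ∃ e' b, (e, e', b) ∈ l ∧ e' ∉ Z := by
  classical
  have hvx : ∀ (φ : G.Chart) (ε : Edg S), LG.Ed φ ε → ∀ y, IsEnd ε y → LG.Vx φ y := by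
    rintro φ ε h y (rfl | rfl)
    · exact h.vx_o
    · exact h.vx_t
  obtain ⟨l, A, h1, h2, h3, h4, h5, h6⟩ := exists_tour
    (fun ε => LG.Ed (G.ch 1 u) ε ∧ LG.Ed (G.ch 1 u') ε)
    (fun ε hε y hy ε' hε' =>
      ⟨LG.convex ⟨u, LG.ch_self 1 u⟩ (hvx _ ε hε.1 y hy) ε' hε',
        LG.convex ⟨u', LG.ch_self 1 u'⟩ (hvx _ ε hε.2 y hy) ε' hε'⟩) D hD k hk
  obtain ⟨l₂, a1, a2, a3⟩ := h1.project (G.ch 1 u) (G.ch 1 u')
    (fun p hp => h5 p.1 ((h4 p.1).2 ⟨p.2, hp⟩)) (LG.ch_self 1 u) (LG.ch_self 1 u')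
  have key : ∀ ε : {ε // ε ∈ A}, ∃ e e', LG.Over (G.ch 1 u) ε.1 e ∧ LG.Over (G.ch 1 u') ε.1 e' ∧
      ∃ b, (e, e', b) ∈ l₂ := by
    intro ε
    obtain ⟨b, hb⟩ := (h4 ε.1).1 ε.2
    obtain ⟨e, e', b1, b2, b3⟩ := a3 _ hb
    exact ⟨e, e', b1, b2, b, b3⟩
  choose f g hf hg hfg using key
  have finj : Function.Injective f := fun x y h =>
    Subtype.ext (over_inj h6 (h3 ▸ hL) x.2 y.2 (hf x) (h ▸ hf y))
  have ginj : Function.Injective g := fun x y h =>
    Subtype.ext (over_inj h6 (h3 ▸ hL') x.2 y.2 (hg x) (h ▸ hg y))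
  have hne' : ∀ a, f a ≠ g a := by
    intro a h
    have e1 := LG.eq_ch (hf a).1
    have e2 := LG.eq_ch (hg a).1
    rw [← h, ← e1] at e2
    have e3 := LG.ch_self 1 u'
    rw [e2, LG.ch_self] at e3
    exact hne (Option.some.inj e3)
  obtain ⟨B, -, b2, b3⟩ := greedy_third f g finj ginj hne' A.attach
  refine ⟨l₂, a1, a2.trans h2, B.image f, ?_, ?_⟩
  · rw [card_image_of_injective _ finj, ← h3, ← card_attach]
    exact b2
  · intro e he
    obtain ⟨a, ha, rfl⟩ := mem_image.1 he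
    obtain ⟨b, hb⟩ := hfg a
    refine ⟨g a, b, hb, fun h => ?_⟩
    obtain ⟨a', ha', h'⟩ := mem_image.1 h
    exact b3 a ha a' ha' h'.symm

end Pool.Agent.H839Z.CE
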