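import Pool.Agent.H839Z.CE.Chain
import Pool.Agent.H839Z.CE.Walk2
import Pool.Agent.H839Z.CE.Rand
import Pool.Agent.H839Z.CE.LLL
import Pool.Agent.H839Z.CE.Count
import Pool.Agent.H839Z.CE.Walk

/-! The random labelling of a sequence of expanders with the small cancellation property. -/

set_option autoImplicit false

namespace Pool.Agent.H839Z.CE

open Finset

/-- Levels along a pair of walks. -/
lemma lab_walk2_lev {W Λ C : Type} {o t : Λ → W} {col : Λ → C} (lev : W → ℕ)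
    (hlt : ∀ e, lev (t e) = lev (o e)) {u u' : W} {l : List (Λ × Λ × Bool)}
    (h : Walk2 o t col u u' l) : ∀ x ∈ l, lev (o x.1) = lev u ∧ lev (o x.2.1) = lev u' := by
  induction h with
  | nil u u' => simp
  | fwd e e' l _ _ ih =>
    intro x hx
    rcases List.mem_cons.1 hx with rfl | hx
    · exact ⟨rfl, rfl⟩
    · have := ih x hx
      rwa [hlt, hlt] at this
  | bwd e e' l _ _ ih =>
    intro x hx
    rcases List.mem_cons.1 hx with rfl | hx
    · exact ⟨(hlt _).symm, (hlt _).symm⟩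
    · have := ih x hx
      rwa [hlt, hlt]

/-- A pair of walks for a product colouring. -/
lemma lab_walk2_prod {W Λ C R : Type} {o t : Λ → W} {col : Λ → C} {r : Λ → R} {u u' : W}
    {l : List (Λ × Λ × Bool)} (h : Walk2 o t (fun e => (col e, r e)) u u' l) :
    Walk2 o t col u u' l ∧ ∀ x ∈ l, r x.1 = r x.2.1 := by
  induction h with
  | nil u u' => exact ⟨Walk2.nil u u', by simp⟩
  | fwd e e' l h _ ih =>
    refine ⟨Walk2.fwd e e' l (congrArg Prod.fst h) ih.1, ?_⟩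
    intro x hx
    rcases List.mem_cons.1 hx with rfl | hx
    · exact congrArg Prod.snd h
    · exact ih.2 x hx
  | bwd e e' l h _ ih =>
    refine ⟨Walk2.bwd e e' l (congrArg Prod.fst h) ih.1, ?_⟩
    intro x hx
    rcases List.mem_cons.1 hx with rfl | hx
    · exact congrArg Prod.snd h
    · exact ih.2 x hx

/-- A map whose fibres have at most `D` points has a colouring injective on the fibres. -/
lemma lab_rank {V E : Type} [Fintype E] (a : E → V) (D : ℕ)
    (h : ∀ (v : V) (S : Finset E), (∀ e ∈ S, a e = v) → #S ≤ D) :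
    ∃ c : E → Fin D, ∀ e e', c e = c e' → a e = a e' → e = e' := by
  classical
  have h1 : ∀ v : V, Nonempty ({e // a e = v} ↪ Fin D) := by
    intro v
    refine Function.Embedding.nonempty_of_card_le ?_
    rw [Fintype.card_fin, Fintype.card_subtype]
    exact h v _ fun e he => (mem_filter.1 he).2
  let f : ∀ v : V, {e // a e = v} ↪ Fin D := fun v => (h1 v).some
  refine ⟨fun e => f (a e) ⟨e, rfl⟩, ?_⟩
  intro e e' h2 h3
  have key : ∀ (v : V) (h4 : a e' = v), f (a e') ⟨e', rfl⟩ = f v ⟨e', h4⟩ := by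
    rintro v rfl; rfl
  have h5 : f (a e) ⟨e, rfl⟩ = f (a e) ⟨e', h3.symm⟩ := h2.trans (key _ h3.symm)
  exact congrArg Subtype.val ((f (a e)).injective h5)

/-- The colouring and the permutations on one level. -/
lemma lab_level {V E : Type} [Fintype V] [Fintype E] {a b : E → V} {t : E → Bool} {g : ℕ}
    (hG : Good a b t g) : ∃ (col : E → Fin 200000 × Fin 200000)
      (p : Fin 200000 × Fin 200000 → Equiv.Perm V),
      (∀ e e', col e = col e' → a e = a e' → e = e') ∧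
      (∀ e e', col e = col e' → b e = b e' → e = e') ∧ ∀ e, p (col e) (a e) = b e := by
  obtain ⟨c1, h1⟩ := lab_rank a 200000 fun v S hS => hG.deg v S fun e he => Or.inl (hS e he)
  obtain ⟨c2, h2⟩ := lab_rank b 200000 fun v S hS => hG.deg v S fun e he => Or.inr (hS e he)
  have h3 : ∀ c : Fin 200000 × Fin 200000, ∃ p : Equiv.Perm V,
      ∀ e : {e // (c1 e, c2 e) = c}, p (a e.1) = b e.1 := by
    intro c
    refine Equiv.Perm.exists_extending_pair (f := fun e : {e // (c1 e, c2 e) = c} => a e.1)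
      (g := fun e : {e // (c1 e, c2 e) = c} => b e.1) ?_ ?_
    · intro e e' h
      exact Subtype.ext (h1 _ _ (congrArg Prod.fst (e.2.trans e'.2.symm)) h)
    · intro e e' h
      exact Subtype.ext (h2 _ _ (congrArg Prod.snd (e.2.trans e'.2.symm)) h)
  choose p hp using h3
  refine ⟨fun e => (c1 e, c2 e), p, ?_, ?_, fun e => hp _ ⟨e, rfl⟩⟩
  · intro e e' h h'
    exact h1 _ _ (congrArg Prod.fst h) h'
  · intro e e' h h'
    exact h2 _ _ (congrArg Prod.snd h) h'

/-- The support of a mod two cycle has at least as many edges as ends. -/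
lemma lab_cycle {W Λ : Type} [DecidableEq W] (o t : Λ → W) (c : Λ →₀ ZMod 2)
    (h : bdry o t c = 0) : #(c.support.image o ∪ c.support.image t) ≤ #c.support := by
  classical
  set F := c.support with hF
  set U := F.image o ∪ F.image t with hU
  by_contra hcon
  push Not at hcon
  have h2 : #F = ∑ v ∈ U, #{e ∈ F | o e = v} :=
    card_eq_sum_card_fiberwise fun e he => mem_union_left _ (mem_image_of_mem _ he)
  have h3 : #F = ∑ v ∈ U, #{e ∈ F | t e = v} :=
    card_eq_sum_card_fiberwise fun e he => mem_union_right _ (mem_image_of_mem _ he)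
  obtain ⟨v, hv, hv2⟩ : ∃ v ∈ U, #{e ∈ F | o e = v} + #{e ∈ F | t e = v} < 2 := by
    apply exists_lt_of_sum_lt
    rw [sum_add_distrib, ← h2, ← h3, sum_const, smul_eq_mul]
    omega
  have h1 : ∀ e ∈ F, c e = 1 := by
    intro e he
    rcases zmod2_cases (c e) with h4 | h4
    · exact absurd h4 (Finsupp.mem_support_iff.1 he)
    · exact h4
  have key : ∀ f : Λ → W, Finsupp.mapDomain f c v = (#{e ∈ F | f e = v} : ZMod 2) := by
    intro f
    rw [Finsupp.mapDomain, Finsupp.sum, Finsupp.finsetSum_apply, card_filter]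
    push_cast
    refine sum_congr rfl fun e he => ?_
    rw [h1 e he, Finsupp.single_apply]
  have h4 : bdry o t c v = ((#{e ∈ F | o e = v} + #{e ∈ F | t e = v} : ℕ) : ZMod 2) := by
    push_cast
    rw [← key, ← key]
    simp [bdry]
  have h5 : 0 < #{e ∈ F | o e = v} + #{e ∈ F | t e = v} := by
    rcases mem_union.1 hv with h6 | h6
    · obtain ⟨e, he, rfl⟩ := mem_image.1 h6
      have : 0 < #{e' ∈ F | o e' = o e} := card_pos.2 ⟨e, mem_filter.2 ⟨he, rfl⟩⟩
      omega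
    · obtain ⟨e, he, rfl⟩ := mem_image.1 h6
      have : 0 < #{e' ∈ F | t e' = t e} := card_pos.2 ⟨e, mem_filter.2 ⟨he, rfl⟩⟩
      omega
  have h6 : #{e ∈ F | o e = v} + #{e ∈ F | t e = v} = 1 := by omega
  rw [h6, h] at h4
  simp at h4

lemma lab_num (A M Q : ℕ) (hQ : 8 * (12 * A ^ 6 * M) ≤ Q) (hQ0 : 0 < Q) (m : ℕ) :
    (2 * ((6 * (m + 1) * A ^ (6 * (m + 1)) * M ^ (m + 1) : ℕ) : ℝ)) * ((2 : ℝ) / Q) ^ (m + 1) ≤
      (1 / 2) * (1 / 2) ^ (m + 1) := by
  have hQ' : (0 : ℝ) < Q := by exact_mod_cast hQ0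
  have h1 : (12 * (m + 1) : ℝ) ≤ 12 ^ (m + 1) := by
    have : 12 * (m + 1) ≤ 12 ^ (m + 1) := by
      have h2 : m + 1 ≤ 12 ^ m := Nat.lt_pow_self (by norm_num)
      rw [pow_succ]; omega
    exact_mod_cast this
  have h2 : (12 * (A : ℝ) ^ 6 * M) * (2 / Q) ≤ 1 / 4 := by
    have : (8 * (12 * A ^ 6 * M) : ℝ) ≤ Q := by exact_mod_cast hQ
    rw [← mul_div_assoc, div_le_iff₀ hQ']
    linarith
  have h3 : (0 : ℝ) ≤ (12 * (A : ℝ) ^ 6 * M) * (2 / Q) := by positivity
  calc (2 * ((6 * (m + 1) * A ^ (6 * (m + 1)) * M ^ (m + 1) : ℕ) : ℝ)) * ((2 : ℝ) / Q) ^ (m + 1)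
      = (12 * (m + 1)) * (((A : ℝ) ^ 6) ^ (m + 1) * (M : ℝ) ^ (m + 1) * (2 / Q) ^ (m + 1)) := by
        push_cast; rw [pow_mul]; ring
    _ ≤ 12 ^ (m + 1) * (((A : ℝ) ^ 6) ^ (m + 1) * (M : ℝ) ^ (m + 1) * (2 / Q) ^ (m + 1)) := by
        gcongr
    _ = ((12 * (A : ℝ) ^ 6 * M) * (2 / Q)) ^ (m + 1) := by
        rw [mul_pow, mul_pow, mul_pow]; ring
    _ ≤ (1 / 4) ^ (m + 1) := by gcongr
    _ = (1 / 2) ^ (m + 1) * (1 / 2) ^ (m + 1) := by rw [← mul_pow]; norm_num
    _ ≤ (1 / 2) * (1 / 2) ^ (m + 1) := by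
        gcongr
        rw [pow_succ]
        have : ((1 : ℝ) / 2) ^ m ≤ 1 := pow_le_one₀ (by norm_num) (by norm_num)
        linarith

lemma lab_geom (n : ℕ) : ∑ m ∈ range n, (1 / 2 : ℝ) * (1 / 2) ^ (m + 1) ≤ 1 / 2 := by
  have : ∀ n, ∑ m ∈ range n, (1 / 2 : ℝ) * (1 / 2) ^ (m + 1) = 1 / 2 - (1 / 2) ^ (n + 1) := by
    intro n
    induction n with
    | zero => simp
    | succ n ih => rw [sum_range_succ, ih]; ring
  rw [this]
  have : (0 : ℝ) ≤ (1 / 2) ^ (n + 1) := by positivity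
  linarith

/-- One level of the random labelling. -/
lemma lab_step {W Λ C : Type} [Fintype C] (o t : Λ → W) (col : Λ → C)
    (ho : ∀ e e', col e = col e' → o e = o e' → e = e')
    (ht : ∀ e e', col e = col e' → t e = t e' → e = e') (lev : W → ℕ)
    (hlt : ∀ e, lev (t e) = lev (o e)) (M : ℕ) (VW : ℕ → Finset W)
    (hVW : ∀ n v, v ∈ VW n ↔ lev v = n) (hM : ∀ n, #(VW n) ≤ M ^ (n + 1)) (VE : ℕ → Finset Λ)
    (hVE : ∀ n e, e ∈ VE n ↔ lev (o e) = n) (Q : ℕ)
    (hQ : 8 * (12 * (2 * Fintype.card C) ^ 6 * M) ≤ Q) (hQ2 : 2 ≤ Q) (n : ℕ) (r0 : Λ → Fin Q) :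
    ∃ r : Λ → Fin Q, (∀ x, lev (o x) ≠ n → r x = r0 x) ∧
      ∀ (u u' : W) (l : List (Λ × Λ × Bool)) (Z : Finset Λ), lev u = n → lev u' ≤ n →
        Walk2 o t col u u' l → l.length = 6 * (lev u' + 1) → lev u' + 1 ≤ #Z →
        (∀ e ∈ Z, ∃ e' b, (e, e', b) ∈ l ∧ e' ∉ Z) → ¬ ∀ x ∈ l, r x.1 = r x.2.1 := by
  classical
  have : Nonempty (Fin Q) := ⟨⟨0, by omega⟩⟩
  let P : W × W × List (Λ × Λ × Bool) → Finset Λ → Prop := fun b Z =>
    lev b.2.1 + 1 ≤ #Z ∧ ∀ e ∈ Z, ∃ e' c, (e, e', c) ∈ b.2.2 ∧ e' ∉ Z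
  let Ev : Set (W × W × List (Λ × Λ × Bool)) := {b | lev b.1 = n ∧ lev b.2.1 ≤ n ∧
    Walk2 o t col b.1 b.2.1 b.2.2 ∧ b.2.2.length = 6 * (lev b.2.1 + 1) ∧ ∃ Z, P b Z}
  have hfin : Ev.Finite := by
    have h1 : (⋃ u ∈ VW n, ⋃ u' ∈ (range (n + 1)).biUnion VW,
        (fun l => (u, u', l)) '' {l | Walk2 o t col u u' l ∧ l.length = 6 * (lev u' + 1)}).Finite :=
      (VW n).finite_toSet.biUnion fun u _ =>
        ((range (n + 1)).biUnion VW).finite_toSet.biUnion fun u' _ =>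
          (finite_walk2 o t col ho ht u u' _).image _
    refine h1.subset ?_
    rintro ⟨u, u', l⟩ ⟨h2, h3, h4, h5, -⟩
    simp only [Set.mem_iUnion]
    refine ⟨u, (hVW _ _).2 h2, u', mem_biUnion.2 ⟨lev u', mem_range.2 (Nat.lt_succ_of_le h3),
      (hVW _ _).2 rfl⟩, l, ⟨h4, h5⟩, rfl⟩
  let ev := hfin.toFinset
  have hev : ∀ b, b ∈ ev ↔ b ∈ Ev := fun b => hfin.mem_toFinset
  let Z : W × W × List (Λ × Λ × Bool) → Finset Λ := fun b =>
    if h : ∃ Z, P b Z then h.choose else ∅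
  have hZ : ∀ b ∈ ev, P b (Z b) := by
    intro b hb
    have h := ((hev b).1 hb).2.2.2.2
    simp only [Z, dif_pos h]
    exact h.choose_spec
  let supp : W × W × List (Λ × Λ × Bool) → Finset Λ := fun b =>
    (b.2.2.map fun x => x.1).toFinset ∪ (b.2.2.map fun x => x.2.1).toFinset
  have hsupp : ∀ b x, x ∈ supp b ↔ (∃ y ∈ b.2.2, y.1 = x) ∨ ∃ y ∈ b.2.2, y.2.1 = x := by
    intro b x
    simp only [supp, mem_union, List.mem_toFinset, List.mem_map]
  suffices H : ∃ r : Λ → Fin Q, (∀ x, x ∉ VE n → r x = r0 x) ∧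
      ∀ b ∈ ev, ¬ ∀ x ∈ b.2.2, r x.1 = r x.2.1 by
    obtain ⟨r, hr1, hr2⟩ := H
    refine ⟨r, fun x hx => hr1 x fun h => hx ((hVE _ _).1 h), ?_⟩
    intro u u' l Z0 h1 h2 h3 h4 h5 h6
    exact hr2 (u, u', l) ((hev _).2 ⟨h1, h2, h3, h4, Z0, h5, h6⟩)
  refine rosenfeld (R := Fin Q) (VE n) r0 ev supp Z
    (fun b r => ∀ x ∈ b.2.2, r x.1 = r x.2.1) ?_ ?_ ?_ ?_ ?_ ?_
  · intro b _ r r' h1 h2 x hx
    rw [← h1 _ ((hsupp b _).2 (Or.inl ⟨x, hx, rfl⟩)), ← h1 _ ((hsupp b _).2 (Or.inr ⟨x, hx, rfl⟩))]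
    exact h2 x hx
  · intro b hb e he
    obtain ⟨e', c, h1, -⟩ := (hZ b hb).2 e he
    obtain ⟨h2, -, h3, -⟩ := (hev b).1 hb
    rw [hVE, ← h2]
    exact (lab_walk2_lev lev hlt h3 _ h1).1
  · intro b hb e he
    obtain ⟨e', c, h1, -⟩ := (hZ b hb).2 e he
    exact (hsupp b e).2 (Or.inl ⟨_, h1, rfl⟩)
  · intro b hb
    have := (hZ b hb).1
    rw [← card_pos]; omega
  · intro b hb r r' h1 h2 h3
    funext e
    by_cases he : e ∈ Z b
    · obtain ⟨e', c, h4, h5⟩ := (hZ b hb).2 e he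
      have h6 := h2 _ h4
      have h7 := h3 _ h4
      simp only at h6 h7
      rw [h6, h7, h1 e' h5]
    · exact h1 e he
  · intro x hx
    have hxn : lev (o x) = n := (hVE _ _).1 hx
    have hQ' : (0 : ℝ) < Q := by exact_mod_cast (by omega : 0 < Q)
    have hle : (2 : ℝ) / Q ≤ 1 := by
      rw [div_le_one hQ']; exact_mod_cast hQ2
    rw [Fintype.card_fin]
    rw [← sum_fiberwise_of_maps_to (t := range (n + 1)) (g := fun b => lev b.2.1)
      (fun b hb => mem_range.2 (Nat.lt_succ_of_le ((hev b).1 (mem_filter.1 hb).1).2.1))]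
    refine (sum_le_sum fun m _ => ?_).trans (lab_geom (n + 1))
    refine le_trans ?_ (lab_num (2 * Fintype.card C) M Q hQ (by omega) m)
    set T := (ev.filter fun b => x ∈ supp b).filter fun b => lev b.2.1 = m with hT
    have h1 : ∑ b ∈ T, ((2 : ℝ) / Q) ^ #(Z b) ≤ #T * ((2 : ℝ) / Q) ^ (m + 1) := by
      rw [← nsmul_eq_mul]
      refine sum_le_card_nsmul _ _ _ fun b hb => ?_
      obtain ⟨h2, h3⟩ := mem_filter.1 hb
      have h4 := (hZ b (mem_filter.1 h2).1).1
      exact pow_le_pow_of_le_one (by positivity) hle (by omega)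
    refine h1.trans (mul_le_mul_of_nonneg_right ?_ (by positivity))
    have h2 : T ⊆ (T.filter fun b => ∃ y ∈ b.2.2, y.1 = x) ∪
        (T.filter fun b => ∃ y ∈ b.2.2, y.2.1 = x) := by
      intro b hb
      rcases (hsupp b x).1 (mem_filter.1 (mem_filter.1 hb).1).2 with h | h
      · exact mem_union_left _ (mem_filter.2 ⟨hb, h⟩)
      · exact mem_union_right _ (mem_filter.2 ⟨hb, h⟩)
    have h3 := count_fst o t col ho ht (VW m) (6 * (m + 1)) x
      (T.filter fun b => ∃ y ∈ b.2.2, y.1 = x) (by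
        intro b hb
        obtain ⟨h3, h4⟩ := mem_filter.1 hb
        obtain ⟨h5, h6⟩ := mem_filter.1 h3
        obtain ⟨-, -, h7, h8, -⟩ := (hev b).1 (mem_filter.1 h5).1
        exact ⟨(hVW _ _).2 h6, h7, by rw [h8, h6], h4⟩)
    have h4 := count_snd o t col ho ht (VW m) (6 * (m + 1)) x
      (T.filter fun b => ∃ y ∈ b.2.2, y.2.1 = x) (by
        intro b hb
        obtain ⟨h3, h4⟩ := mem_filter.1 hb
        obtain ⟨h5, h6⟩ := mem_filter.1 h3
        obtain ⟨h9, -, h7, h8, -⟩ := (hev b).1 (mem_filter.1 h5).1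
        refine ⟨(hVW _ _).2 ?_, h7, by rw [h8, h6], h4⟩
        obtain ⟨y, hy, rfl⟩ := h4
        rw [h9, ← hxn, (lab_walk2_lev lev hlt h7 y hy).2, h6])
    have h5 := (card_le_card h2).trans (card_union_le _ _)
    have h6 : 6 * (m + 1) * (2 * Fintype.card C) ^ (6 * (m + 1)) * #(VW m) ≤
        6 * (m + 1) * (2 * Fintype.card C) ^ (6 * (m + 1)) * M ^ (m + 1) :=
      Nat.mul_le_mul_left _ (hM m)
    have h7 : #T ≤ 2 * (6 * (m + 1) * (2 * Fintype.card C) ^ (6 * (m + 1)) * M ^ (m + 1)) := by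
      omega
    exact_mod_cast h7

/-- The random labelling of all levels. -/
lemma lab_all {W Λ C : Type} [Fintype C] (o t : Λ → W) (col : Λ → C)
    (ho : ∀ e e', col e = col e' → o e = o e' → e = e')
    (ht : ∀ e e', col e = col e' → t e = t e' → e = e') (lev : W → ℕ)
    (hlt : ∀ e, lev (t e) = lev (o e)) (M : ℕ) (VW : ℕ → Finset W)
    (hVW : ∀ n v, v ∈ VW n ↔ lev v = n) (hM : ∀ n, #(VW n) ≤ M ^ (n + 1)) (VE : ℕ → Finset Λ)
    (hVE : ∀ n e, e ∈ VE n ↔ lev (o e) = n) :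
    ∃ (Q : ℕ) (r : Λ → Fin Q),
      ∀ (u u' : W) (l : List (Λ × Λ × Bool)) (Z : Finset Λ), lev u' ≤ lev u →
        Walk2 o t col u u' l → l.length = 6 * (lev u' + 1) → lev u' + 1 ≤ #Z →
        (∀ e ∈ Z, ∃ e' b, (e, e', b) ∈ l ∧ e' ∉ Z) → ¬ ∀ x ∈ l, r x.1 = r x.2.1 := by
  obtain ⟨Q, hQ, hQ2⟩ : ∃ Q, 8 * (12 * (2 * Fintype.card C) ^ 6 * M) ≤ Q ∧ 2 ≤ Q :=
    ⟨_, le_max_left _ 2, le_max_right _ _⟩
  choose st h1 h2 using lab_step o t col ho ht lev hlt M VW hVW hM VE hVE Q hQ hQ2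
  let sq : ℕ → Λ → Fin Q := fun n => Nat.rec (fun _ => ⟨0, by omega⟩) (fun k r => st k r) n
  have hsq : ∀ n, sq (n + 1) = st n (sq n) := fun n => rfl
  have hst : ∀ x k, lev (o x) ≤ k → sq (k + 1) x = sq (lev (o x) + 1) x := by
    intro x k hk
    induction k, hk using Nat.le_induction with
    | base => rfl
    | succ k hk ih => rw [hsq (k + 1), h1 _ _ _ (by omega), ih]
  refine ⟨Q, fun x => sq (lev (o x) + 1) x, ?_⟩
  intro u u' l Z a1 a2 a3 a4 a5 a6
  refine h2 (lev u) (sq (lev u)) u u' l Z rfl a1 a2 a3 a4 a5 fun x hx => ?_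
  obtain ⟨b1, b2⟩ := lab_walk2_lev lev hlt a2 x hx
  rw [← hsq, hst _ _ b1.le, hst _ _ (b2.le.trans a1)]
  exact a6 x hx

theorem exists_LG : ∃ (S : Type) (_ : Fintype S) (_ : DecidableEq S) (G : LG S), G.SC ∧
    (∀ n, 40 ≤ G.L n) ∧ (∀ R, {n | G.L n ≤ R}.Finite) ∧ ∀ n, ∃ (V E : Type) (_ : Fintype V)
      (_ : Fintype E) (_ : DecidableEq V) (_ : DecidableEq E) (a b : E → V) (t : E → Bool) (g : ℕ)
      (iV : V → G.W) (iE : E → G.Λ), Good a b t g ∧ Function.Injective iV ∧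
      Function.Injective iE ∧ (∀ v, G.lev (iV v) = n) ∧
      (∀ e, G.o (iE e) = iV (a e) ∧ G.t (iE e) = iV (b e) ∧ G.tb (iE e) = t e) ∧
      ∀ l, G.lev (G.o l) = n → ∃ e, iE e = l := by
  classical
  choose N E iF iD a b t hG using fun n : ℕ => exists_good (120 * (n + 1)) (by omega)
  choose col p hc1 hc2 hp using fun n => lab_level (hG n)
  obtain ⟨M, hM⟩ : ∃ M : ℕ, ∀ n, N n ≤ M ^ (n + 1) := by
    refine ⟨100000 ^ 120, fun n => ?_⟩
    have := (hG n).size
    rwa [Fintype.card_fin, pow_mul] at this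
  let W := Σ n, Fin (N n)
  let Λ := Σ n, E n
  let o : Λ → W := fun e => ⟨e.1, a e.1 e.2⟩
  let tt : Λ → W := fun e => ⟨e.1, b e.1 e.2⟩
  let cl : Λ → Fin 200000 × Fin 200000 := fun e => col e.1 e.2
  have ho : ∀ e e', cl e = cl e' → o e = o e' → e = e' := by
    rintro ⟨n, e⟩ ⟨n', e'⟩ h1 h2
    obtain rfl : n = n' := congrArg Sigma.fst h2
    have h3 : a n e = a n e' := sigma_mk_injective (β := fun n => Fin (N n)) h2
    rw [hc1 n e e' h1 h3]
  have ht : ∀ e e', cl e = cl e' → tt e = tt e' → e = e' := by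
    rintro ⟨n, e⟩ ⟨n', e'⟩ h1 h2
    obtain rfl : n = n' := congrArg Sigma.fst h2
    have h3 : b n e = b n e' := sigma_mk_injective (β := fun n => Fin (N n)) h2
    rw [hc2 n e e' h1 h3]
  let VW : ℕ → Finset W := fun n => univ.image (Sigma.mk n)
  have hVW : ∀ n v, v ∈ VW n ↔ v.1 = n := by
    rintro n ⟨n', v⟩
    constructor
    · intro h
      obtain ⟨w, -, h⟩ := mem_image.1 h
      exact (congrArg Sigma.fst h).symm
    · rintro rfl
      exact mem_image.2 ⟨v, mem_univ _, rfl⟩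
  let VE : ℕ → Finset Λ := fun n => univ.image (Sigma.mk n)
  have hVE : ∀ n e, e ∈ VE n ↔ e.1 = n := by
    rintro n ⟨n', v⟩
    constructor
    · intro h
      obtain ⟨w, -, h⟩ := mem_image.1 h
      exact (congrArg Sigma.fst h).symm
    · rintro rfl
      exact mem_image.2 ⟨v, mem_univ _, rfl⟩
  obtain ⟨Q, r, hr⟩ := lab_all o tt cl ho ht Sigma.fst (fun e => rfl) M VW hVW
    (fun n => card_image_le.trans (by simpa using hM n)) VE hVE
  let G : LG ((Fin 200000 × Fin 200000) × Fin Q) :=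
    { W := W
      Λ := Λ
      o := o
      t := tt
      lab := fun e => (cl e, r e)
      tb := fun e => t e.1 e.2
      π := fun s => Equiv.sigmaCongrRight fun n => p n s.1
      hπ := by
        rintro ⟨n, e⟩
        exact congrArg (Sigma.mk n) (hp n e)
      fold := fun e e' h1 h2 => ho e e' (congrArg Prod.fst h1) h2
      lev := Sigma.fst
      lev_t := fun e => rfl
      L := fun n => 120 * (n + 1)
      finW := fun n => (VW n).finite_toSet.subset fun v hv => (hVW n v).2 hv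
      finΛ := fun n => (VE n).finite_toSet.subset fun v hv => (hVE n v).2 hv
      girth := by
        intro n c hc h1 h2
        by_contra hcon
        push Not at hcon
        have h3 := lab_cycle o tt c h2
        set U := c.support.image o ∪ c.support.image tt with hU
        have h4 : #{e : E n | (⟨n, e⟩ : Λ) ∈ c.support} = #c.support := by
          refine card_bij (fun e _ => ⟨n, e⟩) (fun e he => (mem_filter.1 he).2)
            (fun e _ e' _ h => sigma_mk_injective h) ?_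
          rintro ⟨n', e⟩ he
          obtain rfl : n' = n := h1 _ he
          exact ⟨e, mem_filter.2 ⟨mem_univ _, he⟩, rfl⟩
        have h5 : #{v : Fin (N n) | (⟨n, v⟩ : W) ∈ U} ≤ #U :=
          card_le_card_of_injOn (fun v => ⟨n, v⟩) (fun e he => (mem_filter.1 he).2)
            (fun e _ e' _ h => sigma_mk_injective (β := fun n => Fin (N n)) h)
        have h6 := (hG n).girth {e : E n | (⟨n, e⟩ : Λ) ∈ c.support}
          {v : Fin (N n) | (⟨n, v⟩ : W) ∈ U}
          (by rw [← card_pos, h4, card_pos]; exact Finsupp.support_nonempty_iff.2 hc)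
          (by omega) (by
            intro e he
            have h7 := (mem_filter.1 he).2
            exact ⟨mem_filter.2 ⟨mem_univ _, mem_union_left _ (mem_image_of_mem o h7)⟩,
              mem_filter.2 ⟨mem_univ _, mem_union_right _ (mem_image_of_mem tt h7)⟩⟩)
        omega }
  have key : ∀ u u' : G.W, u ≠ u' → G.lev u' ≤ G.lev u → ∀ D : Finset (Edg _),
      (∀ ε ∈ D, LG.Ed (G.ch 1 u) ε ∧ LG.Ed (G.ch 1 u') ε) → #D < 3 * (G.lev u' + 1) := by
    intro u u' hne hl D hD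
    by_contra hcon
    push Not at hcon
    obtain ⟨l, h1, h2, Z, h3, h4⟩ := walk_of_piece G u u' hne D hD _ hcon
      (show _ < 120 * (G.lev u + 1) by omega) (show _ < 120 * (G.lev u' + 1) by omega)
    obtain ⟨h5, h6⟩ := lab_walk2_prod (col := cl) (r := r) h1
    exact hr u u' l Z hl h5 (show _ = 6 * (G.lev u' + 1) by omega)
      (show G.lev u' + 1 ≤ _ by omega) h4 h6
  refine ⟨_, inferInstance, inferInstance, G, ?_, fun n => show 40 ≤ 120 * (n + 1) by omega,
    fun R => (Set.finite_Iic R).subset fun n (hn : 120 * (n + 1) ≤ R) => show n ≤ R by omega,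
    fun n => ⟨Fin (N n), E n, inferInstance, iF n, inferInstance, iD n, a n, b n, t n,
      120 * (n + 1), fun v => (⟨n, v⟩ : W), fun e => (⟨n, e⟩ : Λ), hG n,
      sigma_mk_injective (β := fun n => Fin (N n)), sigma_mk_injective,
      fun v => rfl, fun e => ⟨rfl, rfl, rfl⟩, ?_⟩⟩
  · intro u u' hne D hD
    show _ < 120 * (G.lev u + 1)
    rcases le_total (G.lev u') (G.lev u) with h | h
    · have := key u u' hne h D hD
      omega
    · have := key u' u hne.symm h D fun ε hε => (hD ε hε).symm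
      omega
  · rintro ⟨n', e⟩ h
    obtain rfl : n' = n := h
    exact ⟨e, rfl⟩

end Pool.Agent.H839Z.CE
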