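import Pool.Agent.H839Z.CE.Good
import Pool.Agent.H616Z.Coarse.Core

/-! A Poincaré type inequality on the `ZMod 2`-homology covers of the base graphs. -/

set_option autoImplicit false

namespace Pool.Agent.H839Z.CE

open Finset
open Pool.Agent.H616Z.Coarse (chi chi_add abs_sg parseval)

section

variable {V E : Type} [Fintype V] [Fintype E] [DecidableEq V] [DecidableEq E]
  {a b : E → V} {t : E → Bool} {g : ℕ}

omit [DecidableEq E] in
lemma exists_core (hG : Good a b t g) : ∃ V' : Finset V, 9 * Fintype.card V ≤ 10 * #V' ∧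
    ∀ S : Finset V, S ⊆ V' → 2 * #S ≤ #V' →
      #S ≤ #{e | (t e = false ∧ a e ∈ V' ∧ b e ∈ V') ∧ ¬(a e ∈ S ↔ b e ∈ S)} := by
  classical
  set cut : Finset V → ℕ := fun W => #{e | t e = false ∧ ¬(a e ∈ W ↔ b e ∈ W)} with hcut
  set 𝒵 : Finset (Finset V) := {W | 10 * #W ≤ 9 * Fintype.card V ∧ cut W ≤ #W} with h𝒵
  have hne : 𝒵.Nonempty := ⟨∅, by simp [h𝒵, hcut]⟩
  have hpos := hG.pos
  have hsmall : ∀ W ∈ 𝒵, 10 * #W < Fintype.card V := by
    intro W hW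
    simp only [h𝒵, mem_filter, mem_univ, true_and] at hW
    by_contra hcon
    push Not at hcon
    have h1 := hG.expand W {e | t e = false ∧ ¬(a e ∈ W ↔ b e ∈ W)} hcon hW.1
      (fun e h1 h2 => mem_filter.2 ⟨mem_univ _, h1, h2⟩)
    have h2 : cut W ≤ #W := hW.2
    simp only [hcut] at h2
    omega
  obtain ⟨Z, hZ, hmax⟩ := exists_max_image 𝒵 card hne
  have h1 := hsmall Z hZ
  have hc := card_compl Z
  have hZV : #Z ≤ Fintype.card V := card_le_univ Z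
  refine ⟨Zᶜ, by omega, fun S hS hS2 => ?_⟩
  by_contra hcon
  rw [not_le] at hcon
  have hdis : Disjoint Z S := by
    rw [disjoint_right]
    intro x hx
    exact mem_compl.1 (hS hx)
  have h2 : #(Z ∪ S) = #Z + #S := card_union_of_disjoint hdis
  have h3 : cut (Z ∪ S) ≤ cut Z +
      #{e | (t e = false ∧ a e ∈ Zᶜ ∧ b e ∈ Zᶜ) ∧ ¬(a e ∈ S ↔ b e ∈ S)} := by
    refine le_trans (card_le_card ?_) (card_union_le _ _)
    intro e he
    simp only [mem_filter, mem_univ, true_and, mem_union, mem_compl] at he ⊢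
    tauto
  have h4 : Z ∪ S ∈ 𝒵 := by
    simp only [h𝒵, mem_filter, mem_univ, true_and] at hZ ⊢
    refine ⟨by omega, ?_⟩
    have := hZ.2
    omega
  have h5 := hmax _ h4
  omega

omit [Fintype V] [Fintype E] [DecidableEq E] in
lemma coarea' {V' : Finset V} {E' : Finset E} (hE : ∀ e ∈ E', a e ∈ V' ∧ b e ∈ V')
    (hS : ∀ S : Finset V, S ⊆ V' → 2 * #S ≤ #V' → #S ≤ #{e ∈ E' | ¬(a e ∈ S ↔ b e ∈ S)}) :
    ∀ (n : ℕ) (φ : V → ℝ), (∀ x, 0 ≤ φ x) → #{x ∈ V' | φ x ≠ 0} ≤ n → 2 * n ≤ #V' →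
      ∑ x ∈ V', φ x ≤ ∑ e ∈ E', |φ (a e) - φ (b e)| := by
  intro n
  induction n with
  | zero =>
    intro φ _ h _
    have h1 : ∀ x ∈ V', φ x = 0 := by
      intro x hx'
      by_contra hx
      have : x ∈ ({x ∈ V' | φ x ≠ 0} : Finset V) := mem_filter.2 ⟨hx', hx⟩
      have := card_pos.2 ⟨x, this⟩
      omega
    rw [sum_eq_zero h1]
    exact sum_nonneg fun _ _ => abs_nonneg _
  | succ n ih =>
    intro φ h0 h hn
    by_cases hle : #{x ∈ V' | φ x ≠ 0} ≤ n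
    · exact ih φ h0 hle (by omega)
    set S : Finset V := {x ∈ V' | φ x ≠ 0} with hSdef
    have hne : S.Nonempty := by rw [← card_pos]; omega
    obtain ⟨x₀, hx₀, hmin⟩ := exists_min_image S φ hne
    set μ := φ x₀ with hμ
    have hμ0 : 0 ≤ μ := h0 x₀
    have hzero : ∀ x ∈ V', x ∉ S → φ x = 0 := by
      intro x hx hxS
      by_contra h3
      exact hxS (mem_filter.2 ⟨hx, h3⟩)
    set φ' : V → ℝ := fun x => if x ∈ S then φ x - μ else φ x with hφ'
    have h1 : ∀ x, 0 ≤ φ' x := by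
      intro x
      by_cases hx : x ∈ S
      · simp only [hφ', if_pos hx, sub_nonneg]
        exact hmin x hx
      · simp only [hφ', if_neg hx]
        exact h0 x
    have h2 : ({x ∈ V' | φ' x ≠ 0} : Finset V) ⊆ S.erase x₀ := by
      intro x hx
      have hx' : φ' x ≠ 0 := (mem_filter.1 hx).2
      rw [mem_erase]
      constructor
      · rintro rfl
        apply hx'
        simp only [hφ', if_pos hx₀, hμ, sub_self]
      · by_contra hxS
        apply hx'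
        simp only [hφ', if_neg hxS]
        exact hzero x (mem_filter.1 hx).1 hxS
    have h3 : #({x ∈ V' | φ' x ≠ 0} : Finset V) ≤ n := by
      have := card_le_card h2
      rw [card_erase_of_mem hx₀] at this
      omega
    have h4 := ih φ' h1 h3 (by omega)
    have hSV : S ⊆ V' := filter_subset _ _
    have h5 : (#S : ℝ) ≤ #{e ∈ E' | ¬(a e ∈ S ↔ b e ∈ S)} := by
      exact_mod_cast hS S hSV (by omega)
    have h6 : ∑ x ∈ V', φ x = ∑ x ∈ V', φ' x + μ * #S := by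
      have : (#S : ℝ) = ∑ x ∈ V', if x ∈ S then (1 : ℝ) else 0 := by
        rw [sum_boole, filter_mem_eq_inter, inter_eq_right.2 hSV]
      rw [this, mul_sum, ← sum_add_distrib]
      refine sum_congr rfl fun x _ => ?_
      simp only [hφ']
      split_ifs <;> ring
    have h7 : ∀ x ∈ V', ∀ y ∈ V', |φ x - φ y| =
        |φ' x - φ' y| + μ * if ¬(x ∈ S ↔ y ∈ S) then 1 else 0 := by
      intro x hxV y hyV
      have hx1 := h1 x
      have hy1 := h1 y
      by_cases hx : x ∈ S <;> by_cases hy : y ∈ S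
      · simp [hφ', hx, hy]
      · have hy0 : φ y = 0 := hzero y hyV hy
        simp only [hφ', if_pos hx, if_neg hy, hy0, sub_zero] at hx1 ⊢
        rw [abs_of_nonneg (h0 x), abs_of_nonneg hx1]
        simp [hx, hy]
      · have hx0 : φ x = 0 := hzero x hxV hx
        simp only [hφ', if_neg hx, if_pos hy, hx0, zero_sub, abs_neg] at hy1 ⊢
        rw [abs_of_nonneg (h0 y), abs_of_nonneg hy1]
        simp [hx, hy]
      · simp [hφ', hx, hy]
    have h8 : ∑ e ∈ E', |φ (a e) - φ (b e)| =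
        ∑ e ∈ E', |φ' (a e) - φ' (b e)| + μ * #{e ∈ E' | ¬(a e ∈ S ↔ b e ∈ S)} := by
      rw [← sum_boole, mul_sum, ← sum_add_distrib]
      exact sum_congr rfl fun e he => h7 _ (hE e he).1 _ (hE e he).2
    rw [h6, h8]
    nlinarith

omit [Fintype V] [Fintype E] [DecidableEq E] in
lemma sum_end_le {V' : Finset V} {E' : Finset E} (c : E → V) (hc : ∀ e ∈ E', c e ∈ V')
    (hd : ∀ v, #{e ∈ E' | c e = v} ≤ 200000) (f : V → ℝ) (hf : ∀ v, 0 ≤ f v) :
    ∑ e ∈ E', f (c e) ≤ 200000 * ∑ v ∈ V', f v := by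
  rw [← sum_fiberwise_of_maps_to hc, mul_sum]
  refine sum_le_sum fun v _ => ?_
  rw [sum_congr rfl (g := fun _ => f v) fun e he => by rw [(mem_filter.1 he).2], sum_const,
    nsmul_eq_mul]
  exact mul_le_mul_of_nonneg_right (by exact_mod_cast hd v) (hf v)

lemma amgm' {x y : ℝ} (hx : 0 ≤ x) (hy : 0 ≤ y) :
    |x ^ 2 - y ^ 2| ≤ (x ^ 2 + y ^ 2) / 800000 + 400000 * (x - y) ^ 2 := by
  rw [show x ^ 2 - y ^ 2 = (x - y) * (x + y) by ring, abs_mul, abs_of_nonneg (add_nonneg hx hy),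
    ← sq_abs (x - y)]
  nlinarith [sq_nonneg ((x + y) / 800000 - |x - y|), sq_nonneg (x - y), abs_nonneg (x - y)]

omit [Fintype V] [DecidableEq V] in
lemma exists_median (V' : Finset V) (hne : V'.Nonempty) (h : V → ℝ) :
    ∃ m : ℝ, 2 * #{v ∈ V' | m < h v} ≤ #V' ∧ 2 * #{v ∈ V' | h v < m} ≤ #V' := by
  classical
  obtain ⟨w, hw, hwmax⟩ := exists_max_image V' h hne
  have hne2 : ({v ∈ V' | 2 * #{u ∈ V' | h v < h u} ≤ #V'} : Finset V).Nonempty := by
    refine ⟨w, mem_filter.2 ⟨hw, ?_⟩⟩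
    have : ({u ∈ V' | h w < h u} : Finset V) = ∅ :=
      filter_eq_empty_iff.2 fun u hu => not_lt.2 (hwmax u hu)
    rw [this]
    simp
  obtain ⟨v₀, hv₀, hmin⟩ := exists_min_image _ h hne2
  refine ⟨h v₀, (mem_filter.1 hv₀).2, ?_⟩
  rcases ({v ∈ V' | h v < h v₀} : Finset V).eq_empty_or_nonempty with he | he
  · rw [he]; simp
  obtain ⟨w₀, hw₀, hw₀max⟩ := exists_max_image _ h he
  have h1 : ¬ 2 * #{u ∈ V' | h w₀ < h u} ≤ #V' := fun hcon =>
    absurd (hmin w₀ (mem_filter.2 ⟨(mem_filter.1 hw₀).1, hcon⟩)) (not_le.2 (mem_filter.1 hw₀).2)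
  have h2 : Disjoint ({u ∈ V' | h w₀ < h u} : Finset V) {v ∈ V' | h v < h v₀} := by
    rw [disjoint_left]
    intro u hu hu'
    exact absurd (hw₀max u hu') (not_le.2 (mem_filter.1 hu).2)
  have h3 := card_union_of_disjoint h2
  have h4 : #(({u ∈ V' | h w₀ < h u} : Finset V) ∪ {v ∈ V' | h v < h v₀}) ≤ #V' :=
    card_le_card (union_subset (filter_subset _ _) (filter_subset _ _))
  omega

omit [Fintype V] [Fintype E] [DecidableEq E] in
lemma half_poinc {V' : Finset V} {E' : Finset E} (hE : ∀ e ∈ E', a e ∈ V' ∧ b e ∈ V')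
    (hS : ∀ S : Finset V, S ⊆ V' → 2 * #S ≤ #V' → #S ≤ #{e ∈ E' | ¬(a e ∈ S ↔ b e ∈ S)})
    (hda : ∀ v, #{e ∈ E' | a e = v} ≤ 200000) (hdb : ∀ v, #{e ∈ E' | b e = v} ≤ 200000)
    (h : V → ℝ) (hh : 2 * #{v ∈ V' | 0 < h v} ≤ #V') :
    ∑ v ∈ V', max (h v) 0 ^ 2 ≤ 800000 * ∑ e ∈ E', (h (a e) - h (b e)) ^ 2 := by
  have h1 := coarea' hE hS _ (fun v => max (h v) 0 ^ 2) (fun v => sq_nonneg _) (card_le_card (by
    intro v hv
    refine mem_filter.2 ⟨(mem_filter.1 hv).1, (?_ : 0 < h v)⟩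
    by_contra hcon
    apply (mem_filter.1 hv).2
    rw [max_eq_right (not_lt.1 hcon)]
    simp)) hh
  have h2 := sum_end_le a (fun e he => (hE e he).1) hda (fun v => max (h v) 0 ^ 2)
    (fun v => sq_nonneg _)
  have h3 := sum_end_le b (fun e he => (hE e he).2) hdb (fun v => max (h v) 0 ^ 2)
    (fun v => sq_nonneg _)
  have h4 : ∑ e ∈ E', |max (h (a e)) 0 ^ 2 - max (h (b e)) 0 ^ 2| ≤
      ∑ e ∈ E', ((max (h (a e)) 0 ^ 2 + max (h (b e)) 0 ^ 2) / 800000 +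
        400000 * (h (a e) - h (b e)) ^ 2) := by
    refine sum_le_sum fun e _ => (amgm' (le_max_right _ _) (le_max_right _ _)).trans ?_
    have : (max (h (a e)) 0 - max (h (b e)) 0) ^ 2 ≤ (h (a e) - h (b e)) ^ 2 := by
      rw [sq_le_sq]
      exact abs_max_sub_max_le_abs _ _ _
    linarith
  rw [sum_add_distrib, ← sum_div, sum_add_distrib, ← mul_sum] at h4
  linarith

omit [Fintype V] [Fintype E] [DecidableEq E] in
lemma poinc_one {V' : Finset V} {E' : Finset E} (hne : V'.Nonempty)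
    (hE : ∀ e ∈ E', a e ∈ V' ∧ b e ∈ V')
    (hS : ∀ S : Finset V, S ⊆ V' → 2 * #S ≤ #V' → #S ≤ #{e ∈ E' | ¬(a e ∈ S ↔ b e ∈ S)})
    (hda : ∀ v, #{e ∈ E' | a e = v} ≤ 200000) (hdb : ∀ v, #{e ∈ E' | b e = v} ≤ 200000)
    (h : V → ℝ) :
    ∃ m : ℝ, ∑ v ∈ V', (h v - m) ^ 2 ≤ 1600000 * ∑ e ∈ E', (h (a e) - h (b e)) ^ 2 := by
  obtain ⟨m, hm1, hm2⟩ := exists_median V' hne h
  have h1 := half_poinc hE hS hda hdb (fun v => h v - m) (by simpa only [sub_pos] using hm1)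
  have h2 := half_poinc hE hS hda hdb (fun v => m - h v) (by simpa only [sub_pos] using hm2)
  refine ⟨m, ?_⟩
  have e1 : ∑ v ∈ V', (h v - m) ^ 2 =
      ∑ v ∈ V', max (h v - m) 0 ^ 2 + ∑ v ∈ V', max (m - h v) 0 ^ 2 := by
    rw [← sum_add_distrib]
    refine sum_congr rfl fun v _ => ?_
    rcases le_total m (h v) with hv | hv
    · rw [max_eq_left (sub_nonneg.2 hv), max_eq_right (sub_nonpos.2 hv)]
      ring
    · rw [max_eq_right (sub_nonpos.2 hv), max_eq_left (sub_nonneg.2 hv)]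
      ring
  have e2 : ∑ e ∈ E', (h (a e) - m - (h (b e) - m)) ^ 2 = ∑ e ∈ E', (h (a e) - h (b e)) ^ 2 :=
    sum_congr rfl fun e _ => by ring
  have e3 : ∑ e ∈ E', (m - h (a e) - (m - h (b e))) ^ 2 = ∑ e ∈ E', (h (a e) - h (b e)) ^ 2 :=
    sum_congr rfl fun e _ => by ring
  rw [e2] at h1
  rw [e3] at h2
  linarith

omit [DecidableEq E] in
lemma poinc_two (hG : Good a b t g) : ∃ V' : Finset V, Fintype.card V ≤ 2 * #V' ∧
    ∀ p q : V → ℝ, ∑ v ∈ V', (p v - q v) ^ 2 ≤ 10 ^ 13 *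
      ∑ e, if t e then (p (a e) - q (b e)) ^ 2
        else (p (a e) - p (b e)) ^ 2 + (q (a e) - q (b e)) ^ 2 := by
  obtain ⟨V', hV', hS⟩ := exists_core hG
  have hpos := hG.pos
  refine ⟨V', by omega, fun p q => ?_⟩
  have hne : V'.Nonempty := by rw [← card_pos]; omega
  have hdega : ∀ (E' : Finset E) v, #{e ∈ E' | a e = v} ≤ 200000 := fun E' v =>
    hG.deg v _ fun e he => Or.inl (mem_filter.1 he).2
  have hdegb : ∀ (E' : Finset E) v, #{e ∈ E' | b e = v} ≤ 200000 := fun E' v =>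
    hG.deg v _ fun e he => Or.inr (mem_filter.1 he).2
  set E₀ : Finset E := {e | t e = false ∧ a e ∈ V' ∧ b e ∈ V'} with hE₀
  set E₁ : Finset E := {e | t e = true ∧ a e ∈ V' ∧ b e ∈ V'} with hE₁
  have hE₀V : ∀ e ∈ E₀, a e ∈ V' ∧ b e ∈ V' := fun e he => (mem_filter.1 he).2.2
  have hE₁V : ∀ e ∈ E₁, a e ∈ V' ∧ b e ∈ V' := fun e he => (mem_filter.1 he).2.2
  have hS' : ∀ S : Finset V, S ⊆ V' → 2 * #S ≤ #V' → #S ≤ #{e ∈ E₀ | ¬(a e ∈ S ↔ b e ∈ S)} := by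
    intro S h1 h2
    rw [hE₀, filter_filter]
    exact hS S h1 h2
  obtain ⟨m, hm⟩ := poinc_one hne hE₀V hS' (hdega _) (hdegb _) p
  obtain ⟨n, hn⟩ := poinc_one hne hE₀V hS' (hdega _) (hdegb _) q
  have hT : #V' ≤ #E₁ := (card_le_univ V').trans
    (hG.inside V' E₁ hV' fun e h1 h2 h3 => mem_filter.2 ⟨mem_univ _, h1, h2, h3⟩)
  have hT' : (#V' : ℝ) ≤ #E₁ := by exact_mod_cast hT
  have h1 := sum_end_le a (fun e he => (hE₁V e he).1) (hdega _) (fun v => (p v - m) ^ 2)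
    (fun v => sq_nonneg _)
  have h2 := sum_end_le b (fun e he => (hE₁V e he).2) (hdegb _) (fun v => (q v - n) ^ 2)
    (fun v => sq_nonneg _)
  have h3 : #E₁ * (m - n) ^ 2 ≤ ∑ e ∈ E₁,
      3 * ((p (a e) - m) ^ 2 + (p (a e) - q (b e)) ^ 2 + (q (b e) - n) ^ 2) := by
    rw [← nsmul_eq_mul, ← sum_const]
    refine sum_le_sum fun e _ => ?_
    nlinarith [sq_nonneg (p (a e) - m + (p (a e) - q (b e))),
      sq_nonneg (p (a e) - m + (q (b e) - n)), sq_nonneg (p (a e) - q (b e) - (q (b e) - n))]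
  rw [← mul_sum, sum_add_distrib, sum_add_distrib] at h3
  have h4 : ∑ v ∈ V', (p v - q v) ^ 2 ≤
      ∑ v ∈ V', 3 * ((p v - m) ^ 2 + (m - n) ^ 2 + (q v - n) ^ 2) := by
    refine sum_le_sum fun v _ => ?_
    nlinarith [sq_nonneg (p v - m - (m - n)), sq_nonneg (p v - m + (q v - n)),
      sq_nonneg (m - n + (q v - n))]
  rw [← mul_sum, sum_add_distrib, sum_add_distrib, sum_const, nsmul_eq_mul] at h4
  have h5 : (#V' : ℝ) * (m - n) ^ 2 ≤ #E₁ * (m - n) ^ 2 :=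
    mul_le_mul_of_nonneg_right hT' (sq_nonneg _)
  have h6 : ∑ e ∈ E₁, (p (a e) - q (b e)) ^ 2 + (∑ e ∈ E₀, (p (a e) - p (b e)) ^ 2 +
      ∑ e ∈ E₀, (q (a e) - q (b e)) ^ 2) ≤ ∑ e, if t e then (p (a e) - q (b e)) ^ 2
        else (p (a e) - p (b e)) ^ 2 + (q (a e) - q (b e)) ^ 2 := by
    rw [sum_ite, ← sum_add_distrib]
    refine add_le_add (sum_le_sum_of_subset_of_nonneg ?_ fun _ _ _ => sq_nonneg _)
      (sum_le_sum_of_subset_of_nonneg ?_ fun _ _ _ => by positivity)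
    · intro e he
      exact mem_filter.2 ⟨mem_univ _, (mem_filter.1 he).2.1⟩
    · intro e he
      exact mem_filter.2 ⟨mem_univ _, by simp [(mem_filter.1 he).2.1]⟩
  have p1 : 0 ≤ ∑ e ∈ E₁, (p (a e) - q (b e)) ^ 2 := sum_nonneg fun _ _ => sq_nonneg _
  have p2 : 0 ≤ ∑ e ∈ E₀, (p (a e) - p (b e)) ^ 2 := sum_nonneg fun _ _ => sq_nonneg _
  have p3 : 0 ≤ ∑ e ∈ E₀, (q (a e) - q (b e)) ^ 2 := sum_nonneg fun _ _ => sq_nonneg _
  linarith

lemma three_abs (x y z : ℝ) :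
    (x - z) ^ 2 ≤ 12 * ((|x + y| - |y + z|) ^ 2 + (|x| - |y|) ^ 2 + (|y| - |z|) ^ 2) := by
  have h1 : |x - z| ≤ |(|x + y| - |y + z|)| + 2 * |(|x| - |y|)| + 2 * |(|y| - |z|)| := by
    have a1 := le_abs_self (|x + y| - |y + z|)
    have a2 := neg_abs_le (|x + y| - |y + z|)
    have a3 := le_abs_self (|x| - |y|)
    have a4 := neg_abs_le (|x| - |y|)
    have a5 := le_abs_self (|y| - |z|)
    have a6 := neg_abs_le (|y| - |z|)
    generalize |(|x + y| - |y + z|)| = A at *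
    generalize |(|x| - |y|)| = B at *
    generalize |(|y| - |z|)| = C at *
    rcases abs_cases x with ⟨b1, b2⟩ | ⟨b1, b2⟩ <;> rcases abs_cases y with ⟨c1, c2⟩ | ⟨c1, c2⟩ <;>
      rcases abs_cases z with ⟨d1, d2⟩ | ⟨d1, d2⟩ <;>
      rcases abs_cases (x + y) with ⟨e1, e2⟩ | ⟨e1, e2⟩ <;>
      rcases abs_cases (y + z) with ⟨f1, f2⟩ | ⟨f1, f2⟩ <;>
      rw [abs_le] <;> constructor <;> linarith
  rw [← sq_abs (x - z), ← sq_abs (|x + y| - |y + z|), ← sq_abs (|x| - |y|), ← sq_abs (|y| - |z|)]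
  have a0 := abs_nonneg (x - z)
  have a1 := abs_nonneg (|x + y| - |y + z|)
  have a2 := abs_nonneg (|x| - |y|)
  have a3 := abs_nonneg (|y| - |z|)
  generalize |(|x + y| - |y + z|)| = A at *
  generalize |(|x| - |y|)| = B at *
  generalize |(|y| - |z|)| = C at *
  have h2 := pow_le_pow_left₀ a0 h1 2
  nlinarith [sq_nonneg (A - 2 * B), sq_nonneg (A - 2 * C), sq_nonneg (B - C), sq_nonneg A]

lemma abs_twist {σ : ℝ} (hσ : |σ| = 1) (x y : ℝ) : (|x| - |y|) ^ 2 ≤ (x - σ * y) ^ 2 := by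
  rw [sq_le_sq]
  have := abs_abs_sub_abs_le_abs_sub x (σ * y)
  rwa [abs_mul, hσ, one_mul] at this

omit [DecidableEq E] in
lemma poinc_three (hG : Good a b t g) : ∃ V' : Finset V, Fintype.card V ≤ 2 * #V' ∧
    ∀ (P : V → ℤ → ℝ) (σ : E → ℝ), (∀ e, |σ e| = 1) → ∑ v ∈ V', (P v 0 - P v 2) ^ 2 ≤ 10 ^ 15 *
      ∑ k ∈ range 3, ∑ e, (P (a e) (k : ℤ) - σ e * P (b e) ((k : ℤ) + if t e then 1 else 0)) ^ 2 := by
  obtain ⟨V', hV', H⟩ := poinc_two hG
  refine ⟨V', hV', fun P σ hσ => ?_⟩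
  have h1 := H (fun v => |P v 0 + P v 1|) (fun v => |P v 1 + P v 2|)
  have h2 := H (fun v => |P v 0|) (fun v => |P v 1|)
  have h3 := H (fun v => |P v 1|) (fun v => |P v 2|)
  have h4 := sum_le_sum (s := V') fun v _ => three_abs (P v 0) (P v 1) (P v 2)
  rw [← mul_sum, sum_add_distrib, sum_add_distrib] at h4
  have h5 : (∑ e, if t e then (|P (a e) 0 + P (a e) 1| - |P (b e) 1 + P (b e) 2|) ^ 2
        else (|P (a e) 0 + P (a e) 1| - |P (b e) 0 + P (b e) 1|) ^ 2 +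
          (|P (a e) 1 + P (a e) 2| - |P (b e) 1 + P (b e) 2|) ^ 2) +
      (∑ e, if t e then (|P (a e) 0| - |P (b e) 1|) ^ 2
        else (|P (a e) 0| - |P (b e) 0|) ^ 2 + (|P (a e) 1| - |P (b e) 1|) ^ 2) +
      (∑ e, if t e then (|P (a e) 1| - |P (b e) 2|) ^ 2
        else (|P (a e) 1| - |P (b e) 1|) ^ 2 + (|P (a e) 2| - |P (b e) 2|) ^ 2) ≤
      6 * ∑ k ∈ range 3, ∑ e,
        (P (a e) (k : ℤ) - σ e * P (b e) ((k : ℤ) + if t e then 1 else 0)) ^ 2 := by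
    rw [sum_comm, mul_sum, ← sum_add_distrib, ← sum_add_distrib]
    refine sum_le_sum fun e _ => ?_
    have w := abs_twist (hσ e)
    simp only [sum_range_succ, sum_range_zero]
    cases t e
    · simp only [Bool.false_eq_true, if_false]
      norm_num
      nlinarith [w (P (a e) 0 + P (a e) 1) (P (b e) 0 + P (b e) 1),
        w (P (a e) 1 + P (a e) 2) (P (b e) 1 + P (b e) 2), w (P (a e) 0) (P (b e) 0),
        w (P (a e) 1) (P (b e) 1), w (P (a e) 2) (P (b e) 2),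
        sq_nonneg (P (a e) 0 - σ e * P (b e) 0 - (P (a e) 1 - σ e * P (b e) 1)),
        sq_nonneg (P (a e) 2 - σ e * P (b e) 2 - (P (a e) 1 - σ e * P (b e) 1)),
        sq_nonneg (P (a e) 0 - σ e * P (b e) 0), sq_nonneg (P (a e) 2 - σ e * P (b e) 2)]
    · simp only [if_true]
      norm_num
      nlinarith [w (P (a e) 0 + P (a e) 1) (P (b e) 1 + P (b e) 2), w (P (a e) 0) (P (b e) 1),
        w (P (a e) 1) (P (b e) 2),
        sq_nonneg (P (a e) 0 - σ e * P (b e) 1 - (P (a e) 1 - σ e * P (b e) 2)),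
        sq_nonneg (P (a e) 0 - σ e * P (b e) 1), sq_nonneg (P (a e) 1 - σ e * P (b e) 2),
        sq_nonneg (P (a e) 2 - σ e * P (b e) 3)]
  have p0 : 0 ≤ ∑ k ∈ range 3, ∑ e,
      (P (a e) (k : ℤ) - σ e * P (b e) ((k : ℤ) + if t e then 1 else 0)) ^ 2 :=
    sum_nonneg fun _ _ => sum_nonneg fun _ _ => sq_nonneg _
  linarith

end

theorem poincare : ∃ C : ℝ, 0 ≤ C ∧ ∀ {V E : Type} [Fintype V] [Fintype E] [DecidableEq V]
    [DecidableEq E] (a b : E → V) (t : E → Bool) (g : ℕ), Good a b t g →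
    ∃ V' : Finset V, Fintype.card V ≤ 2 * #V' ∧ ∀ F : V → (E → ZMod 2) → ℤ → ℝ,
      ∑ v ∈ V', ∑ δ, (F v δ 0 - F v δ 2) ^ 2 ≤ C * ∑ k ∈ range 3, ∑ e, ∑ δ,
        (F (a e) δ (k : ℤ) -
          F (b e) (δ + Pi.single e 1) ((k : ℤ) + if t e then 1 else 0)) ^ 2 := by
  refine ⟨10 ^ 15, by norm_num, ?_⟩
  intro V E _ _ _ _ a b t g hG
  obtain ⟨V', hV', H⟩ := poinc_three hG
  refine ⟨V', hV', fun F => ?_⟩
  set M : ℝ := ((Fintype.card (E → ZMod 2) : ℕ) : ℝ) with hM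
  have hM0 : 0 < M := by
    rw [hM]
    exact_mod_cast Fintype.card_pos
  set P : (E → ZMod 2) → V → ℤ → ℝ := fun s v k => ∑ δ, chi s δ * F v δ k with hP
  have e1 : ∀ s e k l, P s (a e) k - chi s (Pi.single e 1) * P s (b e) l =
      ∑ δ, chi s δ * (F (a e) δ k - F (b e) (δ + Pi.single e 1) l) := by
    intro s e k l
    simp only [hP, mul_sub, sum_sub_distrib]
    congr 1
    rw [← Equiv.sum_comp (Equiv.addRight (Pi.single e 1 : E → ZMod 2)), mul_sum]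
    refine sum_congr rfl fun δ _ => ?_
    simp only [Equiv.coe_addRight]
    rw [chi_add]
    have e2 : chi s (Pi.single e 1) * chi s (Pi.single e 1) = 1 := by
      rw [← abs_mul_abs_self, chi, abs_sg, mul_one]
    linear_combination (chi s δ * F (b e) (δ + Pi.single e 1) l) * e2
  have e2 : ∀ s v, P s v 0 - P s v 2 = ∑ δ, chi s δ * (F v δ 0 - F v δ 2) := by
    intro s v
    simp only [hP, mul_sub, sum_sub_distrib]
  have hmain := sum_le_sum (s := univ) fun s _ =>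
    H (P s) (fun e => chi s (Pi.single e 1)) (fun e => abs_sg _)
  simp only [e1, e2] at hmain
  rw [sum_comm, ← mul_sum, sum_comm (s := univ)] at hmain
  have e3 : ∀ k ∈ range 3, ∑ s, ∑ e, (∑ δ, chi s δ * (F (a e) δ (k : ℤ) -
      F (b e) (δ + Pi.single e 1) ((k : ℤ) + if t e then 1 else 0))) ^ 2 =
      M * ∑ e, ∑ δ, (F (a e) δ (k : ℤ) -
        F (b e) (δ + Pi.single e 1) ((k : ℤ) + if t e then 1 else 0)) ^ 2 := by
    intro k _
    rw [sum_comm, mul_sum]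
    exact sum_congr rfl fun e _ => parseval _
  rw [sum_congr rfl e3, ← mul_sum] at hmain
  simp only [parseval, ← hM, ← mul_sum] at hmain
  rw [mul_left_comm] at hmain
  exact le_of_mul_le_mul_left hmain hM0

end Pool.Agent.H839Z.CE
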