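import Pool.Agent.H839Z.CE.Green
import Pool.Agent.H839Z.CE.Poinc

/-! The central extension does not embed coarsely in Hilbert space. -/

set_option autoImplicit false

namespace Pool.Agent.H839Z.CE

open Finset FreeGroup

lemma groupoid {X Γ : Type} [Group Γ] (Rel : X → X → Γ → Prop) (h1 : ∀ ξ, Rel ξ ξ 1)
    (h2 : ∀ ξ ξ' γ, Rel ξ ξ' γ → Rel ξ' ξ γ⁻¹)
    (h3 : ∀ ξ ξ' ξ'' γ γ', Rel ξ ξ' γ → Rel ξ' ξ'' γ' → Rel ξ ξ'' (γ * γ'))
    (h4 : ∀ ξ γ, Rel ξ ξ γ → γ = 1) :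
    ∃ Φ : X → Γ, ∀ ξ ξ' γ, Rel ξ ξ' γ → Φ ξ' = Φ ξ * γ := by
  let s : Setoid X := ⟨fun ξ ξ' => ∃ γ, Rel ξ ξ' γ, ⟨fun ξ => ⟨1, h1 ξ⟩,
    fun ⟨γ, h⟩ => ⟨_, h2 _ _ γ h⟩, fun ⟨γ, h⟩ ⟨γ', h'⟩ => ⟨_, h3 _ _ _ γ γ' h h'⟩⟩⟩
  have hr : ∀ ξ, ∃ γ, Rel (Quotient.mk s ξ).out ξ γ := fun ξ => Quotient.mk_out (s := s) ξ
  choose Φ hΦ using hr
  refine ⟨Φ, fun ξ ξ' γ h => ?_⟩
  have e : Quotient.mk s ξ = Quotient.mk s ξ' := Quotient.sound ⟨γ, h⟩
  have a1 := hΦ ξ'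
  rw [← e] at a1
  have a2 := h4 _ _ (h3 _ _ _ _ _ (h3 _ _ _ _ _ (hΦ ξ) h) (h2 _ _ _ a1))
  exact (mul_inv_eq_one.1 a2).symm

lemma hasSum_sq (x y : lp (fun _ : ℕ => ℝ) 2) :
    HasSum (fun i => (x i - y i) ^ 2) (‖x - y‖ ^ 2) := by
  have := lp.hasSum_norm (p := 2) (by norm_num) (x - y)
  simpa using this

namespace LG

variable {S : Type} [DecidableEq S] {G : LG S}

lemma P_cocycle {A : Type*} [AddCommGroup A] (f : G.Λ → A) {u : G.W} {x : FreeGroup S}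
    (hx : G.Reach u x) (y : FreeGroup S) :
    P f (G.ch 1 u) 1 (x * y) = P f (G.ch 1 u) 1 x + P f (G.ch 1 (G.act x u)) 1 y := by
  have h1 : (G.ch 1 u).1 x = some (G.act x u) := G.psi_eq_some.2 (by simpa using hx)
  have h2 : G.ch 1 u = x • G.ch 1 (G.act x u) := by rw [smul_ch, mul_one]; exact eq_ch h1
  rw [← P_add f _ 1 x (x * y), ← P_smul f x (G.ch 1 (G.act x u)) 1 y, ← h2, mul_one]

variable (G) in
/-- Paths in the covering graph and the group elements they represent. -/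
def Rel (ξ ξ' : G.W × (G.Λ →₀ ZMod 2) × ℤ) (γ : Gam S ⧸ Nt G) : Prop :=
  ∃ (x : FreeGroup S) (k : ℤ), G.Reach ξ.1 x ∧ ξ'.1 = G.act x ξ.1 ∧
    ξ'.2.1 = ξ.2.1 + O (G.ch 1 ξ.1) 1 x ∧ ξ'.2.2 = ξ.2.2 + T (G.ch 1 ξ.1) 1 x + k ∧
    γ = ((x, Multiplicative.ofAdd (-k)) : Gam S)

lemma exists_dev : ∃ Φ : G.W × (G.Λ →₀ ZMod 2) × ℤ → Gam S ⧸ Nt G,
    ∀ ξ ξ' γ, Rel G ξ ξ' γ → Φ ξ' = Φ ξ * γ := by
  refine groupoid _ ?_ ?_ ?_ ?_
  · intro ξ
    exact ⟨1, 0, Reach.one, by simp, by simp [O], by simp [T], rfl⟩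
  · rintro ξ ξ' γ ⟨x, k, a1, a2, a3, a4, rfl⟩
    have b1 := P_cocycle (fun e => Finsupp.single e (1 : ZMod 2)) a1 x⁻¹
    have b2 := P_cocycle (fun e => if G.tb e then (G.lev (G.o e) : ℤ) else 0) a1 x⁻¹
    rw [mul_inv_cancel, P_self] at b1 b2
    refine ⟨x⁻¹, -k, a2 ▸ a1.symm, by rw [a2, act_inv], ?_, ?_, ?_⟩
    · rw [a3, a2, add_assoc, O, O, ← b1, add_zero]
    · rw [a4, a2, T, T]; linarith
    · rw [← QuotientGroup.mk_inv]; simp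
  · rintro ξ ξ' ξ'' γ γ' ⟨x, k, a1, a2, a3, a4, rfl⟩ ⟨y, l, c1, c2, c3, c4, rfl⟩
    have b1 := P_cocycle (fun e => Finsupp.single e (1 : ZMod 2)) a1 y
    have b2 := P_cocycle (fun e => if G.tb e then (G.lev (G.o e) : ℤ) else 0) a1 y
    refine ⟨x * y, k + l, a1.trans (a2 ▸ c1), by rw [c2, a2, act_mul], ?_, ?_, ?_⟩
    · rw [c3, a3, a2, add_assoc, O, O, O, b1]
    · rw [c4, a4, a2, T, T, T, b2]; ring
    · rw [← QuotientGroup.mk_mul, neg_add, ofAdd_add]; rfl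
  · rintro ξ γ ⟨x, k, a1, a2, a3, a4, rfl⟩
    rw [QuotientGroup.eq_one_iff]
    have h1 : (G.ch 1 ξ.1).1 x = some ξ.1 := G.psi_eq_some.2 (by simpa using ⟨a1, a2.symm⟩)
    have h2 := stab_of_eq (ch_self 1 ξ.1) h1
    rw [inv_one, mul_one] at h2
    refine Subgroup.mem_iSup_of_mem (G.ch 1 ξ.1) ⟨⟨h2, by simpa using a3⟩, ?_⟩
    change Multiplicative.ofAdd (-k) = Multiplicative.ofAdd (T (G.ch 1 ξ.1) 1 x)
    congr 1
    linarith

lemma rel_edge (e : G.Λ) (c : G.Λ →₀ ZMod 2) (κ : ℤ) :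
    Rel G (G.o e, c, κ) (G.t e, c + Finsupp.single e 1,
      κ + if G.tb e then (G.lev (G.o e) : ℤ) else 0) ((of (G.lab e), 1) : Gam S) := by
  have h1 : Over (G.ch 1 (G.o e)) (1, G.lab e) e := ⟨ch_self _ _, rfl⟩
  have e1 : tE ((1, G.lab e) : Edg S) = of (G.lab e) := by simp [tE]
  have h2 := O_edge h1
  have h3 := P_edge (fun e => if G.tb e then (G.lev (G.o e) : ℤ) else 0) h1
  rw [e1] at h2 h3
  refine ⟨of (G.lab e), 0, ?_, (G.act_o e).symm, by rw [← h2], ?_, rfl⟩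
  · simpa using Reach.fwd (G := G) (u := G.o e) 1 e Reach.one (by simp)
  · simp only [T, add_zero]
    rw [← h3]

lemma rel_fibre (u : G.W) (c : G.Λ →₀ ZMod 2) (κ k : ℤ) :
    Rel G (u, c, κ) (u, c, κ + k) ((1, Multiplicative.ofAdd (-k)) : Gam S) :=
  ⟨1, k, Reach.one, by simp, by simp [O], by simp [T], rfl⟩

theorem nonembed [Fintype S] (hSC : G.SC) (hL : ∀ n, 40 ≤ G.L n)
    (hlev : ∀ n, ∃ (V E : Type) (_ : Fintype V) (_ : Fintype E) (_ : DecidableEq V)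
      (_ : DecidableEq E) (a b : E → V) (t : E → Bool) (g : ℕ) (iV : V → G.W) (iE : E → G.Λ),
      Good a b t g ∧ (∀ v, G.lev (iV v) = n) ∧
      ∀ e, G.o (iE e) = iV (a e) ∧ G.t (iE e) = iV (b e) ∧ G.tb (iE e) = t e) :
    ¬ ∃ f : Gam S ⧸ Nt G → lp (fun _ : ℕ => ℝ) 2,
      (∀ g, ∃ C : ℝ, ∀ x, ‖f (x * g) - f x‖ ≤ C) ∧
      (∀ R : ℝ, {g | ∃ x, ‖f (x * g) - f x‖ ≤ R}.Finite) := by
  rintro ⟨f, hf1, hf2⟩
  obtain ⟨C, hC, hP⟩ := poincare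
  obtain ⟨Φ, hΦ⟩ := exists_dev (G := G)
  choose B hB using hf1
  obtain ⟨C0, hC0⟩ : ∃ C0 : ℝ, ∀ (s : S) x,
      ‖f x - f (x * ((of s, 1) : Gam S))‖ ^ 2 ≤ C0 := by
    refine ⟨∑ s : S, B ((of s, 1) : Gam S) ^ 2, fun s x => ?_⟩
    rw [norm_sub_rev]
    refine (pow_le_pow_left₀ (norm_nonneg _) (hB _ x) 2).trans ?_
    exact single_le_sum (f := fun s : S => B ((of s, 1) : Gam S) ^ 2) (fun _ _ => sq_nonneg _)
      (mem_univ s)
  let z : ℕ → Gam S ⧸ Nt G := fun n => ((1, Multiplicative.ofAdd (-(n * 2 : ℤ))) : Gam S)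
  have hz : Function.Injective z := by
    intro n m h
    have h1 := QuotientGroup.eq.1 h
    have h2 : ((1, Multiplicative.ofAdd (n * 2 - m * 2 : ℤ)) : Gam S) ∈ Nt G := by
      convert h1 using 1
      ext
      · simp
      · simp [sub_eq_add_neg]
    have h3 := center_inj hSC hL h2
    have h4 : (n * 2 - m * 2 : ℤ) = 0 := congrArg Multiplicative.toAdd h3
    omega
  set R : ℝ := 360 * C * |C0| + 1 with hR
  obtain ⟨n, hn⟩ := ((hf2 R).preimage hz.injOn).exists_notMem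
  simp only [Set.mem_preimage, Set.mem_ofPred_eq, not_exists, not_le] at hn
  obtain ⟨V, E, _, _, _, _, a, b, t, g, iV, iE, hG, h1, h2⟩ := hlev n
  obtain ⟨V', hV', hP⟩ := hP a b t g hG
  let emb : (E → ZMod 2) → (G.Λ →₀ ZMod 2) := fun δ => ∑ e, Finsupp.single (iE e) (δ e)
  have hemb : ∀ δ e, emb (δ + Pi.single e 1) = emb δ + Finsupp.single (iE e) 1 := by
    intro δ e
    simp only [emb, Pi.add_apply, Finsupp.single_add, sum_add_distrib]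
    congr 1
    rw [sum_eq_single e]
    · simp
    · intro e' _ he'
      simp [he']
    · simp
  let F : V → (E → ZMod 2) → ℤ → lp (fun _ : ℕ => ℝ) 2 := fun v δ k =>
    f (Φ (iV v, emb δ, n * k))
  have h3 : ∑ v ∈ V', ∑ δ, ‖F v δ 0 - F v δ 2‖ ^ 2 ≤ C * ∑ k ∈ range 3, ∑ e, ∑ δ,
      ‖F (a e) δ (k : ℤ) - F (b e) (δ + Pi.single e 1) ((k : ℤ) + if t e then 1 else 0)‖ ^ 2 := by
    exact hasSum_le (fun i => hP fun v δ k => F v δ k i)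
      (hasSum_sum fun v _ => hasSum_sum fun δ _ => hasSum_sq _ _) (HasSum.mul_left C
        (hasSum_sum fun k _ => hasSum_sum fun e _ => hasSum_sum fun δ _ => hasSum_sq _ _))
  have hR1 : 1 ≤ R := by rw [hR]; have := abs_nonneg C0; nlinarith
  have h4 : ∀ v δ, R ≤ ‖F v δ 0 - F v δ 2‖ ^ 2 := by
    intro v δ
    have a1 := hΦ _ _ _ (rel_fibre (iV v) (emb δ) (n * 0) (n * 2))
    have a2 := hn (Φ (iV v, emb δ, n * 0))
    simp only [z] at a2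
    rw [← a1, mul_zero, zero_add, norm_sub_rev] at a2
    simp only [F, mul_zero]
    nlinarith
  have h5 : ∀ e δ (k : ℤ),
      ‖F (a e) δ k - F (b e) (δ + Pi.single e 1) (k + if t e then 1 else 0)‖ ^ 2 ≤ |C0| := by
    intro e δ k
    obtain ⟨b1, b2, b3⟩ := h2 e
    have a1 := hΦ _ _ _ (rel_edge (iE e) (emb δ) (n * k))
    rw [b1, b2, b3, h1, ← hemb] at a1
    have e1 : (n * k + if t e then (n : ℤ) else 0) = n * (k + if t e then 1 else 0) := by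
      split_ifs <;> ring
    simp only [F]
    rw [← e1, a1]
    exact (hC0 _ _).trans (le_abs_self _)
  set M : ℝ := ((Fintype.card (E → ZMod 2) : ℕ) : ℝ) with hM
  have hM0 : 0 < M := by rw [hM]; exact_mod_cast Fintype.card_pos
  have h6 : #V' * (M * R) ≤ ∑ v ∈ V', ∑ δ, ‖F v δ 0 - F v δ 2‖ ^ 2 := by
    rw [← nsmul_eq_mul]
    refine card_nsmul_le_sum _ _ _ fun v _ => ?_
    rw [hM, ← nsmul_eq_mul]
    exact card_nsmul_le_sum _ _ _ fun δ _ => h4 v δ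
  have h7 : ∑ k ∈ range 3, ∑ e, ∑ δ,
      ‖F (a e) δ (k : ℤ) - F (b e) (δ + Pi.single e 1) ((k : ℤ) + if t e then 1 else 0)‖ ^ 2 ≤
      3 * (Fintype.card E * (M * |C0|)) := by
    refine (sum_le_card_nsmul _ _ (Fintype.card E * (M * |C0|)) fun k _ => ?_).trans (by simp)
    rw [← nsmul_eq_mul]
    refine sum_le_card_nsmul _ _ _ fun e _ => ?_
    rw [hM, ← nsmul_eq_mul]
    exact sum_le_card_nsmul _ _ _ fun δ _ => h5 e δ k
  have h8 : (Fintype.card E : ℝ) ≤ 60 * Fintype.card V := by exact_mod_cast hG.edges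
  have h9 : (Fintype.card V : ℝ) ≤ 2 * #V' := by exact_mod_cast hV'
  have h10 : (0 : ℝ) < Fintype.card V := by exact_mod_cast hG.pos
  have h11 := h6.trans (h3.trans (mul_le_mul_of_nonneg_left h7 hC))
  have h12 : C * (3 * (Fintype.card E * (M * |C0|))) ≤ #V' * (M * (360 * C * |C0|)) := by
    have : 0 ≤ C * M * |C0| := by positivity
    nlinarith
  have h13 : 0 < #V' * M := by
    have : (0 : ℝ) < #V' := by linarith
    positivity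
  rw [hR] at h11
  nlinarith

end LG

end Pool.Agent.H839Z.CE
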