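import Pool.Agent.H839Z.CE.Green

/-! Walls in the quotient group and properness of the wall metric. -/

set_option autoImplicit false

namespace Pool.Agent.H839Z.CE

open Finset FreeGroup

namespace LG

variable {S : Type} [DecidableEq S] {G : LG S}

/-- Reduced chains of moves of an edge inside subtrees. -/
inductive Ch : Edg S → List G.Chart → Edg S → Prop
  | nil (ε : Edg S) : Ch ε [] ε
  | cons (ε : Edg S) (φ : G.Chart) (p : FreeGroup S) (l : List G.Chart) (ε' : Edg S)
      (hε : Ed φ ε) (hp : p • φ = φ) (hH : p ∉ H φ) (h : Ch (tr p ε) l ε')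
      (hne : ∀ j ∈ l.head?, j ≠ φ) : Ch ε (φ :: l) ε'

omit [DecidableEq S] in
lemma Ed.stab {φ : G.Chart} {ε : Edg S} (h : Ed φ ε) {p : FreeGroup S} (hp : p • φ = φ) :
    Ed φ (tr p ε) := by
  rw [← hp]; exact (ed_smul p φ ε).2 h

lemma Ch.translate {ε ε' : Edg S} {l : List G.Chart} (h : Ch ε l ε') (g : FreeGroup S) :
    Ch (tr g ε) (l.map (g • ·)) (tr g ε') := by
  induction h with
  | nil ε => exact Ch.nil _
  | cons ε φ p l ε' hε hp hH h hne ih =>
    refine Ch.cons _ _ (g * p * g⁻¹) _ _ ((ed_smul g φ ε).2 hε) ?_ ?_ ?_ ?_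
    · rw [mul_smul, inv_smul_smul, mul_smul, hp]
    · intro h2
      have := H_conj h2 g⁻¹
      rw [inv_smul_smul] at this
      apply hH
      simpa [mul_assoc] using this
    · rw [tr_tr, inv_mul_cancel_right, ← tr_tr]; exact ih
    · intro j hj h2
      cases l with
      | nil => simp at hj
      | cons a l' =>
        simp only [List.map_cons, List.head?_cons, Option.mem_def, Option.some.injEq] at hj
        rw [← hj] at h2
        exact hne a (by simp) (MulAction.injective g h2)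

lemma Ch.modify {ε ε' : Edg S} {l : List G.Chart} (h : Ch ε l ε') {ψ : G.Chart} (hψ : ψ ∈ l)
    {k : FreeGroup S} (hk : k ∈ H ψ) : ∃ l' : List G.Chart, Ch ε l' (tr k ε') ∧ l'.head? = l.head? := by
  induction h with
  | nil ε => simp at hψ
  | cons ε φ p l ε' hε hp hH h hne ih =>
    by_cases hφ : ψ = φ
    · subst hφ
      refine ⟨ψ :: l.map (k • ·), ?_, rfl⟩
      refine Ch.cons _ _ (k * p) _ _ hε (by rw [mul_smul, hp, hk.1]) ?_ ?_ ?_
      · intro h2
        exact hH (by simpa using (H ψ).mul_mem ((H ψ).inv_mem hk) h2)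
      · rw [← tr_tr]; exact h.translate k
      · intro j hj h2
        cases l with
        | nil => simp at hj
        | cons a l' =>
          simp only [List.map_cons, List.head?_cons, Option.mem_def, Option.some.injEq] at hj
          rw [← hj] at h2
          exact hne a (by simp) (MulAction.injective k (h2.trans hk.1.symm))
    · obtain ⟨l', h1, h2⟩ := ih (by simpa [hφ] using hψ)
      exact ⟨φ :: l', Ch.cons _ _ p _ _ hε hp hH h1 (by rw [h2]; exact hne), rfl⟩

lemma ne_one_of_not_mem {φ : G.Chart} {p : FreeGroup S} (h : p ∉ H φ) : p ≠ 1 := by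
  rintro rfl; exact h (H φ).one_mem

section

variable (hSC : G.SC) (hL : ∀ n, 40 ≤ G.L n)
include hSC hL

lemma Ch.big1 {ε ε' : Edg S} {l : List G.Chart} (h : Ch ε l ε') :
    ∀ φ ∈ l.head?, Ed φ ε ∧ 39 * G.L (lv φ) < 40 * rho φ ε.1 ε'.1 := by
  induction h with
  | nil ε => simp
  | cons ε φ p l ε' hε hp hH h hne ih =>
    intro φ' hφ'
    simp only [List.head?_cons, Option.mem_def, Option.some.injEq] at hφ'
    subst hφ'
    refine ⟨hε, ?_⟩
    have a1 := disp hp (ne_one_of_not_mem hH) ε.1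
    have a0 := hL (lv φ)
    cases l with
    | nil =>
      cases h
      simp only [tr_fst]
      omega
    | cons j l' =>
      obtain ⟨b1, b2⟩ := ih j (by simp)
      have hj : j ≠ φ := hne j (by simp)
      have a2 := rho_tri φ ε.1 ε'.1 (p * ε.1)
      rcases dich0 b1.vx_o (hε.stab hp).vx_o ε'.1 with c | c
      · have := c.lt hSC hL hj
        rw [rho_comm] at this
        have := hL (lv j)
        omega
      · have := c.lt hSC hL hj.symm
        simp only [tr_fst] at this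
        omega

lemma Ch.far {ε ε' : Edg S} {l : List G.Chart} (h : Ch ε l ε') {φ : G.Chart} :
    φ ∉ l → ∀ x, (∀ j ∈ l.head?, 40 * rho j x ε.1 < G.L (lv j)) → 40 * rho φ x ε.1 < G.L (lv φ) →
      40 * rho φ x ε'.1 < 2 * G.L (lv φ) := by
  induction h with
  | nil ε => intro _ x _ h; omega
  | cons ε j p l ε' hε hp hH h hne ih =>
    intro hφ x h1 h2
    have hφj : φ ≠ j := fun h => hφ (by simp [h])
    have hφl : φ ∉ l := fun h => hφ (by simp [h])
    obtain ⟨-, a1⟩ := (Ch.cons ε j p l ε' hε hp hH h hne).big1 hSC hL j (by simp)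
    have a2 := h1 j (by simp)
    obtain ⟨a, u, ha⟩ := exists_pt φ
    have hu1 := (hε.stab hp).vx_o
    rcases dich0 ⟨u, ha⟩ hε.vx_o ε'.1 with c | c
    · have b1 := c.lt hSC hL hφj
      have b2 := rho_tri φ x ε.1 ε'.1
      rw [rho_comm] at b1
      omega
    rcases dich0 ⟨u, ha⟩ hu1 x with c' | c'
    · refine ih hφl x ?_ (c'.lt hSC hL hφj)
      intro i hi
      obtain ⟨b1, -⟩ := h.big1 hSC hL i hi
      have hij : i ≠ j := hne i hi
      rcases dich0 hu1 b1.vx_o x with e | e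
      · have b2 := e.lt hSC hL hij.symm
        have b3 := disp hp (ne_one_of_not_mem hH) ε.1
        have b4 := rho_tri j ε.1 x (p * ε.1)
        rw [rho_comm j ε.1 x] at b4
        simp only [tr_fst] at b2
        omega
      · exact e.lt hSC hL hij
    · have b1 := (c.glue c').lt hSC hL hφj.symm
      have b2 := rho_tri j ε.1 x ε'.1
      rw [rho_comm j ε.1 x, rho_comm j x ε'.1] at b2
      omega

end

variable (G) in
/-- Elementary moves of edges. -/
def Mv (ε ε' : Edg S) : Prop :=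
  (∃ n ∈ N G, ε' = tr n ε) ∨ ∃ (φ : G.Chart) (p : FreeGroup S), Ed φ ε ∧ p • φ = φ ∧ ε' = tr p ε

lemma Mv.symm {ε ε' : Edg S} (h : Mv G ε ε') : Mv G ε' ε := by
  rcases h with ⟨n, hn, rfl⟩ | ⟨φ, p, h1, h2, rfl⟩
  · exact Or.inl ⟨n⁻¹, (N G).inv_mem hn, by simp⟩
  · exact Or.inr ⟨φ, p⁻¹, h1.stab h2, by rw [inv_smul_eq_iff, h2], by simp⟩

lemma Mv.translate {ε ε' : Edg S} (h : Mv G ε ε') (g : FreeGroup S) :
    Mv G (tr g ε) (tr g ε') := by
  rcases h with ⟨n, hn, rfl⟩ | ⟨φ, p, h1, h2, rfl⟩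
  · exact Or.inl ⟨g * n * g⁻¹, N_normal.conj_mem n hn g, by simp [tr_tr]⟩
  · exact Or.inr ⟨g • φ, g * p * g⁻¹, (ed_smul g φ ε).2 h1,
      by rw [mul_smul, inv_smul_smul, mul_smul, h2], by simp [tr_tr]⟩

lemma rt_symm {ε ε' : Edg S} (h : Relation.ReflTransGen (Mv G) ε ε') :
    Relation.ReflTransGen (Mv G) ε' ε := by
  induction h with
  | refl => exact Relation.ReflTransGen.refl
  | tail _ h2 ih => exact Relation.ReflTransGen.head h2.symm ih

lemma rt_translate {ε ε' : Edg S} (h : Relation.ReflTransGen (Mv G) ε ε') (g : FreeGroup S) :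
    Relation.ReflTransGen (Mv G) (tr g ε) (tr g ε') := by
  induction h with
  | refl => exact Relation.ReflTransGen.refl
  | tail _ h2 ih => exact ih.tail (h2.translate g)

variable (G) in
/-- Edges in the same wall. -/
def wallSetoid : Setoid (Edg S) where
  r := Relation.ReflTransGen (Mv G)
  iseqv := ⟨fun _ => Relation.ReflTransGen.refl,
    fun h => rt_symm h,
    fun h h' => h.trans h'⟩

variable (G) in
/-- The walls. -/
def Wall : Type := Quotient (wallSetoid G)

variable (G) in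
/-- The wall of an edge. -/
def wl (ε : Edg S) : Wall G := Quotient.mk (wallSetoid G) ε

lemma wl_eq {ε ε' : Edg S} : wl G ε = wl G ε' ↔ Relation.ReflTransGen (Mv G) ε ε' :=
  Quotient.eq

lemma wl_N {n : FreeGroup S} (hn : n ∈ N G) (ε : Edg S) : wl G (tr n ε) = wl G ε :=
  (wl_eq.2 (Relation.ReflTransGen.single (Or.inl ⟨n, hn, rfl⟩))).symm

lemma wl_over {φ : G.Chart} {ε ε' : Edg S} {e : G.Λ} (h : Over φ ε e) (h' : Over φ ε' e) :
    wl G ε = wl G ε' := by
  refine wl_eq.2 (Relation.ReflTransGen.single (Or.inr ⟨φ, ε'.1 * ε.1⁻¹, ⟨e, h⟩,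
    stab_of_eq h.1 h'.1, ?_⟩))
  exact Prod.ext (by simp) (h'.2.symm.trans h.2)

/-- Translation of walls. -/
def trW (g : FreeGroup S) : Wall G → Wall G :=
  Quotient.map (tr g) fun _ _ h => rt_translate h g

lemma trW_wl (g : FreeGroup S) (ε : Edg S) : trW g (wl G ε) = wl G (tr g ε) := rfl

lemma trW_injective (g : FreeGroup S) : Function.Injective (trW g : Wall G → Wall G) := by
  refine Function.LeftInverse.injective (g := trW g⁻¹) ?_
  rintro ⟨ε⟩
  change wl G (tr g⁻¹ (tr g ε)) = wl G ε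
  rw [tr_inv_tr]

lemma sim_chain {ε ε' : Edg S} (h : wl G ε = wl G ε') :
    ∃ n ∈ N G, ∃ (l : List G.Chart) (ε'' : Edg S), Ch ε l ε'' ∧ ε' = tr n ε'' := by
  replace h := wl_eq.1 h
  induction h using Relation.ReflTransGen.head_induction_on with
  | refl => exact ⟨1, (N G).one_mem, [], ε', Ch.nil _, by simp⟩
  | @head a c hac _ ih =>
    obtain ⟨n, hn, l, ε'', h1, h2⟩ := ih
    have key : ∀ m ∈ N G, ∀ l : List G.Chart, Ch (tr m a) l ε'' →
        ∃ n ∈ N G, ∃ (l : List G.Chart) (ε'' : Edg S), Ch a l ε'' ∧ ε' = tr n ε'' := by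
      intro m hm l h3
      have := h3.translate m⁻¹
      rw [tr_inv_tr] at this
      exact ⟨n * m, (N G).mul_mem hn hm, _, _, this, by rw [h2, ← tr_tr, tr_tr_inv]⟩
    rcases hac with ⟨m, hm, rfl⟩ | ⟨φ, p, a1, a2, rfl⟩
    · exact key m hm l h1
    by_cases hp : p ∈ H φ
    · exact key p (H_le_N hp) l h1
    by_cases hh : ∀ j ∈ l.head?, j ≠ φ
    · exact ⟨n, hn, φ :: l, ε'', Ch.cons _ _ p _ _ a1 a2 hp h1 hh, h2⟩
    push Not at hh
    obtain ⟨j, hj, rfl⟩ := hh
    cases h1 with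
    | nil => simp at hj
    | cons _ ψ q l' _ b1 b2 b3 b4 b5 =>
      simp only [List.head?_cons, Option.mem_def, Option.some.injEq] at hj
      subst hj
      rw [tr_tr] at b4
      by_cases hq : q * p ∈ H ψ
      · exact key _ (H_le_N hq) l' b4
      · exact ⟨n, hn, ψ :: l', ε'', Ch.cons _ _ (q * p) _ _ a1 (by rw [mul_smul, a2, b2]) hq b4 b5,
          h2⟩

section

variable (hSC : G.SC) (hL : ∀ n, 40 ≤ G.L n)
include hSC hL

lemma geo_chain {s t : FreeGroup S} (hg : Geo G s t) {ε ε' : Edg S} (hε : ε ∈ E s t)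
    (hε' : ε' ∈ E s t) (h : wl G ε = wl G ε') : ∃ l : List G.Chart, Ch ε l ε' := by
  obtain ⟨n, hn, l, ε'', h1, h2⟩ := sim_chain h
  induction hk : d ε''.1 ε'.1 using Nat.strong_induction_on generalizing n l ε'' with
  | _ k ih =>
    by_cases hn1 : n = 1
    · exact ⟨l, by rw [h2, hn1, tr_one]; exact h1⟩
    obtain ⟨φ, p, hp, hp1, h3⟩ := green hSC hL hn hn1 ε''.1
    have e1 : n * ε''.1 = ε'.1 := by rw [h2, tr_fst]
    rw [e1] at h3
    have a0 := hL (lv φ)
    by_cases hφ : φ ∈ l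
    · obtain ⟨l', h4, -⟩ := h1.modify hφ hp
      have h5 := shortcut hp.1 hp1 (u := ε''.1) (w := ε'.1) (by omega)
      exact ih _ (hk ▸ h5) (n * p⁻¹) ((N G).mul_mem hn ((N G).inv_mem (H_le_N hp))) l' (tr p ε'')
        h4 (by rw [h2, tr_tr, inv_mul_cancel_right]) rfl
    · exfalso
      have h4 := h1.far hSC hL hφ ε.1 (fun j _ => by have := hL (lv j); simp; omega)
        (by simp; omega)
      have h5 := rho_tri φ (p * ε.1) (p * ε''.1) ε'.1
      rw [rho_fix hp.1] at h5
      have h6 := shortcut hp.1 hp1 (u := ε.1) (w := ε'.1) (by omega)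
      have h7 := hg.sub (between hε (Or.inl rfl)) (between hε' (Or.inl rfl)) (H_le_N hp)
      omega

end

/-- The subtree has a long overlap with the geodesic. -/
def Big (s t : FreeGroup S) (φ : G.Chart) : Prop := 38 * G.L (lv φ) < 40 * rho φ s t

section

variable (hSC : G.SC) (hL : ∀ n, 40 ≤ G.L n)
include hSC hL

lemma right_unique {s t z z' : FreeGroup S} {φ j j' : G.Chart} (hj : Big s t j) (hj' : Big s t j')
    (h1 : j ≠ φ) (h1' : j' ≠ φ) (hz : Vx φ z) (hz' : Vx φ z') (hzj : Vx j z) (hzj' : Vx j' z')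
    (c : Small j φ s z) (c' : Small j' φ s z') : j = j' := by
  by_contra hne
  have key : ∀ {z z' : FreeGroup S} {j j' : G.Chart}, Big s t j → j ≠ φ → j ≠ j' → Vx φ z →
      Vx φ z' → Small j φ s z → Small j j' t z' → False := by
    intro z z' j j' hj h1 hne hz hz' c e
    have a1 := c.lt hSC hL h1
    have a2 := e.lt hSC hL hne
    have a3 : Small j φ z z' := fun ε hε _ => convex hz hz' ε hε
    have a4 := a3.lt hSC hL h1
    have a5 := rho_tri j s z t
    have a6 := rho_tri j z z' t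
    rw [rho_comm j z' t] at a6
    unfold Big at hj
    omega
  rcases dich0 hzj hzj' t with e | e
  · exact key hj h1 hne hz hz' c e
  · exact key hj' h1' (Ne.symm hne) hz' hz c' e

lemma side_cases {s t z : FreeGroup S} {φ j : G.Chart} (hφ : Big s t φ) (hj : Big s t j)
    (h1 : j ≠ φ) (hz : Vx φ z) (hzj : Vx j z) : Small j φ s z ∨ Small j φ t z := by
  rcases dich0 hz hzj s with c | c
  · rcases dich0 hz hzj t with c' | c'
    · have := (c.glue c').lt hSC hL h1.symm
      unfold Big at hφ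
      omega
    · exact Or.inr c'
  · exact Or.inl c

/-- The edges of the graph which have a lift in a piece shared with another long subtree. -/
lemma bad_card {s t : FreeGroup S} {φ : G.Chart} (hφ : Big s t φ) (X : Finset G.Λ)
    (hX : ∀ e ∈ X, ∃ ε j, Over φ ε e ∧ Big s t j ∧ j ≠ φ ∧ Ed j ε) : 40 * #X < 2 * G.L (lv φ) := by
  classical
  have key : ∀ {s t : FreeGroup S} (X : Finset G.Λ),
      (∀ e ∈ X, ∃ ε j, Over φ ε e ∧ Big s t j ∧ j ≠ φ ∧ Ed j ε ∧ Small j φ s ε.1) →
      40 * #X < G.L (lv φ) := by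
    intro s t X hX
    rcases X.eq_empty_or_nonempty with rfl | ⟨e0, he0⟩
    · have := hL (lv φ)
      simp only [card_empty]; omega
    obtain ⟨ε0, j0, a1, a2, a3, a4, a5⟩ := hX e0 he0
    haveI : Nonempty (Edg S) := ⟨ε0⟩
    haveI : Nonempty G.Chart := ⟨j0⟩
    choose! f j b1 b2 b3 b4 b5 using hX
    have hinj : Set.InjOn f X := fun e he e' he' h => (b1 e he).unique (h ▸ b1 e' he')
    rw [← card_image_of_injOn hinj]
    refine piece hSC hL a3.symm _ fun ε hε => ?_
    obtain ⟨e, he, rfl⟩ := mem_image.1 hε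
    refine ⟨⟨e, b1 e he⟩, ?_⟩
    rw [right_unique hSC hL a2 (b2 e he) a3 (b3 e he) ⟨_, a1.1⟩ ⟨_, (b1 e he).1⟩ a4.vx_o
      (b4 e he).vx_o a5 (b5 e he)]
    exact b4 e he
  let Q : G.Λ → Prop := fun e => ∃ ε j, Over φ ε e ∧ Big s t j ∧ j ≠ φ ∧ Ed j ε ∧ Small j φ s ε.1
  have h1 := key (X.filter Q) (fun e he => (mem_filter.1 he).2)
  have h2 := key (s := t) (t := s) (X.filter fun e => ¬ Q e) (fun e he => by
    obtain ⟨he1, he2⟩ := mem_filter.1 he
    obtain ⟨ε, j, a1, a2, a3, a4⟩ := hX e he1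
    rcases side_cases hSC hL hφ a2 a3 ⟨_, a1.1⟩ a4.vx_o with c | c
    · exact absurd ⟨ε, j, a1, a2, a3, a4, c⟩ he2
    · exact ⟨ε, j, a1, by rwa [Big, rho_comm], a3, a4, c⟩)
  have h3 := card_filter_add_card_filter_not (s := X) Q
  omega

lemma chain_big {s t : FreeGroup S} {ε ε' : Edg S} (hε : ε ∈ E s t) (hε' : ε' ∈ E s t)
    {φ : G.Chart} {l : List G.Chart} (h : Ch ε (φ :: l) ε') :
    Big s t φ ∧ ∀ j ∈ l.head?, Big s t j := by
  have hsub := E_sub_of_ends hε hε' (Or.inl rfl) (Or.inl rfl)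
  constructor
  · have a1 := (h.big1 hSC hL φ (by simp)).2
    have a2 := rho_mono φ hsub
    unfold Big
    omega
  · intro j hj
    cases h with
    | cons _ _ p _ _ b1 b2 b3 b4 b5 =>
      have a1 := (b4.big1 hSC hL j hj).2
      have a2 := rho_mono j hsub
      have a3 : Small j φ (p * ε.1) ε.1 := fun z hz _ => convex (b1.stab b2).vx_o b1.vx_o z hz
      have a4 := a3.lt hSC hL (b5 j hj)
      have a5 := rho_tri j (p * ε.1) ε.1 ε'.1
      simp only [tr_fst] at a1
      unfold Big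
      omega

lemma free_class {s t : FreeGroup S} (hg : Geo G s t) {ε ε' : Edg S} (hε : ε ∈ E s t)
    (hε' : ε' ∈ E s t) (h : wl G ε = wl G ε') (hfree : ∀ φ : G.Chart, Big s t φ → ¬ Ed φ ε) :
    ε' = ε := by
  obtain ⟨l, hl⟩ := geo_chain hSC hL hg hε hε' h
  cases l with
  | nil => cases hl; rfl
  | cons φ l =>
    exact absurd (hl.big1 hSC hL φ (by simp)).1 (hfree φ (chain_big hSC hL hε hε' hl).1)

lemma good_class {s t : FreeGroup S} (hg : Geo G s t) {ε ε' : Edg S} (hε : ε ∈ E s t)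
    (hε' : ε' ∈ E s t) (h : wl G ε = wl G ε') {φ : G.Chart} {e : G.Λ} (he : Over φ ε e)
    (hgood : ∀ ε j, Over φ ε e → Big s t j → j ≠ φ → ¬ Ed j ε) : Over φ ε' e := by
  obtain ⟨l, hl⟩ := geo_chain hSC hL hg hε hε' h
  cases l with
  | nil => cases hl; exact he
  | cons ψ l =>
    obtain ⟨a1, a2⟩ := chain_big hSC hL hε hε' hl
    cases hl with
    | cons _ _ p _ _ b1 b2 b3 b4 b5 =>
      have hψ : ψ = φ := by
        by_contra hne
        exact hgood ε ψ he a1 hne b1
      subst hψ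
      have h2 : Over ψ (tr p ε) e := by
        rw [← b2]; exact (over_smul p ψ ε e).2 he
      cases l with
      | nil => cases b4; exact h2
      | cons j l' =>
        exact absurd (b4.big1 hSC hL j (by simp)).1 (hgood _ j h2 (a2 j (by simp)) (b5 j (by simp)))

end

variable (G) in
/-- The walls crossed an odd number of times. -/
noncomputable def C (x y : FreeGroup S) : Wall G →₀ ZMod 2 :=
  pot (fun ε => Finsupp.single (wl G ε) 1) x y

open Classical in
lemma C_apply (x y : FreeGroup S) (ω : Wall G) :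
    C G x y ω = (#((E x y).filter fun ε => wl G ε = ω) : ZMod 2) := by
  rw [C, pot_two _ neg_fs, Finsupp.finsetSum_apply, card_filter]
  push_cast
  refine sum_congr rfl fun ε _ => ?_
  rw [Finsupp.single_apply]

lemma C_add (x y z : FreeGroup S) : C G x y + C G y z = C G x z := pot_add _ _ _ _

lemma C_comm (x y : FreeGroup S) : C G y x = C G x y := by
  rw [C, pot_swap, neg_fs]; rfl

lemma C_N {n : FreeGroup S} (hn : n ∈ N G) (x y : FreeGroup S) : C G (n * x) (n * y) = C G x y :=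
  pot_mul _ _ n x y fun ε => by rw [wl_N hn]

lemma C_H {φ : G.Chart} {p : FreeGroup S} (hp : p ∈ H φ) : C G 1 p = 0 := by
  classical
  obtain ⟨x, v, hx⟩ := exists_pt φ
  let F : (G.Λ →₀ ZMod 2) →+ (Wall G →₀ ZMod 2) := Finsupp.liftAddHom fun e =>
    if h : ∃ ε, Over φ ε e then Finsupp.singleAddHom (wl G h.choose) else 0
  have h1 : F (O φ x (p * x)) = C G x (p * x) := by
    rw [O, P, map_pot, C]
    refine pot_congr _ _ _ _ fun ε hε => ?_
    obtain ⟨e, he⟩ := convex ⟨v, hx⟩ (vx_stab hp.1 ⟨v, hx⟩) ε hε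
    have h : ∃ ε, Over φ ε e := ⟨ε, he⟩
    rw [wt_over _ he]
    simp only [F, Finsupp.liftAddHom_apply_single, dif_pos h, Finsupp.singleAddHom_apply]
    rw [wl_over h.choose_spec he]
  rw [O, P_stab _ hp.1] at h1
  have h2 : P (fun e => Finsupp.single e (1 : ZMod 2)) φ 1 p = 0 := hp.2
  rw [h2, map_zero] at h1
  have h3 := C_N (H_le_N hp) x 1
  rw [mul_one] at h3
  rw [← C_add 1 x p, ← C_add x (p * x) p, ← h1, h3, zero_add, C_comm, add_self_fs]

lemma C_one_N {n : FreeGroup S} (hn : n ∈ N G) : C G 1 n = 0 := by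
  obtain ⟨γ, hγ, rfl⟩ := hn
  change C G 1 γ.1 = 0
  induction hγ using Subgroup.iSup_induction' with
  | hp φ x hx => exact C_H hx.1
  | h1 => simp [C]
  | hmul x y hx _ h1 h2 =>
    have h3 := C_N (G := G) (n := x.1) ⟨x, hx, rfl⟩ 1 y.1
    rw [mul_one] at h3
    rw [Prod.fst_mul, ← C_add 1 x.1, h1, h3, h2, zero_add]

lemma card_C_mul (g x y : FreeGroup S) :
    #(C G (g * x) (g * y)).support = #(C G x y).support := by
  classical
  have h1 : C G (g * x) (g * y) = Finsupp.mapDomain.addMonoidHom (trW g) (C G x y) := by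
    rw [C, C, map_pot]
    refine pot_mul _ _ g x y fun ε => ?_
    simp [Finsupp.mapDomain_single, trW_wl]
  rw [h1, Finsupp.mapDomain.addMonoidHom_apply,
    Finsupp.mapDomain_support_of_injective (trW_injective g),
    card_image_of_injective _ (trW_injective g)]

lemma card_C_le (x y : FreeGroup S) : #(C G x y).support ≤ d x y := by
  classical
  refine le_trans (card_le_card (t := (E x y).image (wl G)) ?_) card_image_le
  intro ω hω
  by_contra hcon
  rw [Finsupp.mem_support_iff, C_apply, filter_eq_empty_iff.2] at hω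
  · simp at hω
  · intro ε hε h
    exact hcon (mem_image.2 ⟨ε, hε, h⟩)

section

variable (hSC : G.SC) (hL : ∀ n, 40 ≤ G.L n)
include hSC hL

lemma good_walls {s t : FreeGroup S} (hg : Geo G s t) {φ : G.Chart} (hφ : Big s t φ) :
    ∃ Y : Finset (Wall G), Y ⊆ (C G s t).support ∧ 36 * G.L (lv φ) < 40 * #Y ∧
      ∀ ω ∈ Y, ∃ ε ∈ E s t, wl G ε = ω ∧ ∀ ε' ∈ E s t, wl G ε' = ω →
        ∀ j : G.Chart, Big s t j → (Ed j ε' ↔ j = φ) := by
  classical
  let Bad : G.Λ → Prop := fun e => ∃ ε j, Over φ ε e ∧ Big s t j ∧ j ≠ φ ∧ Ed j ε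
  have h1 := bad_card hSC hL hφ ((O φ s t).support.filter Bad) fun e he => (mem_filter.1 he).2
  have h2 : 38 * G.L (lv φ) < 40 * #(O φ s t).support := by
    by_cases h : #(O φ s t).support < G.L (lv φ)
    · obtain ⟨p, hp, h3⟩ := ags s t h
      have := hg.rho_le hp
      unfold Big at hφ
      omega
    · have := hL (lv φ)
      omega
  have h3 := card_filter_add_card_filter_not (s := (O φ s t).support) Bad
  set X := (O φ s t).support.filter fun e => ¬ Bad e with hX
  have h4 : ∀ e ∈ X, ∃ ε ∈ E s t, Over φ ε e := fun e he => mem_O (mem_filter.1 he).1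
  have h5 : ∀ e ∈ X, ∀ ε j, Over φ ε e → Big s t j → j ≠ φ → ¬ Ed j ε :=
    fun e he ε j a1 a2 a3 a4 => (mem_filter.1 he).2 ⟨ε, j, a1, a2, a3, a4⟩
  have : Nonempty (Edg S) := by
    obtain ⟨e, he⟩ : X.Nonempty := by
      rw [← card_pos]
      have := hL (lv φ)
      omega
    obtain ⟨ε, -⟩ := h4 e he
    exact ⟨ε⟩
  choose! f f1 f2 using h4
  have hinj : Set.InjOn (fun e => wl G (f e)) X := by
    intro e he e' he' h
    exact (good_class hSC hL hg (f1 e he) (f1 e' he') h (f2 e he) (h5 e he)).unique (f2 e' he')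
  refine ⟨X.image fun e => wl G (f e), ?_, ?_, ?_⟩
  · intro ω hω
    obtain ⟨e, he, rfl⟩ := mem_image.1 hω
    rw [Finsupp.mem_support_iff, C_apply]
    have a1 := Finsupp.mem_support_iff.1 (mem_filter.1 he).1
    rw [O_apply] at a1
    convert a1 using 3
    refine filter_congr fun ε hε => ⟨fun h => ?_, fun h => wl_over h (f2 e he)⟩
    exact good_class hSC hL hg (f1 e he) hε h.symm (f2 e he) (h5 e he)
  · rw [card_image_of_injOn hinj]
    omega
  · intro ω hω
    obtain ⟨e, he, rfl⟩ := mem_image.1 hω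
    refine ⟨f e, f1 e he, rfl, fun ε' hε' h j hj => ?_⟩
    have a1 := good_class hSC hL hg (f1 e he) hε' h.symm (f2 e he) (h5 e he)
    constructor
    · intro a2
      by_contra hne
      exact h5 e he ε' j a1 hj hne a2
    · rintro rfl
      exact ⟨e, a1⟩

/-- Properness of the wall metric. -/
theorem proper (hfin : ∀ R, {n | G.L n ≤ R}.Finite) (R : ℕ) :
    ∃ M : ℕ, ∀ s t : FreeGroup S, Geo G s t → #(C G s t).support ≤ R → d s t ≤ M := by
  classical
  choose D hD using diam (G := G)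
  let D0 : ℕ := (hfin (2 * R)).toFinset.sup D
  refine ⟨R * (D0 + 1), fun s t hg hR => ?_⟩
  have hbig : ∀ φ : G.Chart, Big s t φ → rho φ s t ≤ D0 := by
    intro φ hφ
    obtain ⟨Y, h1, h2, -⟩ := good_walls hSC hL hg hφ
    have h3 := card_le_card h1
    obtain ⟨p, hp, h4⟩ := hD _ φ rfl s t
    have h5 : D (lv φ) ≤ D0 := le_sup (f := D) (by simp; omega)
    exact (hg.rho_le hp).trans (h4.trans h5)
  let A : Wall G → Finset (Edg S) := fun ω => (E s t).filter fun ε =>
    (wl G ε = ω ∧ ∀ φ : G.Chart, Big s t φ → ¬ Ed φ ε)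
  let B : Wall G → Finset (Edg S) := fun ω => (E s t).filter fun ε =>
    ∃ φ : G.Chart, Big s t φ ∧ Ed φ ε ∧ ∃ ε0 ∈ E s t, wl G ε0 = ω ∧
      ∀ ε' ∈ E s t, wl G ε' = ω → ∀ j : G.Chart, Big s t j → (Ed j ε' ↔ j = φ)
  have hA : ∀ ω, #(A ω) ≤ 1 := by
    intro ω
    rw [card_le_one]
    intro a ha b hb
    obtain ⟨a1, a2, a3⟩ := mem_filter.1 ha
    obtain ⟨b1, b2, -⟩ := mem_filter.1 hb
    exact (free_class hSC hL hg a1 b1 (a2.trans b2.symm) a3).symm
  have hB : ∀ ω, #(B ω) ≤ D0 := by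
    intro ω
    rcases (B ω).eq_empty_or_nonempty with h | ⟨a, ha⟩
    · simp [h]
    obtain ⟨-, φ, a1, -, ε0, a2, a3, a4⟩ := mem_filter.1 ha
    refine le_trans (card_le_card ?_) (hbig φ a1)
    intro b hb
    obtain ⟨b0, ψ, b1, b2, ε1, -, -, b4⟩ := mem_filter.1 hb
    have h1 : Ed φ ε0 := (a4 ε0 a2 a3 φ a1).2 rfl
    have h2 : φ = ψ := (b4 ε0 a2 a3 φ a1).1 h1
    exact mem_filter.2 ⟨b0, h2 ▸ b2⟩
  have hcov : E s t ⊆ (C G s t).support.biUnion fun ω => A ω ∪ B ω := by
    intro ε hε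
    rw [mem_biUnion]
    by_cases hfree : ∀ φ : G.Chart, Big s t φ → ¬ Ed φ ε
    · refine ⟨wl G ε, ?_, mem_union_left _ (mem_filter.2 ⟨hε, rfl, hfree⟩)⟩
      have : (E s t).filter (fun ε' => wl G ε' = wl G ε) = {ε} := by
        ext ε'
        simp only [mem_filter, mem_singleton]
        exact ⟨fun h => free_class hSC hL hg hε h.1 h.2.symm hfree, by rintro rfl; exact ⟨hε, rfl⟩⟩
      rw [Finsupp.mem_support_iff, C_apply, this]
      simp
    · push Not at hfree
      obtain ⟨φ, hφ, h1⟩ := hfree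
      obtain ⟨Y, a1, a2, a3⟩ := good_walls hSC hL hg hφ
      obtain ⟨ω, hω⟩ : Y.Nonempty := by
        rw [← card_pos]; omega
      exact ⟨ω, a1 hω, mem_union_right _ (mem_filter.2 ⟨hε, φ, hφ, h1, a3 ω hω⟩)⟩
  refine (card_le_card hcov).trans (card_biUnion_le.trans ?_)
  refine (sum_le_card_nsmul _ _ (D0 + 1) fun ω _ => ?_).trans ?_
  · have := card_union_le (A ω) (B ω)
    have := hA ω
    have := hB ω
    omega
  · rw [smul_eq_mul]
    exact Nat.mul_le_mul_right _ hR

end

end LG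

end Pool.Agent.H839Z.CE
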