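import Mathlib

/-! The Cayley tree of a free group, described by its edges and their half spaces. -/

set_option autoImplicit false

namespace Pool.Agent.H839Z.CE

open Finset FreeGroup

variable {S : Type} [DecidableEq S]

/-- Edges of the Cayley tree. -/
abbrev Edg (S : Type) : Type := FreeGroup S × S

/-- Terminal vertex of an edge. -/
def tE (ε : Edg S) : FreeGroup S := ε.1 * of ε.2

/-- Translation of an edge. -/
def tr (g : FreeGroup S) (ε : Edg S) : Edg S := (g * ε.1, ε.2)

omit [DecidableEq S] in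
@[simp] lemma tr_fst (g : FreeGroup S) (ε : Edg S) : (tr g ε).1 = g * ε.1 := rfl
omit [DecidableEq S] in
@[simp] lemma tr_snd (g : FreeGroup S) (ε : Edg S) : (tr g ε).2 = ε.2 := rfl
omit [DecidableEq S] in
@[simp] lemma tE_tr (g : FreeGroup S) (ε : Edg S) : tE (tr g ε) = g * tE ε := by
  simp [tE, mul_assoc]
omit [DecidableEq S] in
lemma tr_tr (g h : FreeGroup S) (ε : Edg S) : tr g (tr h ε) = tr (g * h) ε := by
  simp [tr, mul_assoc]
omit [DecidableEq S] in
@[simp] lemma tr_one (ε : Edg S) : tr 1 ε = ε := by simp [tr]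
omit [DecidableEq S] in
@[simp] lemma tr_inv_tr (g : FreeGroup S) (ε : Edg S) : tr g⁻¹ (tr g ε) = ε := by
  simp [tr_tr]
omit [DecidableEq S] in
@[simp] lemma tr_tr_inv (g : FreeGroup S) (ε : Edg S) : tr g (tr g⁻¹ ε) = ε := by
  simp [tr_tr]
omit [DecidableEq S] in
lemma tr_injective (g : FreeGroup S) : Function.Injective (tr g : Edg S → Edg S) := by
  intro a b h
  have := congrArg (tr g⁻¹) h
  simpa using this

/-- Last letter of the reduced word. -/
def lst (g : FreeGroup S) : Option (S × Bool) := g.toWord.getLast?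

/-- `y` lies on the side of the terminal vertex of `ε`. -/
def side (ε : Edg S) (y : FreeGroup S) : Prop := lst (y⁻¹ * ε.1) = some (ε.2, false)

lemma side_tr (g : FreeGroup S) (ε : Edg S) (y : FreeGroup S) :
    side (tr g ε) (g * y) ↔ side ε y := by
  have : (g * y)⁻¹ * (g * ε.1) = y⁻¹ * ε.1 := by group
  rw [side, side, tr_fst, tr_snd, this]

lemma lst_one : lst (1 : FreeGroup S) = none := by simp [lst]

lemma not_side_o (ε : Edg S) : ¬ side ε ε.1 := by simp [side, lst_one]

omit [DecidableEq S] in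
lemma inv_of (s : S) : (of s : FreeGroup S)⁻¹ = mk [(s, false)] := by
  rw [of, inv_mk]; rfl

lemma side_t (ε : Edg S) : side ε (tE ε) := by
  have : (tE ε)⁻¹ * ε.1 = mk [(ε.2, false)] := by
    rw [← inv_of, tE]; group
  simp [side, this, lst, toWord_mk]

omit [DecidableEq S] in
lemma mk_single_inv (a : S × Bool) : (mk [a] : FreeGroup S)⁻¹ = mk [(a.1, !a.2)] := by
  rw [inv_mk]; rfl

lemma lst_mul (a : S × Bool) (g : FreeGroup S) :
    lst (mk [a] * g) = lst g ∨ (g = 1 ∧ lst (mk [a] * g) = some a) ∨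
      (mk [a] * g = 1 ∧ lst g = some (a.1, !a.2)) := by
  have h1 : (mk [a] * g).toWord = reduce (a :: g.toWord) := by
    conv_lhs => rw [← mk_toWord (x := g), mul_mk, toWord_mk]
    rfl
  rw [reduce.cons, reduce_toWord] at h1
  cases hw : g.toWord with
  | nil =>
    right; left
    rw [hw] at h1
    exact ⟨toWord_eq_nil_iff.1 hw, by simp [lst, h1]⟩
  | cons hd tl =>
    rw [hw] at h1
    simp only at h1
    split_ifs at h1 with hc
    · cases tl with
      | nil =>
        right; right
        refine ⟨toWord_eq_nil_iff.1 h1, ?_⟩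
        simp only [lst, hw, List.getLast?_singleton, Option.some.injEq]
        ext
        · exact hc.1.symm
        · simp [hc.2]
      | cons hd' tl' =>
        left
        simp [lst, h1, hw, List.getLast?_cons_cons]
    · left
      simp [lst, h1, hw, List.getLast?_cons_cons]

/-- The edge between `y` and `y * a`. -/
def edgeOf (y : FreeGroup S) (a : S × Bool) : Edg S := if a.2 then (y, a.1) else (y * mk [a], a.1)

omit [DecidableEq S] in
lemma edgeOf_ends (y : FreeGroup S) (a : S × Bool) :
    ((edgeOf y a).1 = y ∧ tE (edgeOf y a) = y * mk [a]) ∨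
      ((edgeOf y a).1 = y * mk [a] ∧ tE (edgeOf y a) = y) := by
  obtain ⟨s, b⟩ := a
  cases b
  · right
    refine ⟨by simp [edgeOf], ?_⟩
    simp only [edgeOf, tE, Bool.false_eq_true, if_false]
    rw [← inv_of]; group
  · left
    exact ⟨by simp [edgeOf], by simp [edgeOf, tE, of]⟩

lemma side_step (ε : Edg S) (y : FreeGroup S) (a : S × Bool) (h : ε ≠ edgeOf y a) :
    side ε (y * mk [a]) ↔ side ε y := by
  have e : (y * mk [a])⁻¹ * ε.1 = mk [(a.1, !a.2)] * (y⁻¹ * ε.1) := by
    rw [← mk_single_inv]; group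
  obtain ⟨x, s⟩ := ε
  obtain ⟨s', b⟩ := a
  simp only [side] at e ⊢
  rw [e]
  rcases lst_mul (s', !b) (y⁻¹ * x) with h1 | ⟨h1, h2⟩ | ⟨h1, h2⟩
  · rw [h1]
  · have hx : x = y := by
      have := congrArg (y * ·) h1
      simpa using this
    rw [h2, h1, lst_one]
    simp only [Option.some.injEq, Prod.mk.injEq, reduceCtorEq, iff_false, not_and]
    rintro rfl hb
    apply h
    have : b = true := by simpa using hb
    simp [edgeOf, this, hx]
  · have hx : x = y * mk [(s', b)] := by
      rw [← e] at h1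
      exact (inv_mul_eq_one.1 h1).symm
    rw [h1, h2, lst_one]
    simp only [Bool.not_not, reduceCtorEq, Option.some.injEq, Prod.mk.injEq, false_iff, not_and]
    rintro rfl hb
    apply h
    simp [edgeOf, hb, hx]

lemma descend {x y : FreeGroup S} (h : y ≠ x) : ∃ a : S × Bool,
    norm ((y * mk [a])⁻¹ * x) < norm (y⁻¹ * x) ∧
      ((y * mk [a] = x ∧ lst (y⁻¹ * x) = some a) ∨
        lst ((y * mk [a])⁻¹ * x) = lst (y⁻¹ * x)) := by
  cases hw : (y⁻¹ * x).toWord with
  | nil =>
    exfalso
    apply h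
    have := congrArg (y * ·) (toWord_eq_nil_iff.1 hw)
    simpa using this.symm
  | cons a tl =>
    have hred : IsReduced (a :: tl) := hw ▸ isReduced_toWord
    have htl : IsReduced tl := List.IsChain.tail hred
    have e1 : y⁻¹ * x = mk [a] * mk tl := by
      rw [mul_mk, List.singleton_append, ← hw, mk_toWord]
    have e2 : (y * mk [a])⁻¹ * x = mk tl := by
      rw [mul_inv_rev, mul_assoc, e1]; group
    have e3 : ((y * mk [a])⁻¹ * x).toWord = tl := by rw [e2, toWord_mk, htl.reduce_eq]
    refine ⟨a, ?_, ?_⟩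
    · rw [FreeGroup.norm, FreeGroup.norm, e3, hw]; simp
    · cases tl with
      | nil =>
        left
        refine ⟨?_, by simp [lst, hw]⟩
        exact inv_mul_eq_one.1 (toWord_eq_nil_iff.1 e3)
      | cons b tl' =>
        right
        rw [lst, lst, e3, hw, List.getLast?_cons_cons]

lemma conn_pos (ε : Edg S) (P : FreeGroup S → Prop)
    (hP : ∀ y a, side ε y → side ε (y * mk [a]) → (P y ↔ P (y * mk [a]))) :
    ∀ y, side ε y → (P y ↔ P (tE ε)) := by
  intro y
  induction hn : norm (y⁻¹ * ε.1) using Nat.strong_induction_on generalizing y with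
  | _ n ih =>
    intro hy
    have hne : y ≠ ε.1 := by rintro rfl; exact not_side_o ε hy
    obtain ⟨a, h1, h2⟩ := descend hne
    rcases h2 with ⟨h2, h3⟩ | h2
    · have ha : a = (ε.2, false) := by
        have := hy
        rw [side, h3] at this
        simpa using this
      have : y = tE ε := by
        rw [tE, ← h2, ha, ← inv_of]; group
      rw [this]
    · have hy' : side ε (y * mk [a]) := by rw [side, h2]; exact hy
      rw [hP y a hy hy']
      exact ih _ (hn ▸ h1) _ rfl hy'

lemma conn_neg (ε : Edg S) (P : FreeGroup S → Prop)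
    (hP : ∀ y a, ¬ side ε y → ¬ side ε (y * mk [a]) → (P y ↔ P (y * mk [a]))) :
    ∀ y, ¬ side ε y → (P y ↔ P ε.1) := by
  intro y
  induction hn : norm (y⁻¹ * ε.1) using Nat.strong_induction_on generalizing y with
  | _ n ih =>
    intro hy
    by_cases hne : y = ε.1
    · rw [hne]
    obtain ⟨a, h1, h2⟩ := descend hne
    have hy' : ¬ side ε (y * mk [a]) := by
      rcases h2 with ⟨h2, -⟩ | h2
      · rw [h2]; exact not_side_o ε
      · rw [side, h2]; exact hy
    rw [hP y a hy hy']
    exact ih _ (hn ▸ h1) _ rfl hy'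

lemma side_ends {ε ε' : Edg S} (h : ε' ≠ ε) : side ε' (tE ε) ↔ side ε' ε.1 := by
  have := side_step ε' ε.1 (ε.2, true) (by simpa [edgeOf] using h)
  simpa [tE, of] using this

/-- Nestedness of half spaces. -/
lemma nested {ε ε' : Edg S} (hne : ε ≠ ε') {p q : FreeGroup S}
    (hp : ¬ (side ε' p ↔ side ε' ε.1)) (hq : ¬ (side ε' q ↔ side ε' ε.1)) :
    side ε p ↔ side ε q := by
  have ht := side_ends hne.symm
  have key : ∀ y a, ¬ (side ε' y ↔ side ε' ε.1) → ¬ (side ε' (y * mk [a]) ↔ side ε' ε.1) →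
      (side ε y ↔ side ε (y * mk [a])) := by
    intro y a h1 h2
    refine (side_step ε y a ?_).symm
    intro h
    rcases edgeOf_ends y a with ⟨h3, -⟩ | ⟨h3, -⟩
    · rw [← h] at h3; rw [h3] at h1; exact h1 Iff.rfl
    · rw [← h] at h3; rw [h3] at h2; exact h2 Iff.rfl
  by_cases hs : side ε' ε.1
  · have := conn_neg ε' (side ε) (fun y a h1 h2 => key y a (by tauto) (by tauto))
    rw [this p (by tauto), this q (by tauto)]
  · have := conn_pos ε' (side ε) (fun y a h1 h2 => key y a (by tauto) (by tauto))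
    rw [this p (by tauto), this q (by tauto)]

lemma finite_sep (p q : FreeGroup S) : {ε : Edg S | ¬ (side ε p ↔ side ε q)}.Finite := by
  induction hn : norm (p⁻¹ * q) using Nat.strong_induction_on generalizing p with
  | _ n ih =>
    by_cases hne : p = q
    · simp [hne]
    obtain ⟨a, h1, -⟩ := descend hne
    refine ((ih _ (hn ▸ h1) _ rfl).insert (edgeOf p a)).subset ?_
    intro ε hε
    by_cases h : ε = edgeOf p a
    · exact Or.inl h
    · right
      have := side_step ε p a h
      simp only [Set.mem_ofPred_eq] at hε ⊢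
      rwa [this]

/-- The edges separating `p` and `q`. -/
noncomputable def E (p q : FreeGroup S) : Finset (Edg S) := (finite_sep p q).toFinset

lemma mem_E {p q : FreeGroup S} {ε : Edg S} : ε ∈ E p q ↔ ¬ (side ε p ↔ side ε q) := by
  simp [E]

@[simp] lemma E_self (p : FreeGroup S) : E p p = ∅ := by
  ext ε; simp [mem_E]

lemma E_comm (p q : FreeGroup S) : E p q = E q p := by
  ext ε; simp only [mem_E]; tauto

lemma E_tri (p q r : FreeGroup S) : E p r ⊆ E p q ∪ E q r := by
  intro ε; simp only [mem_union, mem_E]; tauto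

lemma tr_mem_E {g p q : FreeGroup S} {ε : Edg S} : tr g ε ∈ E (g * p) (g * q) ↔ ε ∈ E p q := by
  simp only [mem_E, side_tr]

lemma mem_E_mul {g p q : FreeGroup S} {ε : Edg S} :
    ε ∈ E (g * p) (g * q) ↔ tr g⁻¹ ε ∈ E p q := by
  rw [← tr_mem_E (g := g) (ε := tr g⁻¹ ε), tr_tr_inv]

lemma E_mul (g p q : FreeGroup S) :
    E (g * p) (g * q) = (E p q).map ⟨tr g, tr_injective g⟩ := by
  ext ε
  simp only [mem_map, Function.Embedding.coeFn_mk, mem_E_mul]
  constructor
  · intro h; exact ⟨_, h, tr_tr_inv g ε⟩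
  · rintro ⟨a, ha, rfl⟩; simpa using ha

lemma E_edge (ε : Edg S) : E ε.1 (tE ε) = {ε} := by
  ext ε'
  rw [mem_E, mem_singleton]
  constructor
  · intro h
    by_contra hne
    exact h (side_ends hne).symm
  · rintro rfl
    have := not_side_o ε'
    have := side_t ε'
    tauto

/-- `y` is an end of `ε`. -/
def IsEnd (ε : Edg S) (y : FreeGroup S) : Prop := y = ε.1 ∨ y = tE ε

lemma IsEnd.side_iff {ε ε' : Edg S} {y : FreeGroup S} (hy : IsEnd ε y) (h : ε' ≠ ε) :
    side ε' y ↔ side ε' ε.1 := by
  rcases hy with rfl | rfl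
  · rfl
  · exact side_ends h

lemma nest {ε ε' : Edg S} (hne : ε ≠ ε') {p q y : FreeGroup S} (hy : IsEnd ε y)
    (hp : ε' ∈ E p y) (hq : ε' ∈ E q y) : ε ∉ E p q := by
  rw [mem_E, hy.side_iff hne.symm] at hp hq
  rw [mem_E, not_not]
  exact nested hne hp hq

lemma between {ε : Edg S} {p q y : FreeGroup S} (hε : ε ∈ E p q) (hy : IsEnd ε y) :
    E p y ⊆ E p q := by
  intro ε' h
  by_contra hcon
  have hne : ε ≠ ε' := by rintro rfl; exact hcon hε
  have h2 : ε' ∈ E q y := by
    rw [mem_E] at h hcon ⊢; tauto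
  exact nest hne hy h h2 hε

lemma exists_near (ε : Edg S) (p : FreeGroup S) : ∃ y, IsEnd ε y ∧ ε ∉ E p y := by
  have h1 := not_side_o ε
  have h2 := side_t ε
  by_cases h : side ε p
  · exact ⟨tE ε, Or.inr rfl, by rw [mem_E]; tauto⟩
  · exact ⟨ε.1, Or.inl rfl, by rw [mem_E]; tauto⟩

lemma eq_of_E_empty {p q : FreeGroup S} (h : E p q = ∅) : p = q := by
  by_contra hne
  have hall : ∀ ε, side ε p ↔ side ε q := by
    intro ε
    by_contra hc
    have : ε ∈ E p q := mem_E.2 hc
    rw [h] at this
    simp at this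
  have hw : (q⁻¹ * p).toWord ≠ [] := by
    intro h0
    apply hne
    have := congrArg (q * ·) (toWord_eq_nil_iff.1 h0)
    simpa using this
  obtain ⟨L, a, hL⟩ : ∃ L a, (q⁻¹ * p).toWord = L ++ [a] :=
    ⟨_, _, (List.dropLast_append_getLast hw).symm⟩
  obtain ⟨s, b⟩ := a
  cases b
  · have h1 : side (p, s) q := by simp [side, lst, hL]
    exact not_side_o (p, s) ((hall _).2 h1)
  · have hred : IsReduced (L ++ [(s, true)]) := hL ▸ isReduced_toWord
    have hL' : IsReduced L := (List.isChain_append.1 hred).1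
    have e1 : q⁻¹ * (p * (of s)⁻¹) = mk L := by
      have : q⁻¹ * p = mk L * of s := by
        rw [of, mul_mk, ← hL, mk_toWord]
      rw [← mul_assoc, this]; group
    have h1 : side (p * (of s)⁻¹, s) p := by
      have := side_t (p * (of s)⁻¹, s)
      simpa [tE] using this
    have h2 := (hall _).1 h1
    simp only [side, e1, lst, toWord_mk, hL'.reduce_eq] at h2
    have h3 := (List.isChain_append.1 hred).2.2 (s, false) (by simpa using h2) (s, true) (by simp)
    simp at h3

/-- The tree distance. -/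
noncomputable def d (p q : FreeGroup S) : ℕ := #(E p q)

lemma d_mul (g p q : FreeGroup S) : d (g * p) (g * q) = d p q := by
  simp [d, E_mul]

lemma d_comm (p q : FreeGroup S) : d p q = d q p := by rw [d, d, E_comm]

@[simp] lemma d_self (p : FreeGroup S) : d p p = 0 := by simp [d]

lemma d_tri (p q r : FreeGroup S) : d p r ≤ d p q + d q r :=
  (card_le_card (E_tri p q r)).trans (card_union_le _ _)

lemma d_edge (ε : Edg S) : d ε.1 (tE ε) = 1 := by simp [d, E_edge]

lemma eq_of_d {p q : FreeGroup S} (h : d p q = 0) : p = q := eq_of_E_empty (card_eq_zero.1 h)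

/-- Some separating edge has an end at `p`. -/
lemma step {p q : FreeGroup S} (h : p ≠ q) : ∃ ε ∈ E p q, IsEnd ε p := by
  induction hn : d p q using Nat.strong_induction_on generalizing q with
  | _ n ih =>
    have hne : (E p q).Nonempty := by
      rw [nonempty_iff_ne_empty]; exact fun h0 => h (eq_of_E_empty h0)
    obtain ⟨ε, hε⟩ := hne
    obtain ⟨y, hy, hy'⟩ := exists_near ε p
    by_cases hpy : p = y
    · exact ⟨ε, hε, hpy ▸ hy⟩
    have hsub := between hε hy
    have hlt : d p y < n := by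
      rw [← hn]
      exact card_lt_card ⟨hsub, fun h' => hy' (h' hε)⟩
    obtain ⟨ε', h1, h2⟩ := ih _ hlt hpy rfl
    exact ⟨ε', hsub h1, h2⟩

lemma step' {p q : FreeGroup S} (h : p ≠ q) : ∃ ε ∈ E p q, ∃ y, IsEnd ε p ∧ IsEnd ε y ∧
    d p y = 1 ∧ d y q + 1 = d p q := by
  obtain ⟨ε, hε, hp⟩ := step h
  have key : ∀ y, E p y = {ε} → d p y = 1 ∧ d y q + 1 = d p q := by
    intro y hy
    refine ⟨by simp [d, hy], ?_⟩
    have : E y q = (E p q).erase ε := by
      ext ε'
      have h1 : ε' ∈ E p y ↔ ε' = ε := by rw [hy, mem_singleton]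
      rw [mem_erase]
      by_cases h2 : ε' = ε
      · subst h2
        have h3 := h1.2 rfl
        simp only [mem_E] at *
        tauto
      · have h3 : ε' ∉ E p y := fun h => h2 (h1.1 h)
        simp only [mem_E] at *
        tauto
    rw [d, d, this, card_erase_add_one hε]
  rcases hp with rfl | rfl
  · exact ⟨ε, hε, tE ε, Or.inl rfl, Or.inr rfl, key _ (E_edge ε)⟩
  · exact ⟨ε, hε, ε.1, Or.inr rfl, Or.inl rfl, key _ (by rw [E_comm, E_edge])⟩

lemma finite_ball [Finite S] (R : ℕ) : {q : FreeGroup S | d 1 q ≤ R}.Finite := by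
  induction R with
  | zero =>
    refine (Set.finite_singleton (1 : FreeGroup S)).subset ?_
    intro q hq
    exact (eq_of_d (Nat.le_zero.1 hq)).symm
  | succ R ih =>
    have h1 : (Set.image2 (fun (x : FreeGroup S) (s : S) => x * of s) {q | d 1 q ≤ R}
        Set.univ).Finite := ih.image2 _ Set.finite_univ
    have h2 : (Set.image2 (fun (x : FreeGroup S) (s : S) => x * (of s)⁻¹) {q | d 1 q ≤ R}
        Set.univ).Finite := ih.image2 _ Set.finite_univ
    refine ((h1.union h2).insert 1).subset ?_
    intro q hq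
    by_cases h : q = 1
    · exact Or.inl h
    right
    obtain ⟨ε, -, y, hq1, hy1, h3, h4⟩ := step' h
    have hy : d 1 y ≤ R := by
      have : d 1 q ≤ R + 1 := hq
      rw [d_comm] at this ⊢
      omega
    have hne : q ≠ y := by rintro rfl; simp at h3
    rcases hq1 with rfl | rfl <;> rcases hy1 with rfl | rfl
    · exact absurd rfl hne
    · right; exact ⟨tE ε, hy, ε.2, trivial, by simp [tE]⟩
    · left; exact ⟨ε.1, hy, ε.2, trivial, rfl⟩
    · exact absurd rfl hne

/-- Two points on a geodesic are ordered. -/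
lemma ordered {s t u w : FreeGroup S} (hu : E s u ⊆ E s t) (hw : E s w ⊆ E s t) :
    E s u ⊆ E s w ∨ E s w ⊆ E s u := by
  by_contra hcon
  push Not at hcon
  obtain ⟨h1, h2⟩ := hcon
  obtain ⟨ε, a1, a2⟩ := not_subset.1 h1
  obtain ⟨ε', b1, b2⟩ := not_subset.1 h2
  have a3 := hu a1
  have b3 := hw b1
  have hne : ε ≠ ε' := by rintro rfl; exact a2 b1
  by_cases h : ε' ∈ E s ε.1
  · have : ε' ∈ E u ε.1 := by simp only [mem_E] at *; tauto
    exact nest hne (Or.inl rfl) h this a1
  · have c1 : ε' ∈ E w ε.1 := by simp only [mem_E] at *; tauto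
    have c2 : ε' ∈ E t ε.1 := by simp only [mem_E] at *; tauto
    have := nest hne (Or.inl rfl) c1 c2
    simp only [mem_E] at *; tauto

lemma d_add_of_sub {s u w : FreeGroup S} (h : E s u ⊆ E s w) : d s u + d u w = d s w := by
  have : E u w = E s w \ E s u := by
    ext ε
    have := @h ε
    simp only [mem_sdiff, mem_E] at *
    tauto
  rw [d, d, d, this, add_comm, card_sdiff_add_card_eq_card h]

section pot

variable {A : Type*} [AddCommGroup A]

open Classical in
/-- Signed sum of weights along the geodesic. -/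
noncomputable def pot (w : Edg S → A) (p q : FreeGroup S) : A :=
  ∑ ε ∈ E p q, if side ε q then w ε else -w ε

open Classical in
lemma pot_eq (w : Edg S → A) (p q : FreeGroup S) (X : Finset (Edg S)) (hX : E p q ⊆ X) :
    pot w p q = ∑ ε ∈ X, ((if side ε q then w ε else 0) - (if side ε p then w ε else 0)) := by
  rw [pot, ← sum_subset hX]
  · refine sum_congr rfl fun ε hε => ?_
    rw [mem_E] at hε
    by_cases h1 : side ε q <;> by_cases h2 : side ε p <;> simp_all
  · intro ε _ hε
    rw [mem_E, not_not] at hε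
    by_cases h1 : side ε q <;> simp_all

lemma pot_add (w : Edg S → A) (p q r : FreeGroup S) : pot w p q + pot w q r = pot w p r := by
  rw [pot_eq w p q (E p q ∪ E q r) subset_union_left,
    pot_eq w q r (E p q ∪ E q r) subset_union_right,
    pot_eq w p r (E p q ∪ E q r) (E_tri p q r), ← sum_add_distrib]
  refine sum_congr rfl fun ε _ => ?_
  abel

@[simp] lemma pot_self (w : Edg S → A) (p : FreeGroup S) : pot w p p = 0 := by simp [pot]

lemma pot_swap (w : Edg S → A) (p q : FreeGroup S) : pot w q p = -pot w p q := by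
  have := pot_add w p q p
  rw [pot_self] at this
  exact eq_neg_of_add_eq_zero_right this

lemma pot_edge (w : Edg S → A) (ε : Edg S) : pot w ε.1 (tE ε) = w ε := by
  simp [pot, E_edge, side_t]

lemma pot_mul (w w' : Edg S → A) (g p q : FreeGroup S) (h : ∀ ε, w' (tr g ε) = w ε) :
    pot w' (g * p) (g * q) = pot w p q := by
  rw [pot, pot, E_mul, sum_map]
  refine sum_congr rfl fun ε _ => ?_
  simp only [Function.Embedding.coeFn_mk, h]
  by_cases hs : side ε q
  · rw [if_pos hs, if_pos ((side_tr g ε q).2 hs)]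
  · rw [if_neg hs, if_neg (fun h' => hs ((side_tr g ε q).1 h'))]

lemma pot_congr (w w' : Edg S → A) (p q : FreeGroup S) (h : ∀ ε ∈ E p q, w ε = w' ε) :
    pot w p q = pot w' p q := by
  refine sum_congr rfl fun ε hε => ?_
  rw [h ε hε]

lemma map_pot {B : Type*} [AddCommGroup B] (f : A →+ B) (w : Edg S → A) (p q : FreeGroup S) :
    f (pot w p q) = pot (fun ε => f (w ε)) p q := by
  rw [pot, pot, map_sum]
  refine sum_congr rfl fun ε _ => ?_
  split_ifs <;> simp

lemma pot_two (w : Edg S → A) (h2 : ∀ a : A, -a = a) (p q : FreeGroup S) :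
    pot w p q = ∑ ε ∈ E p q, w ε := by
  refine sum_congr rfl fun ε _ => ?_
  split_ifs <;> simp [h2]

end pot

end Pool.Agent.H839Z.CE
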